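import Pool.Agent.H290.CT.Base

/-!
# Polynomials `a ^ 2 + X` with exactly `k` irreducible factors: statements of the parts

`K` is a finite field of characteristic two, `q = Fintype.card K`; `M K d` is the set of the monic
polynomials of degree `d` and `V K n` the set of the polynomials of degree `< n`
(`Pool/Agent/H290/CT/Defs.lean`, basic facts in `Pool/Agent/H290/CT/Base.lean`).
Squarefree monic polynomials are represented by the sets `S` of their monic irreducible factors.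
-/

namespace Pool.Agent.H290.PK

open Polynomial Finset
open scoped Classical
open Pool.Agent.H290.CT (V M)

noncomputable section

/-- The monic irreducible polynomials of degree `n`. -/
def irr (K : Type) [Field K] [Fintype K] (n : ℕ) : Finset K[X] :=
  (M K n).filter (fun P => Irreducible P)

/-- The monic irreducible polynomials of degree less than `z`. -/
def PP (K : Type) [Field K] [Fintype K] (z : ℕ) : Finset K[X] := (range z).biUnion (irr K)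

/-- The monic irreducible factors of `f`. -/
def pf {K : Type} [Field K] (f : K[X]) : Finset K[X] :=
  (UniqueFactorizationMonoid.normalizedFactors f).toFinset

/-- The degree of the product of the members of `S`. -/
def dg {K : Type} [Field K] (S : Finset K[X]) : ℕ := ∑ P ∈ S, P.natDegree

/-- `1 / (q ^ deg P - 1)`. -/
def xP {K : Type} [Field K] [Fintype K] (P : K[X]) : ℝ :=
  1 / ((Fintype.card K : ℝ) ^ P.natDegree - 1)

/-- `S` consists of monic irreducible polynomials. -/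
def MI {K : Type} [Field K] (S : Finset K[X]) : Prop := ∀ P ∈ S, P.Monic ∧ Irreducible P

/-- The number of the monic `a` of degree `d` such that the set of the monic irreducible factors of
`a ^ 2 + X` consists of `S` and exactly one more polynomial. -/
def NS (K : Type) [Field K] [Fintype K] (d : ℕ) (S : Finset K[X]) : ℕ :=
  ((M K d).filter (fun a => S ⊆ pf (a ^ 2 + X) ∧ (pf (a ^ 2 + X)).card = S.card + 1)).card

/-- The number of the monic `a` of degree `d` such that `a ^ 2 + X` has exactly `k` monic irreducible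
factors. -/
def NK (K : Type) [Field K] [Fintype K] (d k : ℕ) : ℕ :=
  ((M K d).filter (fun a => (pf (a ^ 2 + X)).card = k)).card

/-- The sum of the products `∏_{P ∈ S} x P` over the subsets `S` of `I` with `j` elements. -/
def es {ι : Type} (I : Finset ι) (x : ι → ℝ) (j : ℕ) : ℝ := ∑ S ∈ I.powersetCard j, ∏ i ∈ S, x i

/-- The expected number `q ^ d (log d) ^ (k - 1) / (2 d (k - 1)!)`. -/
def EK (K : Type) [Field K] [Fintype K] (d k : ℕ) : ℝ :=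
  (Fintype.card K : ℝ) ^ d * Real.log d ^ (k - 1) / (2 * d * (k - 1).factorial)

/-- **S_bas** (basic facts on `f = a ^ 2 + X`, `a` monic of degree `d ≥ 1`).
`f' = 1`, so `f` is squarefree; `f` is monic of degree `2 d`; so `f = ∏ P ∈ pf f, P` and
`dg (pf f) = 2 d`, the members of `pf f` are monic irreducible, and a monic irreducible `P` belongs to
`pf f` iff `P ∣ f`; the number of factors counted with multiplicity is `(pf f).card`.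
Root classes: for every monic irreducible `P` there is `r` with `P ∣ a ^ 2 + X ↔ P ∣ a - r` for all `a`
(Frobenius is bijective on the finite field `K[X]/(P)`: `r ^ 2 ≡ X`, and in characteristic two
`a ^ 2 + X ≡ a ^ 2 + r ^ 2 = (a + r) ^ 2 = (a - r) ^ 2`). -/
def SBas : Prop := ∀ (K : Type) [Field K] [Fintype K] [CharP K 2],
  (∀ (d : ℕ), ∀ a ∈ M K d, 1 ≤ d → Squarefree (a ^ 2 + X) ∧ (a ^ 2 + X).Monic ∧
    (a ^ 2 + X).natDegree = 2 * d ∧ ∏ P ∈ pf (a ^ 2 + X), P = a ^ 2 + X ∧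
    dg (pf (a ^ 2 + X)) = 2 * d ∧ MI (pf (a ^ 2 + X)) ∧
    (UniqueFactorizationMonoid.normalizedFactors (a ^ 2 + X)).card = (pf (a ^ 2 + X)).card ∧
    ∀ P : K[X], P.Monic → Irreducible P → (P ∈ pf (a ^ 2 + X) ↔ P ∣ a ^ 2 + X)) ∧
  (∀ P : K[X], P.Monic → Irreducible P → ∃ r : K[X], ∀ a : K[X], P ∣ a ^ 2 + X ↔ P ∣ a - r)

/-- **S_sel** (Selberg's sieve in `K[X]`, exact level).  For every real `λ_T`, `T` running over the
sets `T ⊆ 𝒫 := PP K z \ S` with `dg T < z`, with `λ_∅ = 1`: the sifted set `A` has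
`|A| ≤ ∑_{s ∈ V N} (∑_{T : all P ∈ T divide s - c P} λ_T)^2 = ∑_{T,T'} λ_T λ_T' q^(N - dg (T ∪ T'))`
because the number of `s ∈ V N` with `s ≡ c P (mod P)` for all `P ∈ T ∪ T'` is exactly
`q^(N - dg (T ∪ T'))` (Chinese remainder theorem, `dg (T ∪ T') ≤ 2 (z - 1) ≤ N`).
Put `g(T) = ∏_{P ∈ T} 1/(q^deg P - 1) = ∏ xP P` and `L = ∑_T g(T)`.  With
`q^(-dg (T ∪ T')) = q^(-dg T) q^(-dg T') q^(dg (T ∩ T'))` and
`q^(dg R) = ∑_{U ⊆ R} ∏_{P ∈ U} (q^deg P - 1) = ∑_{U ⊆ R} 1 / g(U)` the quadratic form is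
`q^N ∑_U (1/g(U)) y_U^2`, `y_U = ∑_{T ⊇ U} λ_T q^(-dg T)`.  Choose
`λ_T = q^(dg T) ∑_{U ⊇ T, dg U < z} (-1)^(|U| - |T|) y_U`, `y_U = (-1)^|U| g(U) / L`; then by Möbius
inversion over the sets of degree `< z` (closed under taking subsets) `∑_{T ⊇ U} λ_T q^(-dg T) = y_U`,
`λ_∅ = ∑_U (-1)^|U| y_U = 1` and the quadratic form is `q^N ∑_U g(U)/L^2 = q^N / L`.
Result: `|A| * L ≤ q^N`. -/
def SSel : Prop := ∀ (K : Type) [Field K] [Fintype K] (N z : ℕ) (S : Finset K[X]) (c : K[X] → K[X]),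
  1 ≤ z → 2 * (z - 1) ≤ N →
  (((V K N).filter (fun s => ∀ P ∈ PP K z \ S, ¬ P ∣ s - c P)).card : ℝ) *
    ∑ T ∈ ((PP K z \ S).powerset).filter (fun T => dg T < z), ∏ P ∈ T, xP P ≤
    (Fintype.card K : ℝ) ^ N

/-- **S_sel2** (lower bound for the denominator).  For `S` a finite set of monic irreducible
polynomials, `z ∏_{P ∈ S} (1 - q^(-deg P)) ≤ ∑_T ∏_{P ∈ T} xP P`, `T ⊆ PP K z \ S`, `dg T < z`.
(1) `S = ∅`: every monic `n` of degree `< z` has a radical `∏_{P ∈ T} P`, `T = pf n`, `dg T < z`, and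
for fixed `T` the sum of `q^(-deg n)` over the `n` with `pf n = T` is at most
`∏_{P ∈ T} ∑_{e ≥ 1} q^(-e deg P) = ∏_{P ∈ T} xP P`; so
`z = ∑_{n monic, deg n < z} q^(-deg n) ≤ ∑_T ∏ xP P`.  (2) Write `L_S(y)` for the sum over
`T ∩ S = ∅`, `dg T < y` (so `T ⊆ PP K z`).  For `P ∉ S`: `L_S(z) = L_{S ∪ {P}}(z) + xP P * L_{S ∪ {P}}(z - deg P) ≤
(1 + xP P) L_{S ∪ {P}}(z)` and `1 + xP P = 1 / (1 - q^(-deg P))`; induction on `S`.  (If
`deg P ≥ z` then `L_S = L_{S ∪ P}`.) -/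
def SSel2 : Prop := ∀ (K : Type) [Field K] [Fintype K] (z : ℕ) (S : Finset K[X]), MI S → 1 ≤ z →
  (z : ℝ) * ∏ P ∈ S, (1 - 1 / (Fintype.card K : ℝ) ^ P.natDegree) ≤
    ∑ T ∈ ((PP K z \ S).powerset).filter (fun T => dg T < z), ∏ P ∈ T, xP P

/-- **S_up** (upper bound sieve for `a ^ 2 + X`), from `SBas`, `SSel`, `SSel2`.
Let `D = ∏ P ∈ S, P`, of degree `dg S ≤ d`.  By the root classes and the Chinese remainder theorem the
`a ∈ M K d` with `S ⊆ pf (a ^ 2 + X)` are `a = a* + D s`, `s ∈ V K N`, `N = d - dg S`, `a*` monic of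
degree `d` (the case `dg S = d` included: then at most one `a`, `N = 0`, `V K 0 = {0}`).  For `P ∉ S` of
degree `< z`: `P ∤ D`, and `P ∣ a ^ 2 + X` iff `P ∣ a* + D s - r_P` iff `P ∣ s - c_P` for a suitable
`c_P` (invert `D` modulo `P`).  So the `a` counted correspond to `s` in the sifted set of `SSel`, with
the excluded set `S`; hence `count * z * ∏_{P∈S} (1 - q^(-deg P)) ≤ q^(d - dg S)`. -/
def SUp : Prop := ∀ (K : Type) [Field K] [Fintype K] [CharP K 2] (d z : ℕ) (S : Finset K[X]),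
  1 ≤ d → MI S → 1 ≤ z → 2 * (z - 1) + dg S ≤ d →
  (((M K d).filter (fun a => S ⊆ pf (a ^ 2 + X) ∧
    ∀ P ∈ pf (a ^ 2 + X), P ∈ S ∨ z ≤ P.natDegree)).card : ℝ) * z ≤
    (Fintype.card K : ℝ) ^ d * ∏ P ∈ S, xP P

/-- **S_mer** (Mertens' estimates).  `n * |irr n| ≤ q^n` (the product of the monic irreducible
polynomials of degree `n` divides `X^(q^n) - X`; or `Polynomial`/finite field counting: each
irreducible polynomial of degree `n` has `n` distinct roots in the field with `q^n` elements) and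
`n * |irr n| ≥ q^n - 2 q^(n/2)` (`q^n = ∑_{m ∣ n} m |irr m| ≤ n |irr n| + ∑_{m ≤ n/2} q^m`), `n ≥ 1`.
Hence `∑_{P ∈ PP z} xP P = ∑_{1 ≤ n < z} |irr n| / (q^n - 1)` differs from `∑_{1≤n<z} 1/n` by at most an
absolute constant (`≤ ∑ (1/n) q^n/(q^n-1)`, `≥ ∑ (1/n)(1 - 2 q^(-n/2))`), and the harmonic sum from
`log z` by at most `1` (`z ≥ 1`).  (4): `∑ deg P xP P ≤ ∑_{1≤n<z} q^n/(q^n-1) ≤ 2 z`.
(5): `∑_{n ≤ w} e^(λ n / w) (1/n)(1 + 1/(q^n - 1))`, `e^(λ n/w) ≤ 1 + (n/w) (e^λ - 1)` for `0 ≤ n ≤ w`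
(convexity), so the sum is `≤ ∑_{n≤w} 1/n + C + 2 (e^λ - 1)`. -/
def SMer : Prop := ∀ (K : Type) [Field K] [Fintype K],
  (∀ n : ℕ, 1 ≤ n → (n : ℝ) * (irr K n).card ≤ (Fintype.card K : ℝ) ^ n) ∧
  (∃ C : ℝ, 0 ≤ C ∧ ∀ z : ℕ, 1 ≤ z → |∑ P ∈ PP K z, xP P - Real.log z| ≤ C ∧
    ∑ P ∈ PP K z, xP P ^ 2 ≤ C) ∧
  (∀ κ : ℝ, 0 < κ → ∃ y₀ : ℕ, ∀ z : ℕ, ∑ P ∈ PP K z \ PP K y₀, xP P ^ 2 ≤ κ) ∧
  (∀ z : ℕ, ∑ P ∈ PP K z, (P.natDegree : ℝ) * xP P ≤ 2 * z) ∧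
  (∀ t : ℝ, 0 ≤ t → ∃ C : ℝ, 0 ≤ C ∧ ∀ w : ℕ, 1 ≤ w →
    ∑ P ∈ PP K (w + 1), Real.exp (t * P.natDegree / w) * xP P ≤ Real.log w + C)

/-- **S_es** (elementary symmetric sums), `x ≥ 0`.  With `T = ∑ x_i`:
(1) `j! e_j ≤ T^j`; (2) `T^j - j^2 (∑ x_i^2) T^(j-2) ≤ j! e_j` for `j ≥ 2` (expand `T^j` over all
`j`-tuples; the tuples with distinct entries give `j! e_j`, the tuples with two equal entries at
positions `a < b` at most `(∑ x^2) T^(j-2)`); an alternative is induction with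
`(j+1) e_{j+1} = ∑_i x_i e_j(I \ {i})`, `e_j(I) - e_j(I \ {i}) = x_i e_{j-1}(I \ {i}) ≤ x_i e_{j-1}(I)`,
so `(j+1) e_{j+1} ≥ T e_j - (∑ x^2) e_{j-1}`;
(3) `∑_{S ∈ powersetCard (j+1)} (∑_{i∈S} y_i) ∏_{i∈S} x_i ≤ (∑ y_i x_i) e_j` for `y ≥ 0`. -/
def SEs : Prop := ∀ (ι : Type) (I : Finset ι) (x y : ι → ℝ), (∀ i, 0 ≤ x i) → (∀ i, 0 ≤ y i) →
  (∀ j : ℕ, (j.factorial : ℝ) * es I x j ≤ (∑ i ∈ I, x i) ^ j) ∧
  (∀ j : ℕ, (∑ i ∈ I, x i) ^ (j + 2) - ((j : ℝ) + 2) ^ 2 * (∑ i ∈ I, x i ^ 2) * (∑ i ∈ I, x i) ^ j ≤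
    ((j + 2).factorial : ℝ) * es I x (j + 2)) ∧
  (∀ j : ℕ, ∑ S ∈ I.powersetCard (j + 1), (∑ i ∈ S, y i) * ∏ i ∈ S, x i ≤
    (∑ i ∈ I, y i * x i) * es I x j)

/-- **S_ii1** (the `a` for which the factors of degree `< z` have total degree `> d / 2`), from `SBas`
and `SUp`.  Let `F = pf (a ^ 2 + X)`, `|F| = k`, `s = {P ∈ F : deg P < z}`, `2 dg s > d`, `16 z ≤ d`.
Call `T ⊆ F` initial if `deg Q ≤ deg Q'` for all `Q ∈ T`, `Q' ∈ F \ T`.  `s` is initial and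
`4 dg s > d`.  Let `T` be an initial set with `4 dg T > d` of minimal cardinality, `P ∈ T` of maximal
degree `w`.  Then `T ⊆ s` (otherwise some `Q ∈ T` has degree `≥ z`, some `Q' ∈ s \ T` exists because
`|T| ≤ |s|`, and `deg Q ≤ deg Q' < z`), so `1 ≤ w < z`; `T' = T \ {P}` is initial, so `4 dg T' ≤ d`; all
members of `F \ T` have degree `≥ w`; `dg T ≤ d/4 + z ≤ d/2`.  Let `l = k - |T|`; `l ≥ 1` (as
`dg T < 2 d = dg F`) and `l w ≤ 2 d`; `|T'| = k - 1 - l`.  So the number of the `a` is at most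
the sum over `w`, `l`, `P ∈ irr w`, `T' ⊆ PP (w+1)` with `|T'| = k - 1 - l`, `4 (dg T' + w) > d`,
`4 dg T' ≤ d`, `P ∉ T'`, of the number of the `a` in `SUp` for the set `T = T' ∪ {P}` and `z := w`
(`2 (w-1) + dg T ≤ d/8 + d/2 ≤ d`), which is `≤ q^d / w * xP P * ∏_{T'} xP`. -/
def SII1 : Prop := ∀ (K : Type) [Field K] [Fintype K] [CharP K 2] (d z k : ℕ), 1 ≤ k → 1 ≤ z →
  16 * z ≤ d →
  (((M K d).filter (fun a => (pf (a ^ 2 + X)).card = k ∧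
    d < 2 * dg ((pf (a ^ 2 + X)).filter (fun P => P.natDegree < z)))).card : ℝ) ≤
  ∑ w ∈ Ico 1 z, ∑ l ∈ (Ico 1 k).filter (fun l => l * w ≤ 2 * d), ∑ P ∈ irr K w,
    ∑ T ∈ ((PP K (w + 1)).powersetCard (k - 1 - l)).filter (fun T => d < 4 * (dg T + w)),
      (Fintype.card K : ℝ) ^ d / w * xP P * ∏ Q ∈ T, xP Q

/-- **S_ii2** (the analytic bound for the right hand side of `SII1`), from `SMer` and `SEs`.
`A ≥ 1`, `L = log d`, `k ≤ A L`.  `∑_{P ∈ irr w} xP P ≤ (q^w/w)/(q^w-1) ≤ 2/w`.  Rankin's trick with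
`t = 8 log A + 16`: for `T` with `4 (dg T + w) > d` one has `1 ≤ exp (t (dg T + w - d/4)/w)`, so the
inner sum is `≤ exp (t - t d/(4w)) * es (PP (w+1)) (fun P => exp (t deg P/w) xP P) j
≤ exp (t - t d/(4w)) (log w + C)^j / j!`, `j = k - 1 - l`, `C = C(t)`; `log w ≤ L`;
`(L+C)^(k-1-l)/(k-1-l)! ≤ (L+C)^(k-1)/(k-1)! * (k/(L+C))^l ≤ e^(C A) L^(k-1)/(k-1)! * (k/L) A^(l-1)`
for `l ≥ 1`.  Number of `l`: at most `2 d / w`.  With `u = d/w ≥ 16`: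
`2u A^(2u) e^(-tu/4) ≤ e^u e^(-4u) ≤ 1/u^2`.  So the whole sum is at most
`q^d e^(CA) (L^(k-1)/(k-1)!) (k/L) ∑_{w < z} (2/w^2) e^t (w/d)^2 ≤ C_A (k/L) q^d L^(k-1)/((k-1)! d)`. -/
def SII2 : Prop := ∀ (K : Type) [Field K] [Fintype K] (A : ℝ), 1 ≤ A → ∃ C : ℝ, 0 ≤ C ∧ ∃ d₀ : ℕ,
  ∀ d z k : ℕ, d₀ ≤ d → 1 ≤ k → 1 ≤ z → 16 * z ≤ d → (k : ℝ) ≤ A * Real.log d →
  ∑ w ∈ Ico 1 z, ∑ l ∈ (Ico 1 k).filter (fun l => l * w ≤ 2 * d), ∑ P ∈ irr K w,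
    ∑ T ∈ ((PP K (w + 1)).powersetCard (k - 1 - l)).filter (fun T => d < 4 * (dg T + w)),
      (Fintype.card K : ℝ) ^ d / w * xP P * ∏ Q ∈ T, xP Q ≤
  C * (k / Real.log d) * EK K d k

/-- **S_dec** (the decomposition), from `SBas` and `SUp`.  `θ ≤ 1/2`, `16 z ≤ d < 16 (z + 1)`.
For `a` with `|pf f| = k` let `s = {P ∈ pf f : deg P < z}`.  If `2 dg s ≤ d` then `s ≠ pf f`
(`dg (pf f) = 2 d`), so `|s| = k - r` with `r ≥ 1`, and `r z ≤ 2 d < 32 (z + 1) ≤ 64 z`, so `r < 65`.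
`r = 1`, `dg s ≤ θ d`: `a` is counted in `NS K d s`; conversely if `S ⊆ PP K z`, `|S| = k - 1`,
`dg S ≤ θ d` and `a` is counted in `NS K d S` then the remaining factor has degree
`2 d - dg S ≥ z`, so `s = S`; so the number of these `a` is exactly `∑_S NS K d S`.
`r = 1`, `θ d < dg s ≤ d/2`: `SUp` for `S = s` gives at most `(q^d / z) ∑_{|S| = k-1, dg S > θ d} ∏ xP`.
`r ≥ 2`: at most `(q^d / z) e_{k-r}` (`SUp`, `2 (z-1) + d/2 ≤ d`).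
`2 dg s > d`: this is the set of `SII1`. -/
def SDec : Prop := ∀ (K : Type) [Field K] [Fintype K] [CharP K 2] (d z k : ℕ) (θ : ℝ), 1 ≤ k →
  1 ≤ z → 16 * z ≤ d → d < 16 * (z + 1) → 0 < θ → θ ≤ 1 / 2 →
  (∑ S ∈ ((PP K z).powersetCard (k - 1)).filter (fun S => (dg S : ℝ) ≤ θ * d), (NS K d S : ℝ) ≤
    NK K d k) ∧
  ((NK K d k : ℝ) ≤
    ∑ S ∈ ((PP K z).powersetCard (k - 1)).filter (fun S => (dg S : ℝ) ≤ θ * d), (NS K d S : ℝ) +
    (Fintype.card K : ℝ) ^ d / z *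
      ∑ S ∈ ((PP K z).powersetCard (k - 1)).filter (fun S => θ * d < (dg S : ℝ)), ∏ P ∈ S, xP P +
    (Fintype.card K : ℝ) ^ d / z * ∑ r ∈ Ico 2 65, (if r ≤ k then es (PP K z) xP (k - r) else 0) +
    (((M K d).filter (fun a => (pf (a ^ 2 + X)).card = k ∧
      d < 2 * dg ((pf (a ^ 2 + X)).filter (fun P => P.natDegree < z)))).card : ℝ))

/-- **The input** (uniform prime theorem of helper604's team for `(a ^ 2 + X) / E`). -/
def SP : Prop := ∀ (K : Type) [Field K] [Fintype K] [CharP K 2] (ε : ℝ), 0 < ε →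
  ∃ θ : ℝ, 0 < θ ∧ ∃ d₀ : ℕ, ∀ d : ℕ, d₀ ≤ d → ∀ S : Finset K[X], MI S → (dg S : ℝ) ≤ θ * d →
    |(2 * (d : ℝ) - dg S) * (NS K d S : ℝ) - (Fintype.card K : ℝ) ^ d * ∏ P ∈ S, xP P| ≤
      ε * ((Fintype.card K : ℝ) ^ d * ∏ P ∈ S, xP P)

/-- **S_err** (the error terms), from `SMer`, `SEs`.  `16 z ≤ d < 16 (z + 1)`, `L = log d`,
`k ≤ A L`, `A ≥ 1`, `T = ∑_{PP z} xP ≤ log z + C ≤ L + C` (`z ≥ 1` for `d ≥ 16`).
First sum: for `k = 1` it is empty (`dg ∅ = 0`); for `k = j + 2` it is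
`≤ (1/(θ d)) ∑_{|S| = j+1} (dg S) ∏ xP ≤ (1/(θ d)) (2 z) e_j ≤ (2z/(θ d)) T^j / j!` (SEs (3), SMer (4)).
Second sum: `e_{k-r} ≤ T^(k-r)/(k-r)!`.  For `1 ≤ l < k`:
`(L+C)^(k-1-l)/(k-1-l)! ≤ (L+C)^(k-1)/(k-1)! (k/(L+C))^l ≤ e^(CA) L^(k-1)/(k-1)! (k/L) A^(l-1)`
(`(k-1)!/(k-1-l)! ≤ k^l`, `(1 + C/L)^(k-1) ≤ e^(C k/L)`); apply it with `l = 1` and `l = r - 1`;
`q^d/z ≤ 32 q^d/d`. -/
def SErr : Prop := ∀ (K : Type) [Field K] [Fintype K] (A θ : ℝ), 1 ≤ A → 0 < θ →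
  ∃ C : ℝ, 0 ≤ C ∧ ∃ d₀ : ℕ, ∀ d z k : ℕ, d₀ ≤ d → 1 ≤ k → 16 * z ≤ d → d < 16 * (z + 1) →
    (k : ℝ) ≤ A * Real.log d →
    (Fintype.card K : ℝ) ^ d / z *
      ∑ S ∈ ((PP K z).powersetCard (k - 1)).filter (fun S => θ * d < (dg S : ℝ)), ∏ P ∈ S, xP P +
    (Fintype.card K : ℝ) ^ d / z * ∑ r ∈ Ico 2 65, (if r ≤ k then es (PP K z) xP (k - r) else 0) ≤
    C * (k / Real.log d) * EK K d k

/-- **S_main** (the main term), from `SMer`, `SEs`.  `j = k - 1`, `T = ∑_{PP z} xP`,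
`|T - L| ≤ C` (`log z = log d + O(1)`).  `j = 0`: both sides are `1`.
Upper bound: `e_j ≤ T^j/j! ≤ (L+C)^j/j!` and `(1 + C/L)^j ≤ e^(C j/L) ≤ 1 + C' k/L` for `k ≤ A L`.
Lower bound: the sum over `dg S ≤ θ d` is `e_j` minus the sum over `dg S > θ d`, which is
`≤ (2z/(θ d)) e_{j-1} ≤ C' (k/L) L^j/j!` (as in `SErr`), and
`j! e_j ≥ T^j - j^2 (∑ xP^2) T^(j-2)`, `T^j ≥ (L - C)^j ≥ L^j (1 - C j/L)` (Bernoulli, `C ≤ L`),
`j^2 C T^(j-2) ≤ C' (k/L)^2 (L+C)^j ≤ C'' (k/L) L^j` (`T ≥ L/2` for large `d`; for `j = 1` it is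
`|T - L| ≤ C`). -/
def SMain : Prop := ∀ (K : Type) [Field K] [Fintype K] (A θ : ℝ), 1 ≤ A → 0 < θ →
  ∃ C : ℝ, 0 ≤ C ∧ ∃ d₀ : ℕ, ∀ d z k : ℕ, d₀ ≤ d → 1 ≤ k → 16 * z ≤ d → d < 16 * (z + 1) →
    (k : ℝ) ≤ A * Real.log d →
    |∑ S ∈ ((PP K z).powersetCard (k - 1)).filter (fun S => (dg S : ℝ) ≤ θ * d), ∏ P ∈ S, xP P -
      Real.log d ^ (k - 1) / (k - 1).factorial| ≤
      C * (k / Real.log d) * (Real.log d ^ (k - 1) / (k - 1).factorial)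

/-- **S_low** (lower bound for the main term for all `k ≤ A log d`), from `SMer`, `SEs`.
Choose `y₀` with `∑_{PP y \ PP y₀} xP^2 ≤ 1/(16 A^2)` for all `y` (SMer (3)), and `y` the smaller of `z`
and `⌊θ d / (32 A)⌋`, `I = PP y \ PP y₀`, `T = ∑_I xP ≥ L - C` with `C` depending on `A, θ, y₀`
(SMer (2)), `T ≥ L/2` for large `d`, `T ≤ L + C`.  `j = k - 1`: `j! e_j(I) ≥ T^j - j^2 (1/(16 A^2)) T^(j-2) ≥ (3/4) T^j`
(`j ≤ A L ≤ 2 A T`).  The sets `S ⊆ I` with `dg S > θ d` contribute at most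
`(1/(θ d)) (2 y) e_{j-1}(I) ≤ (2 y/(θ d)) T^(j-1)/(j-1)! = (2 y/(θ d)) (j/T) T^j/j! ≤ (1/8) T^j/j!`.
So the sum is at least `(1/2) T^j/j! ≥ (1/2) (L - C)^j/j! ≥ (1/2) e^(-2 C A) L^j/j!` (`1 - x ≥ e^(-2x)` for
`0 ≤ x ≤ 1/2`).  `I ⊆ PP K z`, so these `S` are among the sets of the statement. -/
def SLow : Prop := ∀ (K : Type) [Field K] [Fintype K] (A θ : ℝ), 1 ≤ A → 0 < θ →
  ∃ c : ℝ, 0 < c ∧ ∃ d₀ : ℕ, ∀ d z k : ℕ, d₀ ≤ d → 1 ≤ k → 16 * z ≤ d → d < 16 * (z + 1) →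
    (k : ℝ) ≤ A * Real.log d →
    c * (Real.log d ^ (k - 1) / (k - 1).factorial) ≤
      ∑ S ∈ ((PP K z).powersetCard (k - 1)).filter (fun S => (dg S : ℝ) ≤ θ * d), ∏ P ∈ S, xP P

/-- **The theorem.** -/
def SFinal : Prop := ∀ (K : Type) [Field K] [Fintype K] [CharP K 2],
  (∀ ε : ℝ, 0 < ε → ∃ δ : ℝ, 0 < δ ∧ ∃ d₀ : ℕ, ∀ d k : ℕ, d₀ ≤ d → 1 ≤ k →
    (k : ℝ) ≤ δ * Real.log d → |(NK K d k : ℝ) - EK K d k| ≤ ε * EK K d k) ∧
  (∀ A : ℝ, ∃ c C : ℝ, 0 < c ∧ 0 < C ∧ ∃ d₀ : ℕ, ∀ d k : ℕ, d₀ ≤ d → 1 ≤ k →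
    (k : ℝ) ≤ A * Real.log d → c * EK K d k ≤ NK K d k ∧ (NK K d k : ℝ) ≤ C * EK K d k)

end

end Pool.Agent.H290.PK
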