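import Pool.Agent.H290.PK.Stm

/-!
# The upper bound sieve for `a ^ 2 + X`
-/

set_option linter.unusedSectionVars false

namespace Pool.Agent.H290.PK.PUp

open Polynomial Finset
open scoped Classical
open Pool.Agent.H290.CT (V M mem_V mem_M)

noncomputable section

variable {K : Type} [Field K] [Fintype K]

lemma one_lt_q : (1 : ℝ) < (Fintype.card K : ℝ) := by
  exact_mod_cast Fintype.one_lt_card

lemma deg_pos {P : K[X]} (h : Irreducible P) : 0 < P.natDegree := by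
  rw [natDegree_pos_iff_degree_pos]
  exact degree_pos_of_irreducible h

lemma w_pos {P : K[X]} (h : Irreducible P) : 0 < 1 - 1 / (Fintype.card K : ℝ) ^ P.natDegree := by
  have h1 : (1 : ℝ) < (Fintype.card K : ℝ) ^ P.natDegree :=
    one_lt_pow₀ one_lt_q (deg_pos h).ne'
  have h2 : 1 / (Fintype.card K : ℝ) ^ P.natDegree < 1 := by
    rw [div_lt_one (by linarith)]
    exact h1
  linarith

lemma xP_mul {P : K[X]} (h : Irreducible P) :
    xP P * (1 - 1 / (Fintype.card K : ℝ) ^ P.natDegree) =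
      1 / (Fintype.card K : ℝ) ^ P.natDegree := by
  have h1 : (1 : ℝ) < (Fintype.card K : ℝ) ^ P.natDegree :=
    one_lt_pow₀ one_lt_q (deg_pos h).ne'
  unfold xP
  have h2 : (Fintype.card K : ℝ) ^ P.natDegree - 1 ≠ 0 := by linarith
  have h3 : (Fintype.card K : ℝ) ^ P.natDegree ≠ 0 := by linarith
  field_simp

lemma xP_nonneg (P : K[X]) : 0 ≤ xP P := by
  unfold xP
  have h1 : (1 : ℝ) ≤ (Fintype.card K : ℝ) ^ P.natDegree := one_le_pow₀ one_lt_q.le
  have h2 : 0 ≤ (Fintype.card K : ℝ) ^ P.natDegree - 1 := by linarith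
  positivity

lemma prod_id {S : Finset K[X]} (hS : MI S) {d : ℕ} (hd : dg S ≤ d) :
    ((Fintype.card K : ℝ) ^ d * ∏ P ∈ S, xP P) *
      ∏ P ∈ S, (1 - 1 / (Fintype.card K : ℝ) ^ P.natDegree) =
      (Fintype.card K : ℝ) ^ (d - dg S) := by
  have hq : (0 : ℝ) < (Fintype.card K : ℝ) := by
    have := one_lt_q (K := K)
    linarith
  rw [mul_assoc, ← Finset.prod_mul_distrib,
    Finset.prod_congr rfl fun P hP => xP_mul (hS P hP).2]
  have h1 : ∏ P ∈ S, 1 / (Fintype.card K : ℝ) ^ P.natDegree =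
      1 / (Fintype.card K : ℝ) ^ dg S := by
    rw [Finset.prod_div_distrib, Finset.prod_const_one, Finset.prod_pow_eq_pow_sum]
    rfl
  rw [h1]
  have h2 : (Fintype.card K : ℝ) ^ d =
      (Fintype.card K : ℝ) ^ (d - dg S) * (Fintype.card K : ℝ) ^ dg S := by
    rw [← pow_add, Nat.sub_add_cancel hd]
  rw [h2]
  have h3 : (Fintype.card K : ℝ) ^ dg S ≠ 0 := by positivity
  field_simp

lemma monic_prod {S : Finset K[X]} (hS : MI S) : (∏ P ∈ S, P).Monic :=
  monic_prod_of_monic S id fun P hP => (hS P hP).1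

lemma natDegree_prod {S : Finset K[X]} (hS : MI S) : (∏ P ∈ S, P).natDegree = dg S :=
  natDegree_prod_of_monic S id fun P hP => (hS P hP).1

lemma coprime_of_ne {P Q : K[X]} (hP : P.Monic ∧ Irreducible P) (hQ : Q.Monic ∧ Irreducible Q)
    (h : P ≠ Q) : IsCoprime P Q := by
  rw [hP.2.coprime_iff_not_dvd]
  intro hdvd
  exact h (eq_of_monic_of_associated hP.1 hQ.1 (hP.2.associated_of_dvd hQ.2 hdvd))

lemma prod_dvd {S : Finset K[X]} (hS : MI S) {f : K[X]} (h : ∀ P ∈ S, P ∣ f) :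
    ∏ P ∈ S, P ∣ f := by
  refine Finset.prod_dvd_of_coprime (fun P hP Q hQ hPQ => ?_) h
  exact coprime_of_ne (hS P hP) (hS Q hQ) hPQ

lemma coprime_prod {S : Finset K[X]} (hS : MI S) {P : K[X]} (hP : P.Monic ∧ Irreducible P)
    (h : P ∉ S) : IsCoprime P (∏ Q ∈ S, Q) := by
  refine IsCoprime.prod_right fun Q hQ => coprime_of_ne hP (hS Q hQ) ?_
  rintro rfl
  exact h hQ

theorem main (h1 : SBas) (h2 : SSel) (h3 : SSel2) : SUp := by
  intro K _ _ _ d z S hd hS hz hdeg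
  obtain ⟨A, hA⟩ : ∃ A : Finset K[X], A = (M K d).filter (fun a => S ⊆ pf (a ^ 2 + X) ∧
    ∀ P ∈ pf (a ^ 2 + X), P ∈ S ∨ z ≤ P.natDegree) := ⟨_, rfl⟩
  rw [← hA]
  have hxS : 0 ≤ ∏ P ∈ S, xP P := Finset.prod_nonneg fun P _ => xP_nonneg P
  rcases A.eq_empty_or_nonempty with h0 | ⟨a₀, ha₀⟩
  · rw [h0, Finset.card_empty, Nat.cast_zero, zero_mul]
    exact mul_nonneg (by positivity) hxS
  obtain ⟨hbas, hroot⟩ := h1 K
  have hmem : ∀ a ∈ A, a ∈ M K d ∧ S ⊆ pf (a ^ 2 + X) ∧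
      ∀ P ∈ pf (a ^ 2 + X), P ∈ S ∨ z ≤ P.natDegree := by
    intro a ha
    rw [hA] at ha
    exact Finset.mem_filter.1 ha
  obtain ⟨D, hD⟩ : ∃ D : K[X], D = ∏ P ∈ S, P := ⟨_, rfl⟩
  have hDm : D.Monic := by rw [hD]; exact monic_prod hS
  have hDd : D.natDegree = dg S := by rw [hD]; exact natDegree_prod hS
  have hdS : dg S ≤ d := by omega
  -- the members of `A` are congruent modulo `D`
  have hcong : ∀ a ∈ A, D ∣ a - a₀ := by
    intro a ha
    rw [hD]
    refine prod_dvd hS fun P hP => ?_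
    obtain ⟨r, hr⟩ := hroot P (hS P hP).1 (hS P hP).2
    have e1 : P ∣ a - r := by
      rw [← hr, ← (hbas d a (hmem a ha).1 hd).2.2.2.2.2.2.2 P (hS P hP).1 (hS P hP).2]
      exact (hmem a ha).2.1 hP
    have e2 : P ∣ a₀ - r := by
      rw [← hr, ← (hbas d a₀ (hmem a₀ ha₀).1 hd).2.2.2.2.2.2.2 P (hS P hP).1 (hS P hP).2]
      exact (hmem a₀ ha₀).2.1 hP
    have e3 : a - a₀ = (a - r) - (a₀ - r) := by ring
    rw [e3]
    exact dvd_sub e1 e2
  have hdiv : ∀ a ∈ A, a = a₀ + D * ((a - a₀) /ₘ D) := by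
    intro a ha
    have e1 : (a - a₀) %ₘ D = 0 := (modByMonic_eq_zero_iff_dvd hDm).2 (hcong a ha)
    have e2 := modByMonic_add_div (a - a₀) D
    rw [e1, zero_add] at e2
    rw [e2]
    ring
  have hV : ∀ a ∈ A, (a - a₀) /ₘ D ∈ V K (d - dg S) := by
    intro a ha
    rw [mem_V]
    obtain ⟨m1, n1⟩ := mem_M.1 (hmem a ha).1
    obtain ⟨m2, n2⟩ := mem_M.1 (hmem a₀ ha₀).1
    have e1 : (a - a₀).degree < d := by
      have e2 : a.degree = d := by rw [degree_eq_natDegree m1.ne_zero, n1]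
      have e3 : a₀.degree = d := by rw [degree_eq_natDegree m2.ne_zero, n2]
      rw [← e2]
      refine degree_sub_lt_left (by rw [e2, e3]) m1.ne_zero ?_
      rw [m1.leadingCoeff, m2.leadingCoeff]
    by_cases hs : (a - a₀) /ₘ D = 0
    · rw [hs, degree_zero]
      exact WithBot.bot_lt_coe _
    · have e4 : a - a₀ = D * ((a - a₀) /ₘ D) := by
        have := hdiv a ha
        linear_combination this
      have e5 : (D * ((a - a₀) /ₘ D)).degree < d := by
        rw [← e4]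
        exact e1
      rw [degree_eq_natDegree (mul_ne_zero hDm.ne_zero hs), hDm.natDegree_mul' hs, hDd] at e5
      rw [degree_eq_natDegree hs]
      have e6 : dg S + ((a - a₀) /ₘ D).natDegree < d := by exact_mod_cast e5
      exact_mod_cast (by omega : ((a - a₀) /ₘ D).natDegree < d - dg S)
  -- the classes
  have hc : ∀ P : K[X], ∃ c : K[X], P.Monic → Irreducible P → P ∉ S →
      ∀ s : K[X], P ∣ s - c → P ∣ (a₀ + D * s) ^ 2 + X := by
    intro P
    by_cases hP : P.Monic ∧ Irreducible P ∧ P ∉ S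
    · obtain ⟨p1, p2, p3⟩ := hP
      obtain ⟨r, hr⟩ := hroot P p1 p2
      obtain ⟨v, u, huv⟩ := coprime_prod hS ⟨p1, p2⟩ p3
      rw [← hD] at huv
      refine ⟨u * (r - a₀), fun _ _ _ s hs => ?_⟩
      rw [hr]
      have e1 : a₀ + D * s - r = D * (s - u * (r - a₀)) + P * (-(v * (r - a₀))) := by
        linear_combination (r - a₀) * huv
      rw [e1]
      exact dvd_add (hs.mul_left D) (dvd_mul_right P _)
    · refine ⟨0, fun q1 q2 q3 => ?_⟩
      exact absurd ⟨q1, q2, q3⟩ hP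
  choose c hc using hc
  have hcard : A.card ≤ ((V K (d - dg S)).filter
      (fun s => ∀ P ∈ PP K z \ S, ¬ P ∣ s - c P)).card := by
    refine Finset.card_le_card_of_injOn (fun a => (a - a₀) /ₘ D) (fun a ha => ?_) ?_
    · have ha' : a ∈ A := ha
      change (a - a₀) /ₘ D ∈ (((V K (d - dg S)).filter
        (fun s => ∀ P ∈ PP K z \ S, ¬ P ∣ s - c P) : Finset K[X]) : Set K[X])
      rw [Finset.mem_coe, Finset.mem_filter]
      refine ⟨hV a ha', fun P hP hdvd => ?_⟩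
      rw [Finset.mem_sdiff] at hP
      obtain ⟨hP1, hP2⟩ := hP
      unfold PP at hP1
      rw [Finset.mem_biUnion] at hP1
      obtain ⟨n, hn, hP3⟩ := hP1
      unfold irr at hP3
      rw [Finset.mem_filter, mem_M] at hP3
      obtain ⟨⟨hPm, hPd⟩, hPi⟩ := hP3
      have e1 := hc P hPm hPi hP2 _ hdvd
      rw [← hdiv a ha'] at e1
      have e2 := ((hbas d a (hmem a ha').1 hd).2.2.2.2.2.2.2 P hPm hPi).2 e1
      rcases (hmem a ha').2.2 P e2 with h | h
      · exact hP2 h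
      · rw [Finset.mem_range] at hn
        omega
    · intro a ha b hb hab
      have ha' : a ∈ A := ha
      have hb' : b ∈ A := hb
      change (a - a₀) /ₘ D = (b - a₀) /ₘ D at hab
      rw [hdiv a ha', hdiv b hb', hab]
  have hsel := h2 K (d - dg S) z S c hz (by omega)
  have hsel2 := h3 K z S hS hz
  obtain ⟨w, hw⟩ : ∃ w : ℝ, w = ∏ P ∈ S, (1 - 1 / (Fintype.card K : ℝ) ^ P.natDegree) :=
    ⟨_, rfl⟩
  have hw0 : 0 < w := by
    rw [hw]
    exact Finset.prod_pos fun P hP => w_pos (hS P hP).2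
  have hid := prod_id hS hdS
  rw [← hw] at hid hsel2
  have hcard' : (A.card : ℝ) ≤ (((V K (d - dg S)).filter
      (fun s => ∀ P ∈ PP K z \ S, ¬ P ∣ s - c P)).card : ℝ) := by exact_mod_cast hcard
  have hfin : ((A.card : ℝ) * z) * w ≤ ((Fintype.card K : ℝ) ^ d * ∏ P ∈ S, xP P) * w := by
    rw [hid]
    refine le_trans ?_ hsel
    rw [mul_assoc]
    exact mul_le_mul hcard' hsel2 (mul_nonneg (Nat.cast_nonneg z) hw0.le) (Nat.cast_nonneg _)
  exact le_of_mul_le_mul_right hfin hw0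

end

end Pool.Agent.H290.PK.PUp
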