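import Pool.Agent.H290.PK.Stm

set_option autoImplicit false

namespace Pool.Agent.H290.PK.PBas

open Polynomial Finset
open scoped Classical
open Pool.Agent.H290.CT (V M)

variable {K : Type} [Field K] [Fintype K]

lemma monic_of_mem {f P : K[X]} (hP : P ∈ pf f) : P.Monic ∧ Irreducible P := by
  unfold pf at hP
  rw [Multiset.mem_toFinset] at hP
  have h1 := UniqueFactorizationMonoid.irreducible_of_normalized_factor P hP
  have h2 := UniqueFactorizationMonoid.normalize_normalized_factor P hP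
  refine ⟨?_, h1⟩
  rw [← h2]
  exact monic_normalize h1.ne_zero

lemma part1 [CharP K 2] (d : ℕ) (a : K[X]) (ha : a ∈ M K d) (hd : 1 ≤ d) :
    Squarefree (a ^ 2 + X) ∧ (a ^ 2 + X).Monic ∧
    (a ^ 2 + X).natDegree = 2 * d ∧ ∏ P ∈ pf (a ^ 2 + X), P = a ^ 2 + X ∧
    dg (pf (a ^ 2 + X)) = 2 * d ∧ MI (pf (a ^ 2 + X)) ∧
    (UniqueFactorizationMonoid.normalizedFactors (a ^ 2 + X)).card = (pf (a ^ 2 + X)).card ∧
    ∀ P : K[X], P.Monic → Irreducible P → (P ∈ pf (a ^ 2 + X) ↔ P ∣ a ^ 2 + X) := by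
  obtain ⟨hm, hdeg⟩ := CT.mem_M.1 ha
  have hm2 : (a ^ 2).Monic := hm.pow 2
  have hdeg2 : (a ^ 2).natDegree = 2 * d := by rw [hm.natDegree_pow, hdeg]
  have hlt : (X : K[X]).natDegree < (a ^ 2).natDegree := by
    rw [hdeg2, natDegree_X]; omega
  have hmon : (a ^ 2 + X).Monic := by
    refine hm2.add_of_left ?_
    exact degree_lt_degree hlt
  have hnd : (a ^ 2 + X).natDegree = 2 * d := by
    rw [natDegree_add_eq_left_of_natDegree_lt hlt, hdeg2]
  have hder : derivative (a ^ 2 + X) = 1 := by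
    rw [derivative_add, derivative_X, derivative_sq]
    have h3 : C (2 : K) = 0 := by
      rw [show (2 : K) = 0 from CharP.cast_eq_zero K 2, C_0]
    simp only [h3, zero_mul, zero_add]
  have hsq : Squarefree (a ^ 2 + X) := by
    apply Separable.squarefree
    rw [Separable, hder]
    exact isCoprime_one_right
  have hnod : (UniqueFactorizationMonoid.normalizedFactors (a ^ 2 + X)).Nodup :=
    (UniqueFactorizationMonoid.squarefree_iff_nodup_normalizedFactors hmon.ne_zero).1 hsq
  have hprod : ∏ P ∈ pf (a ^ 2 + X), P = a ^ 2 + X := by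
    have h3 : (UniqueFactorizationMonoid.normalizedFactors (a ^ 2 + X)).prod = a ^ 2 + X := by
      rw [UniqueFactorizationMonoid.prod_normalizedFactors_eq hmon.ne_zero, hmon.normalize_eq_self]
    rw [← h3]
    unfold pf
    rw [h3, Finset.prod_eq_multiset_prod, Multiset.toFinset_val, Multiset.dedup_eq_self.2 hnod,
      Multiset.map_id']
    exact h3
  have hMI : MI (pf (a ^ 2 + X)) := fun P hP => monic_of_mem hP
  refine ⟨hsq, hmon, hnd, hprod, ?_, hMI, ?_, ?_⟩
  · unfold dg
    rw [← natDegree_prod_of_monic _ _ (fun P hP => (hMI P hP).1), hprod, hnd]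
  · unfold pf
    rw [Multiset.toFinset_card_of_nodup hnod]
  · intro P hP1 hP2
    unfold pf
    rw [Multiset.mem_toFinset, UniqueFactorizationMonoid.mem_normalizedFactors_iff' hmon.ne_zero]
    exact ⟨fun h => h.2.2, fun h => ⟨hP2, hP1.normalize_eq_self, h⟩⟩

lemma part2 [CharP K 2] (P : K[X]) (hP : Irreducible P) :
    ∃ r : K[X], ∀ a : K[X], P ∣ a ^ 2 + X ↔ P ∣ a - r := by
  have hf := Fact.mk hP
  have hfin0 : Module.Finite K (AdjoinRoot P) := (AdjoinRoot.powerBasis hP.ne_zero).finite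
  have hfin : Finite (AdjoinRoot P) := Module.finite_of_finite K
  have hchar : CharP (AdjoinRoot P) 2 :=
    charP_of_injective_algebraMap (algebraMap K (AdjoinRoot P)).injective 2
  have hinj : Function.Injective (fun x : AdjoinRoot P => x ^ 2) := by
    intro x y h
    rcases sq_eq_sq_iff_eq_or_eq_neg.1 h with h | h
    · exact h
    · rw [h, CharTwo.neg_eq]
  have hsurj : Function.Surjective (fun x : AdjoinRoot P => x ^ 2) :=
    Finite.injective_iff_surjective.1 hinj
  obtain ⟨r0, hr0⟩ := hsurj (AdjoinRoot.mk P X)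
  obtain ⟨r, rfl⟩ := AdjoinRoot.mk_surjective r0
  refine ⟨r, fun a => ?_⟩
  have hr : (AdjoinRoot.mk P r) ^ 2 = AdjoinRoot.mk P X := hr0
  rw [← AdjoinRoot.mk_eq_zero, ← AdjoinRoot.mk_eq_zero, map_add, map_pow, map_sub, ← hr, sub_eq_zero]
  constructor
  · intro h
    apply hinj
    show (AdjoinRoot.mk P a) ^ 2 = (AdjoinRoot.mk P r) ^ 2
    have h1 := eq_neg_of_add_eq_zero_left h
    rw [h1, CharTwo.neg_eq]
  · intro h
    rw [h, CharTwo.add_self_eq_zero]

theorem main : Pool.Agent.H290.PK.SBas := by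
  intro K _ _ _
  exact ⟨fun d a ha hd => part1 d a ha hd, fun P _ hP => part2 P hP⟩

end Pool.Agent.H290.PK.PBas
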