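import Pool.Agent.H290.PK.Stm

/-!
# S_dec: the decomposition (by helper23)
-/

namespace Pool.Agent.H290.PK.PDec

open Polynomial Finset
open scoped Classical
open Pool.Agent.H290.CT (V M)
open Pool.Agent.H290.PK

noncomputable section

variable {K : Type} [Field K] [Fintype K]

lemma mem_PP {z : ℕ} {P : K[X]} :
    P ∈ PP K z ↔ P.Monic ∧ Irreducible P ∧ P.natDegree < z := by
  unfold PP irr
  simp only [mem_biUnion, mem_range, mem_filter, Pool.Agent.H290.CT.mem_M]
  constructor
  · rintro ⟨n, hn, ⟨h1, h2⟩, h3⟩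
    exact ⟨h1, h3, by omega⟩
  · rintro ⟨h1, h2, h3⟩
    exact ⟨_, h3, ⟨h1, rfl⟩, h2⟩

/-- The factors of degree less than `z`. -/
def sm (z : ℕ) (a : K[X]) : Finset K[X] :=
  (pf (a ^ 2 + X)).filter (fun P => P.natDegree < z)

lemma xP_nonneg (P : K[X]) : 0 ≤ xP P := by
  unfold xP
  apply div_nonneg zero_le_one
  have h : (1 : ℝ) ≤ Fintype.card K := by exact_mod_cast Fintype.card_pos
  linarith [one_le_pow₀ h (n := P.natDegree)]

lemma prod_nonneg' (S : Finset K[X]) : 0 ≤ ∏ P ∈ S, xP P :=
  Finset.prod_nonneg fun P _ => xP_nonneg P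

variable [CharP K 2]

/-- One fibre. -/
lemma fibre (h2 : SUp) {d z : ℕ} (hd : 1 ≤ d) (hz : 1 ≤ z) (hzd : 16 * z ≤ d) (S : Finset K[X])
    (hS : MI S) (hdg : 2 * dg S ≤ d) :
    (((M K d).filter (fun a => sm z a = S)).card : ℝ) ≤
      (Fintype.card K : ℝ) ^ d / z * ∏ P ∈ S, xP P := by
  have h := h2 K d z S hd hS hz (by omega)
  have hz0 : (0 : ℝ) < z := by exact_mod_cast hz
  rw [div_mul_eq_mul_div, le_div_iff₀ hz0]
  refine le_trans (mul_le_mul_of_nonneg_right ?_ hz0.le) h
  have : ((M K d).filter (fun a => sm z a = S)) ⊆ ((M K d).filter (fun a =>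
      S ⊆ pf (a ^ 2 + X) ∧ ∀ P ∈ pf (a ^ 2 + X), P ∈ S ∨ z ≤ P.natDegree)) := by
    intro a ha
    rw [mem_filter] at ha ⊢
    refine ⟨ha.1, ?_, ?_⟩
    · rw [← ha.2]; exact filter_subset _ _
    · intro P hP
      by_cases h : P.natDegree < z
      · left
        rw [← ha.2]
        exact mem_filter.2 ⟨hP, h⟩
      · right; omega
  exact_mod_cast card_le_card this

/-- A family of fibres. -/
lemma family (h2 : SUp) {d z : ℕ} (hd : 1 ≤ d) (hz : 1 ≤ z) (hzd : 16 * z ≤ d)
    (Fam : Finset (Finset K[X])) (hF : ∀ S ∈ Fam, S ⊆ PP K z) :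
    (((M K d).filter (fun a => sm z a ∈ Fam ∧ 2 * dg (sm z a) ≤ d)).card : ℝ) ≤
      (Fintype.card K : ℝ) ^ d / z * ∑ S ∈ Fam, ∏ P ∈ S, xP P := by
  have h := Finset.card_eq_sum_card_fiberwise (f := sm z)
    (s := (M K d).filter (fun a => sm z a ∈ Fam ∧ 2 * dg (sm z a) ≤ d)) (t := Fam)
    (by intro a ha; exact (mem_filter.1 ha).2.1)
  rw [h, Nat.cast_sum, Finset.mul_sum]
  refine Finset.sum_le_sum fun S hS => ?_
  by_cases hdg : 2 * dg S ≤ d
  · refine le_trans ?_ (fibre h2 hd hz hzd S (fun P hP => ?_) hdg)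
    · have : ((M K d).filter (fun a => sm z a ∈ Fam ∧ 2 * dg (sm z a) ≤ d)).filter
          (fun a => sm z a = S) ⊆ (M K d).filter (fun a => sm z a = S) := by
        intro a ha
        rw [mem_filter, mem_filter] at ha
        exact mem_filter.2 ⟨ha.1.1, ha.2⟩
      exact_mod_cast card_le_card this
    · have := mem_PP.1 (hF S hS hP)
      exact ⟨this.1, this.2.1⟩
  · have : ((M K d).filter (fun a => sm z a ∈ Fam ∧ 2 * dg (sm z a) ≤ d)).filter
          (fun a => sm z a = S) = ∅ := by
      rw [filter_eq_empty_iff]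
      intro a ha h
      rw [mem_filter, h] at ha
      exact hdg ha.2.2
    rw [this, card_empty, Nat.cast_zero]
    have h3 := prod_nonneg' S
    positivity

theorem main (h1 : SBas) (h2 : SUp) : SDec := by
  intro K _ _ _ d z k θ hk hz hzd hdz hθ hθ2
  have hd : 1 ≤ d := by omega
  have hz0 : (0 : ℝ) < z := by exact_mod_cast hz
  obtain ⟨hB, -⟩ := h1 K
  -- facts on the small factors
  have hsub : ∀ a ∈ M K d, sm z a ⊆ PP K z := by
    intro a ha P hP
    obtain ⟨-, -, -, -, -, hMI, -, -⟩ := hB d a ha hd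
    unfold sm at hP
    rw [mem_filter] at hP
    obtain ⟨h3, h4⟩ := hMI P hP.1
    exact mem_PP.2 ⟨h3, h4, hP.2⟩
  have hdgF : ∀ a ∈ M K d, dg (pf (a ^ 2 + X)) = 2 * d := fun a ha => (hB d a ha hd).2.2.2.2.1
  have hsplit : ∀ a : K[X], dg (pf (a ^ 2 + X)) = dg (sm z a) +
      dg ((pf (a ^ 2 + X)).filter (fun P => ¬ P.natDegree < z)) := by
    intro a
    unfold dg sm
    rw [Finset.sum_filter_add_sum_filter_not]
  set Fam := ((PP K z).powersetCard (k - 1)).filter (fun S => (dg S : ℝ) ≤ θ * d) with hFam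
  -- the main term
  have hmain : ∑ S ∈ Fam, NS K d S =
      ((M K d).filter (fun a => (pf (a ^ 2 + X)).card = k ∧ sm z a ∈ Fam)).card := by
    have h := Finset.card_eq_sum_card_fiberwise (f := sm z)
      (s := (M K d).filter (fun a => (pf (a ^ 2 + X)).card = k ∧ sm z a ∈ Fam)) (t := Fam)
      (by intro a ha; exact (mem_filter.1 ha).2.2)
    rw [h]
    refine Finset.sum_congr rfl fun S hS => ?_
    unfold NS
    congr 1
    ext a
    simp only [mem_filter]
    have hS' := hS
    rw [hFam, mem_filter, mem_powersetCard] at hS'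
    obtain ⟨⟨hS1, hS2⟩, hS3⟩ := hS'
    constructor
    · rintro ⟨ha, h3, h4⟩
      have hF := hdgF a ha
      have hcard : (pf (a ^ 2 + X) \ S).card = 1 := by
        rw [card_sdiff_of_subset h3, h4]; omega
      obtain ⟨Q, hQ⟩ := card_eq_one.1 hcard
      have hQd : Q.natDegree + dg S = 2 * d := by
        rw [← hF]
        unfold dg
        rw [← Finset.sum_sdiff h3, hQ, sum_singleton]
      have hdS : 2 * dg S ≤ d := by
        have h5 : (dg S : ℝ) ≤ 1 / 2 * d :=
          hS3.trans (mul_le_mul_of_nonneg_right hθ2 (Nat.cast_nonneg d))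
        have h6 : (2 * dg S : ℝ) ≤ d := by linarith
        exact_mod_cast h6
      have hsm : sm z a = S := by
        ext P
        unfold sm
        rw [mem_filter]
        constructor
        · rintro ⟨hP1, hP2⟩
          by_contra hPS
          have : P ∈ pf (a ^ 2 + X) \ S := mem_sdiff.2 ⟨hP1, hPS⟩
          rw [hQ, mem_singleton] at this
          subst this
          omega
        · intro hP
          exact ⟨h3 hP, (mem_PP.1 (hS1 hP)).2.2⟩
      exact ⟨⟨ha, by omega, by rw [hsm]; exact hS⟩, hsm⟩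
    · rintro ⟨⟨ha, h3, h4⟩, h5⟩
      refine ⟨ha, ?_, by omega⟩
      rw [← h5]; exact filter_subset _ _
  refine ⟨?_, ?_⟩
  · rw [← Nat.cast_sum, hmain]
    unfold NK
    have : (M K d).filter (fun a => (pf (a ^ 2 + X)).card = k ∧ sm z a ∈ Fam) ⊆
        (M K d).filter (fun a => (pf (a ^ 2 + X)).card = k) := by
      intro a ha
      rw [mem_filter] at ha
      exact mem_filter.2 ⟨ha.1, ha.2.1⟩
    exact_mod_cast card_le_card this
  · rw [← Nat.cast_sum, hmain]
    set Fam1 := ((PP K z).powersetCard (k - 1)).filter (fun S => θ * d < (dg S : ℝ)) with hFam1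
    have hB1 := family (K := K) h2 hd hz hzd Fam1 (by
      intro S hS
      rw [hFam1, mem_filter, mem_powersetCard] at hS
      exact hS.1.1)
    have hB2 : ∀ r ∈ Ico 2 65, (((M K d).filter (fun a => r ≤ k ∧
        sm z a ∈ (PP K z).powersetCard (k - r) ∧ 2 * dg (sm z a) ≤ d)).card : ℝ) ≤
        (Fintype.card K : ℝ) ^ d / z * (if r ≤ k then es (PP K z) xP (k - r) else 0) := by
      intro r _
      by_cases hr : r ≤ k
      · rw [if_pos hr]
        have h3 := family (K := K) h2 hd hz hzd ((PP K z).powersetCard (k - r)) (by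
          intro S hS
          exact (mem_powersetCard.1 hS).1)
        refine le_trans ?_ h3
        have : (M K d).filter (fun a => r ≤ k ∧
            sm z a ∈ (PP K z).powersetCard (k - r) ∧ 2 * dg (sm z a) ≤ d) ⊆
            (M K d).filter (fun a => sm z a ∈ (PP K z).powersetCard (k - r) ∧
              2 * dg (sm z a) ≤ d) := by
          intro a ha
          rw [mem_filter] at ha
          exact mem_filter.2 ⟨ha.1, ha.2.2⟩
        exact_mod_cast card_le_card this
      · rw [if_neg hr, mul_zero]
        have : (M K d).filter (fun a => r ≤ k ∧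
            sm z a ∈ (PP K z).powersetCard (k - r) ∧ 2 * dg (sm z a) ≤ d) = ∅ := by
          rw [filter_eq_empty_iff]
          intro a _ h
          exact hr h.1
        rw [this]; simp
    have hcover : (M K d).filter (fun a => (pf (a ^ 2 + X)).card = k) ⊆
        ((M K d).filter (fun a => (pf (a ^ 2 + X)).card = k ∧ sm z a ∈ Fam) ∪
          (M K d).filter (fun a => sm z a ∈ Fam1 ∧ 2 * dg (sm z a) ≤ d)) ∪
        ((Ico 2 65).biUnion (fun r => (M K d).filter (fun a => r ≤ k ∧
            sm z a ∈ (PP K z).powersetCard (k - r) ∧ 2 * dg (sm z a) ≤ d)) ∪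
          (M K d).filter (fun a => (pf (a ^ 2 + X)).card = k ∧
            d < 2 * dg ((pf (a ^ 2 + X)).filter (fun P => P.natDegree < z)))) := by
      intro a ha
      rw [mem_filter] at ha
      obtain ⟨ha, hak⟩ := ha
      rw [mem_union, mem_union, mem_union, mem_biUnion]
      by_cases hd3 : d < 2 * dg (sm z a)
      · right; right
        exact mem_filter.2 ⟨ha, hak, hd3⟩
      · have hd4 : 2 * dg (sm z a) ≤ d := by omega
        have hcc : (sm z a).card +
            ((pf (a ^ 2 + X)).filter (fun P => ¬ P.natDegree < z)).card = k := by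
          rw [← hak]
          unfold sm
          exact Finset.card_filter_add_card_filter_not _
        set r := ((pf (a ^ 2 + X)).filter (fun P => ¬ P.natDegree < z)).card with hr
        have hrz : r * z ≤ dg ((pf (a ^ 2 + X)).filter (fun P => ¬ P.natDegree < z)) := by
          unfold dg
          rw [hr, ← smul_eq_mul, ← Finset.sum_const]
          refine Finset.sum_le_sum fun P hP => ?_
          have := (mem_filter.1 hP).2
          omega
        have hsp := hsplit a
        rw [hdgF a ha] at hsp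
        have hr0 : r ≠ 0 := by
          intro h0
          rw [h0] at hr
          have h5 := card_eq_zero.1 hr.symm
          rw [h5] at hsp
          unfold dg at hsp hd4
          rw [sum_empty] at hsp
          omega
        have hr65 : r < 65 := by
          by_contra hc
          have h5 : 65 * z ≤ r * z := Nat.mul_le_mul_right z (by omega)
          omega
        by_cases hr1 : r = 1
        · left
          have hc1 : (sm z a).card = k - 1 := by omega
          by_cases hth : (dg (sm z a) : ℝ) ≤ θ * d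
          · left
            refine mem_filter.2 ⟨ha, hak, ?_⟩
            rw [hFam]
            exact mem_filter.2 ⟨mem_powersetCard.2 ⟨hsub a ha, hc1⟩, hth⟩
          · right
            refine mem_filter.2 ⟨ha, ?_, hd4⟩
            rw [hFam1]
            exact mem_filter.2 ⟨mem_powersetCard.2 ⟨hsub a ha, hc1⟩, not_le.1 hth⟩
        · right; left
          refine ⟨r, mem_Ico.2 ⟨by omega, hr65⟩, mem_filter.2 ⟨ha, by omega, ?_, hd4⟩⟩
          exact mem_powersetCard.2 ⟨hsub a ha, by omega⟩
    have hc := card_le_card hcover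
    have hc2 := (hc.trans (card_union_le _ _)).trans
      (add_le_add (card_union_le _ _) (card_union_le _ _))
    have hc3 := hc2.trans (add_le_add le_rfl (add_le_add card_biUnion_le le_rfl))
    have hc4 : (NK K d k : ℝ) ≤
        ((((M K d).filter (fun a => (pf (a ^ 2 + X)).card = k ∧ sm z a ∈ Fam)).card : ℝ) +
          ((M K d).filter (fun a => sm z a ∈ Fam1 ∧ 2 * dg (sm z a) ≤ d)).card) +
        (∑ r ∈ Ico 2 65, (((M K d).filter (fun a => r ≤ k ∧
            sm z a ∈ (PP K z).powersetCard (k - r) ∧ 2 * dg (sm z a) ≤ d)).card : ℝ) +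
          ((M K d).filter (fun a => (pf (a ^ 2 + X)).card = k ∧
            d < 2 * dg ((pf (a ^ 2 + X)).filter (fun P => P.natDegree < z)))).card) := by
      unfold NK
      exact_mod_cast hc3
    have hB2s := Finset.sum_le_sum hB2
    rw [← Finset.mul_sum] at hB2s
    linarith

end

end Pool.Agent.H290.PK.PDec
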