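import Pool.Agent.H290.PK.Stm

/-!
# The error terms
-/

namespace Pool.Agent.H290.PK.PErr

open Polynomial Finset
open scoped Classical
open Pool.Agent.H290.CT (V M)

/-- the comparison of the terms -/
lemma key (L C₀ A : ℝ) (hL : 0 < L) (hC : 0 ≤ C₀) (hA : 1 ≤ A) (k l : ℕ) (hl : 1 ≤ l)
    (hl64 : l ≤ 64) (hlk : l + 1 ≤ k) (hk : (k : ℝ) ≤ A * L) :
    (L + C₀) ^ (k - 1 - l) / ((k - 1 - l).factorial : ℝ) ≤
      Real.exp (C₀ * A) * A ^ 64 * (k / L) * (L ^ (k - 1) / ((k - 1).factorial : ℝ)) := by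
  obtain ⟨n, hn⟩ : ∃ n, n = k - 1 := ⟨_, rfl⟩
  obtain ⟨j, hj⟩ : ∃ j, j = n - l := ⟨_, rfl⟩
  obtain ⟨i, rfl⟩ : ∃ i, l = i + 1 := ⟨l - 1, by omega⟩
  have hnj : n = j + (i + 1) := by omega
  rw [← hn, ← hj]
  have hkr : (n : ℝ) ≤ k := by exact_mod_cast (by omega : n ≤ k)
  have hA0 : 0 < A := by linarith
  -- factorials
  have h1 : (n.factorial : ℝ) ≤ (j.factorial : ℝ) * (n : ℝ) ^ (i + 1) := by
    have h2 := Nat.factorial_mul_descFactorial (show i + 1 ≤ n by omega)
    have h3 := Nat.descFactorial_le_pow n (i + 1)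
    have h4 : n.factorial ≤ j.factorial * n ^ (i + 1) := by
      rw [← h2, hj]
      exact Nat.mul_le_mul_left _ h3
    exact_mod_cast h4
  have hjf : (0 : ℝ) < j.factorial := by exact_mod_cast j.factorial_pos
  have hnf : (0 : ℝ) < n.factorial := by exact_mod_cast n.factorial_pos
  have h2 : (L + C₀) ^ j / (j.factorial : ℝ) ≤ (L + C₀) ^ j * (n : ℝ) ^ (i + 1) / n.factorial := by
    rw [div_le_div_iff₀ hjf hnf]
    have h3 : 0 ≤ (L + C₀) ^ j := by positivity
    have := mul_le_mul_of_nonneg_left h1 h3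
    linarith
  refine h2.trans ?_
  rw [mul_div_assoc']
  apply div_le_div_of_nonneg_right _ hnf.le
  -- the powers
  have h4 : (L + C₀) ^ j ≤ L ^ j * Real.exp (C₀ * A) := by
    have e1 : L + C₀ = L * (1 + C₀ / L) := by field_simp
    rw [e1, mul_pow]
    apply mul_le_mul_of_nonneg_left _ (by positivity)
    have h5 : 1 + C₀ / L ≤ Real.exp (C₀ / L) := by
      have := Real.add_one_le_exp (C₀ / L)
      linarith
    calc (1 + C₀ / L) ^ j ≤ (Real.exp (C₀ / L)) ^ j := pow_le_pow_left₀ (by positivity) h5 j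
      _ = Real.exp (j * (C₀ / L)) := by rw [← Real.exp_nat_mul]
      _ ≤ Real.exp (C₀ * A) := by
        apply Real.exp_le_exp.2
        have hjk : (j : ℝ) ≤ k := by exact_mod_cast (by omega : j ≤ k)
        have h6 : (j : ℝ) ≤ A * L := hjk.trans hk
        rw [mul_div_assoc', div_le_iff₀ hL]
        nlinarith
  have h5 : (n : ℝ) ^ (i + 1) ≤ k * (A ^ i * L ^ i) := by
    calc (n : ℝ) ^ (i + 1) ≤ (k : ℝ) ^ (i + 1) := pow_le_pow_left₀ (by positivity) hkr _
      _ = k * (k : ℝ) ^ i := by ring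
      _ ≤ k * (A * L) ^ i := mul_le_mul_of_nonneg_left (pow_le_pow_left₀ (by positivity) hk i)
          (by positivity)
      _ = k * (A ^ i * L ^ i) := by rw [mul_pow]
  have h6 : A ^ i ≤ A ^ 64 := pow_le_pow_right₀ hA (by omega)
  calc (L + C₀) ^ j * (n : ℝ) ^ (i + 1) ≤ (L ^ j * Real.exp (C₀ * A)) * (k * (A ^ i * L ^ i)) :=
        mul_le_mul h4 h5 (by positivity) (by positivity)
    _ ≤ (L ^ j * Real.exp (C₀ * A)) * (k * (A ^ 64 * L ^ i)) := by
        apply mul_le_mul_of_nonneg_left _ (by positivity)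
        apply mul_le_mul_of_nonneg_left _ (by positivity)
        exact mul_le_mul_of_nonneg_right h6 (by positivity)
    _ = Real.exp (C₀ * A) * A ^ 64 * (k / L) * L ^ n := by
        rw [hnj, pow_add, pow_succ]
        field_simp
        ring

lemma xP_nonneg {K : Type} [Field K] [Fintype K] (P : K[X]) : 0 ≤ xP P := by
  unfold xP
  have h1 : (1 : ℝ) ≤ Fintype.card K := by exact_mod_cast Fintype.card_pos
  have h2 : (1 : ℝ) ≤ (Fintype.card K : ℝ) ^ P.natDegree := one_le_pow₀ h1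
  apply div_nonneg zero_le_one
  linarith

theorem main (h1 : SMer) (h2 : SEs) : SErr := by
  intro K _ _ A θ hA hθ
  obtain ⟨-, ⟨C₀, hC₀, hmer⟩, -, hdeg, -⟩ := h1 K
  obtain ⟨q, hq⟩ : ∃ q : ℝ, q = Fintype.card K := ⟨_, rfl⟩
  have hq0 : 0 < q := by rw [hq]; exact_mod_cast Fintype.card_pos
  have hA0 : 0 < A := by linarith
  refine ⟨2 * (2 / θ + 2016) * (Real.exp (C₀ * A) * A ^ 64), by positivity, 16, ?_⟩
  intro d z k hd hk hz1 hz2 hkA
  have hz : 1 ≤ z := by omega
  obtain ⟨L, hL⟩ : ∃ L, L = Real.log d := ⟨_, rfl⟩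
  have hdr : (16 : ℝ) ≤ d := by exact_mod_cast hd
  have hd0 : (0 : ℝ) < d := by linarith
  have hzr : (1 : ℝ) ≤ z := by exact_mod_cast hz
  have hz0 : (0 : ℝ) < z := by linarith
  have hzd : (d : ℝ) ≤ 32 * z := by exact_mod_cast (by omega : d ≤ 32 * z)
  have hL0 : 0 < L := by rw [hL]; exact Real.log_pos (by linarith)
  rw [← hL] at hkA
  have hlogz : Real.log z ≤ L := by
    rw [hL]
    apply Real.log_le_log hz0
    exact_mod_cast (by omega : z ≤ d)
  -- the symmetric functions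
  obtain ⟨es1, -, es3⟩ := h2 K[X] (PP K z) xP (fun P => (P.natDegree : ℝ)) xP_nonneg
    (fun P => Nat.cast_nonneg _)
  have hT := (abs_le.1 (hmer z hz).1).2
  have hT0 : 0 ≤ ∑ P ∈ PP K z, xP P := sum_nonneg fun P _ => xP_nonneg P
  have hes : ∀ j : ℕ, es (PP K z) xP j ≤ (L + C₀) ^ j / (j.factorial : ℝ) := by
    intro j
    have hjf : (0 : ℝ) < j.factorial := by exact_mod_cast j.factorial_pos
    rw [le_div_iff₀ hjf, mul_comm]
    exact (es1 j).trans (pow_le_pow_left₀ hT0 (by linarith) j)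
  obtain ⟨G, hG⟩ : ∃ G : ℝ, G = Real.exp (C₀ * A) * A ^ 64 * (k / L) *
      (L ^ (k - 1) / ((k - 1).factorial : ℝ)) := ⟨_, rfl⟩
  have hG0 : 0 ≤ G := by rw [hG]; positivity
  have hesG : ∀ r : ℕ, 2 ≤ r → r ≤ 65 → r ≤ k → es (PP K z) xP (k - r) ≤ G := by
    intro r hr hr65 hrk
    have h3 := key L C₀ A hL0 hC₀ hA k (r - 1) (by omega) (by omega) (by omega) hkA
    rw [← hG, show k - 1 - (r - 1) = k - r by omega] at h3
    exact (hes _).trans h3
  -- the first sum
  have hfirst : ∑ S ∈ ((PP K z).powersetCard (k - 1)).filter (fun S => θ * d < (dg S : ℝ)),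
      ∏ P ∈ S, xP P ≤ 2 * z / (θ * d) * G := by
    have hprod : ∀ S : Finset K[X], 0 ≤ ∏ P ∈ S, xP P := fun S => prod_nonneg fun P _ => xP_nonneg P
    rcases Nat.lt_or_ge k 2 with hk2 | hk2
    · have hk1 : k - 1 = 0 := by omega
      rw [hk1, powersetCard_zero, filter_singleton, if_neg, sum_empty]
      · positivity
      · unfold dg
        rw [sum_empty, Nat.cast_zero, not_lt]
        positivity
    · have hθd : 0 < θ * d := by positivity
      have h3 := es3 (k - 2)
      rw [show k - 2 + 1 = k - 1 by omega] at h3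
      have h4 : ∑ S ∈ ((PP K z).powersetCard (k - 1)).filter (fun S => θ * d < (dg S : ℝ)),
          ∏ P ∈ S, xP P ≤ (θ * d)⁻¹ * ∑ S ∈ (PP K z).powersetCard (k - 1),
            (∑ P ∈ S, (P.natDegree : ℝ)) * ∏ P ∈ S, xP P := by
        rw [mul_sum, sum_filter]
        apply sum_le_sum
        intro S _
        have e1 : (∑ P ∈ S, (P.natDegree : ℝ)) = dg S := by
          unfold dg
          push_cast
          rfl
        rw [e1, ← mul_assoc]
        split_ifs with hS
        · apply le_mul_of_one_le_left (hprod S)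
          rw [← div_eq_inv_mul, one_le_div hθd]
          exact hS.le
        · have := hprod S
          positivity
      refine h4.trans ?_
      have h5 : (∑ P ∈ PP K z, (P.natDegree : ℝ) * xP P) * es (PP K z) xP (k - 2) ≤
          2 * z * G := by
        apply mul_le_mul (hdeg z) (hesG 2 le_rfl (by norm_num) hk2) _ (by positivity)
        unfold es
        exact sum_nonneg fun S _ => hprod S
      calc (θ * d)⁻¹ * ∑ S ∈ (PP K z).powersetCard (k - 1),
            (∑ P ∈ S, (P.natDegree : ℝ)) * ∏ P ∈ S, xP P ≤ (θ * d)⁻¹ * (2 * z * G) :=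
            mul_le_mul_of_nonneg_left (h3.trans h5) (by positivity)
        _ = 2 * z / (θ * d) * G := by field_simp
  -- the second sum
  have hsecond : ∑ r ∈ Ico 2 65, (if r ≤ k then es (PP K z) xP (k - r) else 0) ≤ 63 * G := by
    calc ∑ r ∈ Ico 2 65, (if r ≤ k then es (PP K z) xP (k - r) else 0) ≤ ∑ _r ∈ Ico 2 65, G := by
          apply sum_le_sum
          intro r hr
          rw [mem_Ico] at hr
          split_ifs with hrk
          · exact hesG r hr.1 (by omega) hrk
          · exact hG0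
      _ = 63 * G := by
          rw [sum_const, Nat.card_Ico, nsmul_eq_mul]
          norm_num
  rw [← hq, ← hL]
  have hqz : 0 ≤ q ^ d / z := by positivity
  have hqz2 : q ^ d / z ≤ 32 * (q ^ d / d) := by
    rw [mul_div_assoc', div_le_div_iff₀ hz0 hd0]
    have : 0 < q ^ d := by positivity
    nlinarith
  have e1 : q ^ d / z * (2 * z / (θ * d) * G) = 2 / θ * (q ^ d / d) * G := by
    field_simp
  have e2 : 2 * (2 / θ + 2016) * (Real.exp (C₀ * A) * A ^ 64) * (k / L) * EK K d k =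
      (2 / θ + 2016) * (q ^ d / d) * G := by
    unfold EK
    rw [← hq, ← hL, hG]
    have hkf : ((k - 1).factorial : ℝ) ≠ 0 := by exact_mod_cast (k - 1).factorial_ne_zero
    field_simp
  rw [e2]
  calc q ^ d / z * ∑ S ∈ ((PP K z).powersetCard (k - 1)).filter (fun S => θ * d < (dg S : ℝ)),
        ∏ P ∈ S, xP P +
        q ^ d / z * ∑ r ∈ Ico 2 65, (if r ≤ k then es (PP K z) xP (k - r) else 0)
      ≤ q ^ d / z * (2 * z / (θ * d) * G) + q ^ d / z * (63 * G) :=
        add_le_add (mul_le_mul_of_nonneg_left hfirst hqz) (mul_le_mul_of_nonneg_left hsecond hqz)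
    _ ≤ 2 / θ * (q ^ d / d) * G + 32 * (q ^ d / d) * (63 * G) := by
        rw [e1]
        exact add_le_add le_rfl (mul_le_mul_of_nonneg_right hqz2 (by positivity))
    _ = (2 / θ + 2016) * (q ^ d / d) * G := by ring

end Pool.Agent.H290.PK.PErr
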