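import Pool.Agent.H290.PK.Stm

set_option autoImplicit false

namespace Pool.Agent.H290.PK.PEs

open Polynomial Finset
open scoped Classical

variable {ι : Type}

lemma key (I : Finset ι) (x y : ι → ℝ) (j : ℕ) :
    ∑ S ∈ I.powersetCard (j + 1), (∑ i ∈ S, y i) * ∏ i ∈ S, x i =
      ∑ i ∈ I, y i * x i * es (I.erase i) x j := by
  have h1 : ∀ S ∈ I.powersetCard (j + 1), (∑ i ∈ S, y i) * ∏ i ∈ S, x i =
      ∑ i ∈ S, y i * ∏ i ∈ S, x i := fun S _ => by rw [sum_mul]
  have h2 : ∀ i ∈ I, y i * x i * es (I.erase i) x j =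
      ∑ S ∈ (I.erase i).powersetCard j, y i * x i * ∏ l ∈ S, x l := fun i _ => by
    rw [es, mul_sum]
  rw [sum_congr rfl h1, sum_congr rfl h2, sum_sigma', sum_sigma']
  refine sum_bij' (fun p _ => ⟨p.2, p.1.erase p.2⟩) (fun p _ => ⟨insert p.1 p.2, p.1⟩) ?_ ?_ ?_ ?_ ?_
  · rintro ⟨S, i⟩ h
    simp only [mem_sigma, mem_powersetCard] at h ⊢
    obtain ⟨⟨hS, hc⟩, hi⟩ := h
    refine ⟨hS hi, erase_subset_erase _ hS, ?_⟩
    rw [card_erase_of_mem hi, hc]
    rfl
  · rintro ⟨i, S⟩ h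
    simp only [mem_sigma, mem_powersetCard] at h ⊢
    obtain ⟨hi, hS, hc⟩ := h
    have hiS : i ∉ S := fun h' => (mem_erase.1 (hS h')).1 rfl
    refine ⟨⟨?_, ?_⟩, mem_insert_self _ _⟩
    · exact insert_subset hi (hS.trans (erase_subset _ _))
    · rw [card_insert_of_notMem hiS, hc]
  · rintro ⟨S, i⟩ h
    simp only [mem_sigma, mem_powersetCard] at h
    simp only [insert_erase h.2]
  · rintro ⟨i, S⟩ h
    simp only [mem_sigma, mem_powersetCard] at h
    obtain ⟨hi, hS, hc⟩ := h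
    have hiS : i ∉ S := fun h' => (mem_erase.1 (hS h')).1 rfl
    simp only [erase_insert hiS]
  · rintro ⟨S, i⟩ h
    simp only [mem_sigma, mem_powersetCard] at h
    simp only
    rw [mul_assoc, mul_prod_erase S x h.2]

lemma es_nonneg (I : Finset ι) (x : ι → ℝ) (hx : ∀ i, 0 ≤ x i) (j : ℕ) : 0 ≤ es I x j :=
  sum_nonneg fun _ _ => prod_nonneg fun i _ => hx i

lemma es_erase_le (I : Finset ι) (x : ι → ℝ) (hx : ∀ i, 0 ≤ x i) (j : ℕ) (i : ι) :
    es (I.erase i) x j ≤ es I x j := by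
  refine sum_le_sum_of_subset_of_nonneg (powersetCard_mono (erase_subset _ _)) ?_
  intro S _ _
  exact prod_nonneg fun i _ => hx i

lemma es_split (I : Finset ι) (x : ι → ℝ) (j : ℕ) (i : ι) (hi : i ∈ I) :
    es I x (j + 1) = es (I.erase i) x (j + 1) + x i * es (I.erase i) x j := by
  have hI : insert i (I.erase i) = I := insert_erase hi
  have hn : i ∉ I.erase i := notMem_erase i I
  have h1 : es I x (j + 1) = es (insert i (I.erase i)) x (j + 1) := by rw [hI]
  rw [h1, es, powersetCard_succ_insert hn, sum_union, sum_image]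
  · congr 1
    rw [es, mul_sum]
    refine sum_congr rfl fun S hS => ?_
    have hiS : i ∉ S := fun h' => hn ((mem_powersetCard.1 hS).1 h')
    rw [prod_insert hiS]
  · intro S hS S' hS' h
    have hiS : i ∉ S := fun h' => hn ((mem_powersetCard.1 hS).1 h')
    have hiS' : i ∉ S' := fun h' => hn ((mem_powersetCard.1 hS').1 h')
    rw [← erase_insert hiS, ← erase_insert hiS']
    exact congrArg (fun T => T.erase i) h
  · rw [disjoint_left]
    intro S hS hS'
    obtain ⟨S'', _, rfl⟩ := mem_image.1 hS'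
    exact hn ((mem_powersetCard.1 hS).1 (mem_insert_self i S''))

lemma card_mul_es (I : Finset ι) (x : ι → ℝ) (j : ℕ) :
    ((j : ℝ) + 1) * es I x (j + 1) = ∑ i ∈ I, x i * es (I.erase i) x j := by
  have h := key I x (fun _ => 1) j
  simp only [sum_const, nsmul_eq_mul, mul_one, one_mul] at h
  rw [← h, es, mul_sum]
  refine sum_congr rfl fun S hS => ?_
  rw [(mem_powersetCard.1 hS).2]
  push_cast
  rfl

lemma part3 (I : Finset ι) (x y : ι → ℝ) (hx : ∀ i, 0 ≤ x i) (hy : ∀ i, 0 ≤ y i) (j : ℕ) :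
    ∑ S ∈ I.powersetCard (j + 1), (∑ i ∈ S, y i) * ∏ i ∈ S, x i ≤
      (∑ i ∈ I, y i * x i) * es I x j := by
  rw [key, sum_mul]
  exact sum_le_sum fun i _ => mul_le_mul_of_nonneg_left (es_erase_le I x hx j i)
    (mul_nonneg (hy i) (hx i))

lemma step_up (I : Finset ι) (x : ι → ℝ) (hx : ∀ i, 0 ≤ x i) (j : ℕ) :
    ((j : ℝ) + 1) * es I x (j + 1) ≤ (∑ i ∈ I, x i) * es I x j := by
  rw [card_mul_es, sum_mul]
  exact sum_le_sum fun i _ => mul_le_mul_of_nonneg_left (es_erase_le I x hx j i) (hx i)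

lemma step_low (I : Finset ι) (x : ι → ℝ) (hx : ∀ i, 0 ≤ x i) (j : ℕ) :
    (∑ i ∈ I, x i) * es I x (j + 1) - (∑ i ∈ I, x i ^ 2) * es I x j ≤
      ((j : ℝ) + 2) * es I x (j + 2) := by
  have h := card_mul_es I x (j + 1)
  have e : ((j + 1 : ℕ) : ℝ) + 1 = (j : ℝ) + 2 := by push_cast; ring
  rw [e] at h
  rw [show j + 2 = j + 1 + 1 from rfl, h, sum_mul, sum_mul, ← sum_sub_distrib]
  refine sum_le_sum fun i hi => ?_
  have h1 := es_split I x j i hi
  have h2 := es_erase_le I x hx j i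
  have h3 := mul_le_mul_of_nonneg_left h2 (hx i)
  have h4 : es I x (j + 1) - x i * es I x j ≤ es (I.erase i) x (j + 1) := by linarith
  have h5 := mul_le_mul_of_nonneg_left h4 (hx i)
  nlinarith

lemma es_zero (I : Finset ι) (x : ι → ℝ) : es I x 0 = 1 := by
  simp [es]

lemma part1 (I : Finset ι) (x : ι → ℝ) (hx : ∀ i, 0 ≤ x i) (j : ℕ) :
    (j.factorial : ℝ) * es I x j ≤ (∑ i ∈ I, x i) ^ j := by
  have hT : 0 ≤ ∑ i ∈ I, x i := sum_nonneg fun i _ => hx i
  induction j with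
  | zero => simp [es_zero]
  | succ j ih =>
    have h := step_up I x hx j
    calc ((j + 1).factorial : ℝ) * es I x (j + 1)
        = (j.factorial : ℝ) * (((j : ℝ) + 1) * es I x (j + 1)) := by
          rw [Nat.factorial_succ]; push_cast; ring
      _ ≤ (j.factorial : ℝ) * ((∑ i ∈ I, x i) * es I x j) :=
          mul_le_mul_of_nonneg_left h (Nat.cast_nonneg _)
      _ = (∑ i ∈ I, x i) * ((j.factorial : ℝ) * es I x j) := by ring
      _ ≤ (∑ i ∈ I, x i) * (∑ i ∈ I, x i) ^ j := mul_le_mul_of_nonneg_left ih hT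
      _ = (∑ i ∈ I, x i) ^ (j + 1) := by rw [pow_succ]; ring

lemma part2 (I : Finset ι) (x : ι → ℝ) (hx : ∀ i, 0 ≤ x i) (j : ℕ) :
    (∑ i ∈ I, x i) ^ (j + 2) - ((j : ℝ) + 2) ^ 2 * (∑ i ∈ I, x i ^ 2) * (∑ i ∈ I, x i) ^ j ≤
      ((j + 2).factorial : ℝ) * es I x (j + 2) := by
  have hT : 0 ≤ ∑ i ∈ I, x i := sum_nonneg fun i _ => hx i
  have hP : 0 ≤ ∑ i ∈ I, x i ^ 2 := sum_nonneg fun i _ => sq_nonneg _
  set T := ∑ i ∈ I, x i with hTdef
  set P := ∑ i ∈ I, x i ^ 2 with hPdef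
  -- the recursion
  have hrec : ∀ l : ℕ, T * (((l + 1).factorial : ℝ) * es I x (l + 1)) -
      ((l : ℝ) + 1) * P * T ^ l ≤ ((l + 2).factorial : ℝ) * es I x (l + 2) := by
    intro l
    have h := step_low I x hx l
    have h1 := part1 I x hx l
    have hf : (0 : ℝ) ≤ ((l + 1).factorial : ℝ) := Nat.cast_nonneg _
    have h2 := mul_le_mul_of_nonneg_left h hf
    have e1 : ((l + 2).factorial : ℝ) = ((l : ℝ) + 2) * ((l + 1).factorial : ℝ) := by
      rw [Nat.factorial_succ (l + 1)]; push_cast; ring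
    have e2 : ((l + 1).factorial : ℝ) = ((l : ℝ) + 1) * (l.factorial : ℝ) := by
      rw [Nat.factorial_succ l]; push_cast; ring
    have h3 : ((l : ℝ) + 1) * P * ((l.factorial : ℝ) * es I x l) ≤ ((l : ℝ) + 1) * P * T ^ l :=
      mul_le_mul_of_nonneg_left h1 (by positivity)
    rw [e1]
    have h4 : ((l + 1).factorial : ℝ) * (T * es I x (l + 1) - P * es I x l) =
        T * (((l + 1).factorial : ℝ) * es I x (l + 1)) -
          ((l : ℝ) + 1) * P * ((l.factorial : ℝ) * es I x l) := by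
      rw [mul_sub, e2]; ring
    rw [h4] at h2
    linarith
  induction j with
  | zero =>
    have h := hrec 0
    have h0 := card_mul_es I x 0
    simp only [es_zero, mul_one, Nat.cast_zero, zero_add, one_mul] at h0
    have h1 : es I x 1 = T := h0
    norm_num at h ⊢
    rw [h1] at h
    nlinarith
  | succ j ih =>
    have h := hrec (j + 1)
    have h1 := mul_le_mul_of_nonneg_left ih hT
    have hTj : 0 ≤ P * T ^ (j + 1) := mul_nonneg hP (pow_nonneg hT _)
    push_cast at h ⊢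
    have e1 : T * (T ^ (j + 2) - ((j : ℝ) + 2) ^ 2 * P * T ^ j) =
        T ^ (j + 1 + 2) - ((j : ℝ) + 2) ^ 2 * (P * T ^ (j + 1)) := by ring
    rw [e1] at h1
    have hj : (0 : ℝ) ≤ (j : ℝ) := Nat.cast_nonneg _
    have h5 : 0 ≤ ((j : ℝ) + 3) * (P * T ^ (j + 1)) := by positivity
    nlinarith

theorem main : Pool.Agent.H290.PK.SEs := by
  intro ι I x y hx hy
  exact ⟨part1 I x hx, part2 I x hx, part3 I x y hx hy⟩

end Pool.Agent.H290.PK.PEs
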