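import Pool.Agent.H290.PK.Stm

/-!
# S_ii1 (helper328, for helper290)
-/

set_option autoImplicit false

namespace Pool.Agent.H290.PK.PII1

open Polynomial Finset
open scoped Classical
open Pool.Agent.H290.CT (V M)

variable {K : Type} [Field K]

lemma dg_insert {P : K[X]} {T : Finset K[X]} (h : P ∉ T) :
    dg (insert P T) = P.natDegree + dg T := by
  unfold dg
  rw [sum_insert h]

lemma dg_mono {S T : Finset K[X]} (h : S ⊆ T) : dg S ≤ dg T :=
  Finset.sum_le_sum_of_subset h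

/-- `T` is an initial set -/
def Ini (F T : Finset K[X]) : Prop :=
  ∀ Q ∈ T, ∀ Q' ∈ F, Q' ∉ T → Q.natDegree ≤ Q'.natDegree

/-- the combinatorial core -/
lemma core {F : Finset K[X]} {d z k : ℕ} (hF : MI F) (hk : F.card = k) (hd : dg F = 2 * d)
    (hz1 : 1 ≤ z) (hz : 16 * z ≤ d)
    (hs : d < 2 * dg (F.filter (fun P => P.natDegree < z))) :
    ∃ (P : K[X]) (T : Finset K[X]), P ∉ T ∧ insert P T ⊆ F ∧ 1 ≤ P.natDegree ∧ P.natDegree < z ∧
      4 * dg T ≤ d ∧ d < 4 * (dg T + P.natDegree) ∧ (∀ Q ∈ T, Q.natDegree ≤ P.natDegree) ∧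
      (∀ Q ∈ F, Q ∈ insert P T ∨ P.natDegree ≤ Q.natDegree) ∧
      T.card + 1 < k ∧ (k - (T.card + 1)) * P.natDegree ≤ 2 * d := by
  set s := F.filter (fun P => P.natDegree < z) with hsdef
  have hsF : s ⊆ F := filter_subset _ _
  have hsini : Ini F s := by
    intro Q hQ Q' hQ' hQs
    have h1 := (mem_filter.1 hQ).2
    have h2 : ¬ Q'.natDegree < z := fun h => hQs (mem_filter.2 ⟨hQ', h⟩)
    omega
  have hne : (F.powerset.filter (fun T => Ini F T ∧ d < 4 * dg T)).Nonempty :=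
    ⟨s, mem_filter.2 ⟨mem_powerset.2 hsF, hsini, by omega⟩⟩
  obtain ⟨T, hT, hmin⟩ := exists_min_image _ Finset.card hne
  obtain ⟨hTF, hTini, hTd⟩ := mem_filter.1 hT
  rw [mem_powerset] at hTF
  have hTne : T.Nonempty := by
    rw [nonempty_iff_ne_empty]
    rintro rfl
    unfold dg at hTd
    rw [sum_empty] at hTd
    omega
  obtain ⟨P, hP, hPmax⟩ := exists_max_image T natDegree hTne
  have hPF : P ∈ F := hTF hP
  have hins : insert P (T.erase P) = T := insert_erase hP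
  have hPT : P ∉ T.erase P := notMem_erase P T
  have hdgT : dg T = P.natDegree + dg (T.erase P) := by
    rw [← dg_insert hPT, hins]
  have hw1 : 1 ≤ P.natDegree := (hF P hPF).2.natDegree_pos
  have hwz : P.natDegree < z := by
    by_contra hcon
    have hPs : P ∉ s := fun h => hcon (mem_filter.1 h).2
    have hle : T.card ≤ s.card := hmin s (mem_filter.2 ⟨mem_powerset.2 hsF, hsini, by omega⟩)
    have hns : ¬ s ⊆ T := by
      intro hsub
      have h1 : s ⊂ T := (ssubset_iff_of_subset hsub).2 ⟨P, hP, hPs⟩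
      have h2 := card_lt_card h1
      omega
    obtain ⟨Q', hQ's, hQ'T⟩ := not_subset.1 hns
    have h3 := hTini P hP Q' (hsF hQ's) hQ'T
    have h4 := (mem_filter.1 hQ's).2
    omega
  have hT'ini : Ini F (T.erase P) := by
    intro Q hQ Q' hQ' hQT
    have hQT' : Q ∈ T := mem_of_mem_erase hQ
    by_cases h : Q' ∈ T
    · have h1 : Q' = P := by
        by_contra hne
        exact hQT (mem_erase.2 ⟨hne, h⟩)
      rw [h1]
      exact hPmax Q hQT'
    · exact hTini Q hQT' Q' hQ' h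
  have hcardT : (T.erase P).card + 1 = T.card := card_erase_add_one hP
  have hT'd : 4 * dg (T.erase P) ≤ d := by
    by_contra hcon
    have h1 := hmin (T.erase P) (mem_filter.2
      ⟨mem_powerset.2 ((erase_subset P T).trans hTF), hT'ini, by omega⟩)
    omega
  have hTk : T.card < k := by
    rw [← hk]
    apply card_lt_card
    refine (ssubset_iff_subset_ne).2 ⟨hTF, ?_⟩
    intro h
    rw [h, hd] at hdgT
    rw [h] at hT'd
    omega
  refine ⟨P, T.erase P, hPT, ?_, hw1, hwz, hT'd, by omega, ?_, ?_, by omega, ?_⟩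
  · rw [hins]
    exact hTF
  · intro Q hQ
    exact hPmax Q (mem_of_mem_erase hQ)
  · intro Q hQ
    rw [hins]
    by_cases h : Q ∈ T
    · exact Or.inl h
    · exact Or.inr (hTini P hP Q hQ h)
  · rw [hcardT, ← hk, ← card_sdiff_of_subset hTF]
    calc (F \ T).card * P.natDegree = ∑ _Q ∈ F \ T, P.natDegree := by
          rw [sum_const, smul_eq_mul]
      _ ≤ ∑ Q ∈ F \ T, Q.natDegree := sum_le_sum fun Q hQ =>
          hTini P hP Q (mem_sdiff.1 hQ).1 (mem_sdiff.1 hQ).2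
      _ ≤ dg F := dg_mono sdiff_subset
      _ = 2 * d := hd

/-- the union bound -/
lemma cov {α β : Type} (A : Finset α) (J : Finset β) (R : β → α → Prop)
    (h : ∀ a ∈ A, ∃ j ∈ J, R j a) :
    (A.card : ℝ) ≤ ∑ j ∈ J, ((A.filter (fun a => R j a)).card : ℝ) := by
  have h1 : A ⊆ J.biUnion (fun j => A.filter (fun a => R j a)) := by
    intro a ha
    obtain ⟨j, hj, hR⟩ := h a ha
    exact mem_biUnion.2 ⟨j, hj, mem_filter.2 ⟨ha, hR⟩⟩
  have h2 := (card_le_card h1).trans card_biUnion_le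
  exact_mod_cast h2

lemma cov2 {α β : Type} {A : Finset α} {J : Finset β} {f : β → ℝ} (R : β → α → Prop)
    (h : ∀ a ∈ A, ∃ j ∈ J, R j a)
    (h2 : ∀ j ∈ J, ((A.filter (fun a => R j a)).card : ℝ) ≤ f j) :
    (A.card : ℝ) ≤ ∑ j ∈ J, f j :=
  (cov A J R h).trans (sum_le_sum h2)

lemma mem_PP [Fintype K] {z : ℕ} {P : K[X]} :
    P ∈ PP K z ↔ P.natDegree < z ∧ P.Monic ∧ Irreducible P := by
  unfold PP irr
  rw [mem_biUnion]
  constructor
  · rintro ⟨n, hn, hP⟩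
    rw [mem_filter, Pool.Agent.H290.CT.mem_M] at hP
    rw [mem_range] at hn
    exact ⟨by omega, hP.1.1, hP.2⟩
  · rintro ⟨h1, h2, h3⟩
    exact ⟨P.natDegree, mem_range.2 h1, mem_filter.2 ⟨Pool.Agent.H290.CT.mem_M.2 ⟨h2, rfl⟩, h3⟩⟩

lemma xP_nonneg [Fintype K] (P : K[X]) : 0 ≤ xP P := by
  unfold xP
  apply div_nonneg zero_le_one
  have h1 : (1 : ℝ) ≤ Fintype.card K := by exact_mod_cast Fintype.card_pos
  have := one_le_pow₀ (n := P.natDegree) h1
  linarith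

theorem main (h1 : SBas) (h2 : SUp) : SII1 := by
  intro K _ _ _ d z k hk1 hz1 hz
  have hd1 : 1 ≤ d := by omega
  set A := (M K d).filter (fun a => (pf (a ^ 2 + X)).card = k ∧
    d < 2 * dg ((pf (a ^ 2 + X)).filter (fun P => P.natDegree < z))) with hA
  -- the conditions
  obtain ⟨R4, hR4⟩ : ∃ R : ℕ → K[X] → Finset K[X] → K[X] → Prop, ∀ w P T a, R w P T a ↔
      (P ∉ T ∧ insert P T ⊆ pf (a ^ 2 + X) ∧ 4 * dg T ≤ d ∧
      ∀ Q ∈ pf (a ^ 2 + X), Q ∈ insert P T ∨ w ≤ Q.natDegree) := ⟨_, fun _ _ _ _ => Iff.rfl⟩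
  obtain ⟨JT, hJT⟩ : ∃ J : ℕ → ℕ → Finset (Finset K[X]), ∀ w l T, T ∈ J w l ↔
      (T ∈ (PP K (w + 1)).powersetCard (k - 1 - l) ∧ d < 4 * (dg T + w)) :=
    ⟨fun w l => ((PP K (w + 1)).powersetCard (k - 1 - l)).filter (fun T => d < 4 * (dg T + w)),
      fun w l T => mem_filter⟩
  obtain ⟨R3, hR3⟩ : ∃ R : ℕ → ℕ → K[X] → K[X] → Prop, ∀ w l P a, R w l P a ↔
      (∃ T ∈ JT w l, R4 w P T a) := ⟨_, fun _ _ _ _ => Iff.rfl⟩
  obtain ⟨R2, hR2⟩ : ∃ R : ℕ → ℕ → K[X] → Prop, ∀ w l a, R w l a ↔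
      (∃ P ∈ irr K w, R3 w l P a) := ⟨_, fun _ _ _ => Iff.rfl⟩
  obtain ⟨R1, hR1⟩ : ∃ R : ℕ → K[X] → Prop, ∀ w a, R w a ↔
      (∃ l, (1 ≤ l ∧ l < k) ∧ l * w ≤ 2 * d ∧ R2 w l a) := ⟨_, fun _ _ => Iff.rfl⟩
  have hex : ∀ a ∈ A, ∃ w ∈ Ico 1 z, R1 w a := by
    intro a ha
    obtain ⟨haM, hak, has⟩ := mem_filter.1 ha
    obtain ⟨-, -, -, -, hdg, hMI, -, -⟩ := (h1 K).1 d a haM hd1
    obtain ⟨P, T, hPT, hsub, hw1, hwz, hTd, hTd2, hTw, hF, hTk, hl⟩ :=
      core hMI hak hdg hz1 hz has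
    have hPF : P ∈ pf (a ^ 2 + X) := hsub (mem_insert_self P T)
    refine ⟨P.natDegree, mem_Ico.2 ⟨hw1, hwz⟩, (hR1 _ _).2 ⟨k - (T.card + 1),
      ⟨by omega, by omega⟩, hl, (hR2 _ _ _).2 ⟨P, ?_, (hR3 _ _ _ _).2 ⟨T, ?_, (hR4 _ _ _ _).2
        ⟨hPT, hsub, hTd, hF⟩⟩⟩⟩⟩
    · unfold irr
      rw [mem_filter, Pool.Agent.H290.CT.mem_M]
      exact ⟨⟨(hMI P hPF).1, rfl⟩, (hMI P hPF).2⟩
    · rw [hJT, mem_powersetCard]
      refine ⟨⟨?_, by omega⟩, hTd2⟩
      intro Q hQ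
      rw [mem_PP]
      have hQF := hMI Q (hsub (mem_insert_of_mem hQ))
      exact ⟨Nat.lt_succ_of_le (hTw Q hQ), hQF.1, hQF.2⟩
  refine cov2 R1 hex fun w hw => ?_
  rw [mem_Ico] at hw
  have hw1 : 1 ≤ w := hw.1
  have hwz : w < z := hw.2
  refine cov2 (R2 w) (fun a ha => ?_) fun l hl => ?_
  · obtain ⟨l, hl1, hl2, h⟩ := (hR1 _ _).1 (mem_filter.1 ha).2
    exact ⟨l, mem_filter.2 ⟨mem_Ico.2 hl1, hl2⟩, h⟩
  refine cov2 (R3 w l) (fun a ha => ?_) fun P hP => ?_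
  · exact (hR2 _ _ _).1 (mem_filter.1 ha).2
  refine cov2 (R4 w P) (fun a ha => ?_) fun T hT => ?_
  · obtain ⟨T, hT, h⟩ := (hR3 _ _ _ _).1 (mem_filter.1 ha).2
    exact ⟨T, mem_filter.2 ((hJT _ _ _).1 hT), h⟩
  have hw0 : (0 : ℝ) < w := by exact_mod_cast hw1
  have hrhs : 0 ≤ (Fintype.card K : ℝ) ^ d / w * xP P * ∏ Q ∈ T, xP Q :=
    mul_nonneg (mul_nonneg (by positivity) (xP_nonneg P)) (prod_nonneg fun Q _ => xP_nonneg Q)
  by_cases hc : P ∉ T ∧ 4 * dg T ≤ d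
  · obtain ⟨hPT, hTd⟩ := hc
    have hPm : P.natDegree = w ∧ P.Monic ∧ Irreducible P := by
      unfold irr at hP
      rw [mem_filter, Pool.Agent.H290.CT.mem_M] at hP
      exact ⟨hP.1.2, hP.1.1, hP.2⟩
    have hMI : MI (insert P T) := by
      intro Q hQ
      rcases mem_insert.1 hQ with rfl | hQ
      · exact hPm.2
      · have h3 := (mem_powersetCard.1 (mem_filter.1 hT).1).1 hQ
        rw [mem_PP] at h3
        exact h3.2
    have hup := h2 K d w (insert P T) hd1 hMI hw1 (by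
      rw [dg_insert hPT, hPm.1]
      omega)
    have hsub : ((((A.filter (fun a => R1 w a)).filter (fun a => R2 w l a)).filter
        (fun a => R3 w l P a)).filter (fun a => R4 w P T a)) ⊆
        (M K d).filter (fun a => insert P T ⊆ pf (a ^ 2 + X) ∧
          ∀ Q ∈ pf (a ^ 2 + X), Q ∈ insert P T ∨ w ≤ Q.natDegree) := by
      intro a ha
      obtain ⟨ha', h6⟩ := mem_filter.1 ha
      obtain ⟨-, h4, -, h5⟩ := (hR4 _ _ _ _).1 h6
      have ha1 : a ∈ A := (mem_filter.1 (mem_filter.1 (mem_filter.1 ha').1).1).1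
      exact mem_filter.2 ⟨(mem_filter.1 ha1).1, h4, h5⟩
    have hcard : (((((A.filter (fun a => R1 w a)).filter (fun a => R2 w l a)).filter
        (fun a => R3 w l P a)).filter (fun a => R4 w P T a)).card : ℝ) ≤
        (((M K d).filter (fun a => insert P T ⊆ pf (a ^ 2 + X) ∧
          ∀ Q ∈ pf (a ^ 2 + X), Q ∈ insert P T ∨ w ≤ Q.natDegree)).card : ℝ) := by
      exact_mod_cast card_le_card hsub
    refine hcard.trans ?_
    rw [prod_insert hPT] at hup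
    have e : (Fintype.card K : ℝ) ^ d / w * xP P * ∏ Q ∈ T, xP Q =
        ((Fintype.card K : ℝ) ^ d * (xP P * ∏ Q ∈ T, xP Q)) / w := by
      ring
    rw [e, le_div_iff₀ hw0]
    exact hup
  · have hempty : ((((A.filter (fun a => R1 w a)).filter (fun a => R2 w l a)).filter
        (fun a => R3 w l P a)).filter (fun a => R4 w P T a)) = ∅ := by
      rw [filter_eq_empty_iff]
      intro a _ h6
      obtain ⟨h3, -, h4, -⟩ := (hR4 _ _ _ _).1 h6
      exact hc ⟨h3, h4⟩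
    rw [hempty, card_empty, Nat.cast_zero]
    exact hrhs

end Pool.Agent.H290.PK.PII1
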