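import Pool.Agent.H290.PK.Stm

/-!
# The analytic bound `SII2` (helper800)
-/

namespace Pool.Agent.H290.PK.PII2

open Polynomial Finset
open scoped Classical
open Pool.Agent.H290.CT (V M)
open Pool.Agent.H290.PK

variable {K : Type} [Field K] [Fintype K]

theorem two_le_q : (2 : ℝ) ≤ Fintype.card K := by
  have : 1 < Fintype.card K := Fintype.one_lt_card
  exact_mod_cast this

theorem xP_nonneg (P : K[X]) : 0 ≤ xP P := by
  unfold xP
  have h1 : (1 : ℝ) ≤ (Fintype.card K : ℝ) ^ P.natDegree :=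
    one_le_pow₀ (by have := two_le_q (K := K); linarith)
  exact one_div_nonneg.2 (by linarith)

theorem sum_irr (w : ℕ) (hw : 1 ≤ w)
    (h1 : (w : ℝ) * (irr K w).card ≤ (Fintype.card K : ℝ) ^ w) :
    ∑ P ∈ irr K w, xP P ≤ 2 / w := by
  have h2 : ∀ P ∈ irr K w, xP P = 1 / ((Fintype.card K : ℝ) ^ w - 1) := by
    intro P hP
    unfold irr at hP
    rw [Finset.mem_filter, Pool.Agent.H290.CT.mem_M] at hP
    unfold xP
    rw [hP.1.2]
  have h3 : (2 : ℝ) ≤ (Fintype.card K : ℝ) ^ w := by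
    calc (2 : ℝ) ≤ Fintype.card K := two_le_q
      _ = (Fintype.card K : ℝ) ^ 1 := (pow_one _).symm
      _ ≤ _ := pow_le_pow_right₀ (by have := two_le_q (K := K); linarith) hw
  have hw0 : (0 : ℝ) < w := by exact_mod_cast hw
  rw [Finset.sum_congr rfl h2, Finset.sum_const, nsmul_eq_mul, mul_one_div,
    div_le_div_iff₀ (by linarith) hw0]
  nlinarith

/-- Rankin's trick -/
theorem inner (t : ℝ) (ht : 0 ≤ t) (C1 : ℝ) (L : ℝ) (w d j : ℕ) (hw : 1 ≤ w)
    (hL : Real.log w ≤ L)
    (h5 : ∑ P ∈ PP K (w + 1), Real.exp (t * P.natDegree / w) * xP P ≤ Real.log w + C1)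
    (hes : ∀ (x : K[X] → ℝ), (∀ i, 0 ≤ x i) →
      (j.factorial : ℝ) * es (PP K (w + 1)) x j ≤ (∑ i ∈ PP K (w + 1), x i) ^ j) :
    ∑ T ∈ ((PP K (w + 1)).powersetCard j).filter (fun T => d < 4 * (dg T + w)),
      ∏ Q ∈ T, xP Q ≤
    Real.exp (t - t * (d / w) / 4) * ((L + C1) ^ j / j.factorial) := by
  have hw0 : (0 : ℝ) < w := by exact_mod_cast hw
  set y : K[X] → ℝ := fun Q => Real.exp (t * Q.natDegree / w) * xP Q with hy
  have hy0 : ∀ Q, 0 ≤ y Q := fun Q => mul_nonneg (Real.exp_pos _).le (xP_nonneg Q)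
  have h1 : ∀ T ∈ ((PP K (w + 1)).powersetCard j).filter (fun T => d < 4 * (dg T + w)),
      ∏ Q ∈ T, xP Q ≤ Real.exp (t - t * (d / w) / 4) * ∏ Q ∈ T, y Q := by
    intro T hT
    rw [Finset.mem_filter] at hT
    have h2 : ∏ Q ∈ T, y Q = Real.exp (t * dg T / w) * ∏ Q ∈ T, xP Q := by
      rw [hy, Finset.prod_mul_distrib, ← Real.exp_sum]
      congr 2
      unfold dg
      push_cast
      rw [← Finset.sum_div, Finset.mul_sum]
    rw [h2, ← mul_assoc, ← Real.exp_add]
    have h3 : (d : ℝ) < 4 * (dg T + w) := by exact_mod_cast hT.2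
    have h4 : 0 ≤ t - t * (d / w) / 4 + t * dg T / w := by
      have h6 : t - t * (d / w) / 4 + t * dg T / w = t * ((4 * (dg T + w) - d) / (4 * w)) := by
        field_simp
        ring
      rw [h6]
      exact mul_nonneg ht (div_nonneg (by linarith) (by linarith))
    have h7 : 1 ≤ Real.exp (t - t * (d / w) / 4 + t * dg T / w) := Real.one_le_exp h4
    exact le_mul_of_one_le_left (Finset.prod_nonneg fun Q _ => xP_nonneg Q) h7
  refine (Finset.sum_le_sum h1).trans ?_
  rw [← Finset.mul_sum]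
  refine mul_le_mul_of_nonneg_left ?_ (Real.exp_pos _).le
  have h2 : ∑ T ∈ ((PP K (w + 1)).powersetCard j).filter (fun T => d < 4 * (dg T + w)),
      ∏ Q ∈ T, y Q ≤ es (PP K (w + 1)) y j := by
    unfold es
    exact Finset.sum_le_sum_of_subset_of_nonneg (Finset.filter_subset _ _)
      (fun T _ _ => Finset.prod_nonneg fun Q _ => hy0 Q)
  refine h2.trans ?_
  have hj : (0 : ℝ) < j.factorial := by exact_mod_cast Nat.factorial_pos j
  rw [le_div_iff₀ hj, mul_comm]
  refine (hes y hy0).trans ?_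
  refine pow_le_pow_left₀ (Finset.sum_nonneg fun Q _ => hy0 Q) ?_ j
  exact h5.trans (by linarith)

/-- comparison of the factorials -/
theorem fac (A L C1 : ℝ) (hA : 1 ≤ A) (hL : 0 < L) (hC : 0 ≤ C1) (k l : ℕ) (hl : 1 ≤ l)
    (hlk : l < k) (hk : (k : ℝ) ≤ A * L) :
    (L + C1) ^ (k - 1 - l) / ((k - 1 - l).factorial : ℝ) ≤
      Real.exp (C1 * A) * (L ^ (k - 1) / ((k - 1).factorial : ℝ)) * (k / L) * A ^ (l - 1) := by
  obtain ⟨n, hn⟩ : ∃ n, k = n + l + 1 := ⟨k - 1 - l, by omega⟩
  obtain ⟨m, hm⟩ : ∃ m, l = m + 1 := ⟨l - 1, by omega⟩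
  have e1 : k - 1 - l = n := by omega
  have e2 : k - 1 = n + l := by omega
  have e3 : l - 1 = m := by omega
  rw [e1, e2, e3]
  have hn0 : (0 : ℝ) < n.factorial := by exact_mod_cast Nat.factorial_pos n
  have hnl0 : (0 : ℝ) < (n + l).factorial := by exact_mod_cast Nat.factorial_pos (n + l)
  have h1 : ((n + l).factorial : ℝ) ≤ n.factorial * (k : ℝ) ^ l := by
    have h2 := Nat.factorial_mul_descFactorial (n := n + l) (k := l) (by omega)
    have h3 := Nat.descFactorial_le_pow (n + l) l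
    have h4 : (n + l) ^ l ≤ k ^ l := Nat.pow_le_pow_left (by omega) l
    rw [Nat.add_sub_cancel] at h2
    have h5 : (n + l).factorial ≤ n.factorial * k ^ l := by
      rw [← h2]
      exact Nat.mul_le_mul_left _ (h3.trans h4)
    exact_mod_cast h5
  have hkL : (k : ℝ) / L ≤ A := by rwa [div_le_iff₀ hL]
  have hkL0 : 0 ≤ (k : ℝ) / L := by positivity
  have h2 : (L + C1) ^ (n + l) ≤ L ^ (n + l) * Real.exp (C1 * A) := by
    have h3 : L + C1 = L * (1 + C1 / L) := by field_simp
    rw [h3, mul_pow]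
    refine mul_le_mul_of_nonneg_left ?_ (by positivity)
    have h4 : 1 + C1 / L ≤ Real.exp (C1 / L) := by
      have := Real.add_one_le_exp (C1 / L)
      linarith
    calc (1 + C1 / L) ^ (n + l) ≤ Real.exp (C1 / L) ^ (n + l) :=
          pow_le_pow_left₀ (by positivity) h4 _
      _ = Real.exp (C1 * ((n + l : ℕ) / L)) := by
          rw [← Real.exp_nat_mul]
          congr 1
          ring
      _ ≤ Real.exp (C1 * A) := by
          apply Real.exp_le_exp.2
          refine mul_le_mul_of_nonneg_left ?_ hC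
          refine le_trans ?_ hkL
          refine div_le_div_of_nonneg_right ?_ hL.le
          exact_mod_cast (by omega : n + l ≤ k)
  have h3 : (L + C1) ^ n * L ^ l ≤ (L + C1) ^ (n + l) := by
    rw [pow_add]
    exact mul_le_mul_of_nonneg_left (pow_le_pow_left₀ hL.le (by linarith) l) (by positivity)
  have h4 : ((k : ℝ) / L) ^ l ≤ k / L * A ^ m := by
    rw [hm, pow_succ']
    exact mul_le_mul_of_nonneg_left (pow_le_pow_left₀ hkL0 hkL m) hkL0
  calc (L + C1) ^ n / (n.factorial : ℝ)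
      ≤ ((L + C1) ^ n * L ^ l) * (1 / (n + l).factorial) * ((k : ℝ) / L) ^ l := by
        rw [div_pow]
        have hLl : (0 : ℝ) < L ^ l := by positivity
        have e : (L + C1) ^ n * L ^ l * (1 / ((n + l).factorial : ℝ)) * ((k : ℝ) ^ l / L ^ l) =
            (L + C1) ^ n * (k : ℝ) ^ l / (n + l).factorial := by
          field_simp
        rw [e, div_le_div_iff₀ hn0 hnl0]
        have hp : 0 ≤ (L + C1) ^ n := by positivity
        nlinarith
    _ ≤ (L ^ (n + l) * Real.exp (C1 * A)) * (1 / (n + l).factorial) * (k / L * A ^ m) := by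
        refine mul_le_mul (mul_le_mul_of_nonneg_right (h3.trans h2) (by positivity)) h4
          (by positivity) (by positivity)
    _ = _ := by ring

/-- `2 u ^ 3 ≤ e ^ (4 u)` -/
theorem exp4 (u : ℝ) (hu : 0 < u) : 2 * u * Real.exp (-(4 * u)) ≤ 1 / u ^ 2 := by
  have h1 : (4 * u) ^ 3 / 6 ≤ Real.exp (4 * u) := by
    have h2 := Real.pow_div_factorial_le_exp (4 * u) (by positivity) 3
    have h3 : ((3 : ℕ).factorial : ℝ) = 6 := by norm_num [Nat.factorial]
    rwa [h3] at h2
  have h2 : 0 < Real.exp (4 * u) := Real.exp_pos _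
  rw [Real.exp_neg, ← div_eq_mul_inv, div_le_div_iff₀ h2 (by positivity)]
  have h3 : 0 < u ^ 3 := by positivity
  nlinarith

theorem main (h1 : SMer) (h2 : SEs) : SII2 := by
  intro K _ _ A hA
  obtain ⟨m1, -, -, -, m5⟩ := h1 K
  obtain ⟨t, ht⟩ : ∃ t : ℝ, t = 8 * Real.log A + 16 := ⟨_, rfl⟩
  have hlA : 0 ≤ Real.log A := Real.log_nonneg hA
  have ht0 : 0 ≤ t := by rw [ht]; linarith
  obtain ⟨C1, hC1, hm5⟩ := m5 t ht0
  refine ⟨Real.exp (C1 * A) * Real.exp t, by positivity, 3, ?_⟩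
  intro d z k hd hk hz hzd hkA
  set q : ℝ := (Fintype.card K : ℝ) with hq
  have hq2 : 2 ≤ q := two_le_q
  have hd0 : (0 : ℝ) < d := by
    have : 0 < d := by omega
    exact_mod_cast this
  obtain ⟨L, hL⟩ : ∃ L : ℝ, L = Real.log d := ⟨_, rfl⟩
  have hL0 : 0 < L := by
    rw [hL]
    exact Real.log_pos (by
      have : 1 < d := by omega
      exact_mod_cast this)
  rw [← hL] at hkA ⊢
  obtain ⟨R, hR⟩ : ∃ R : ℝ, R = L ^ (k - 1) / ((k - 1).factorial : ℝ) := ⟨_, rfl⟩
  have hR0 : 0 ≤ R := by rw [hR]; positivity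
  have hkL0 : 0 ≤ (k : ℝ) / L := by positivity
  -- the bound for one `w`
  have key : ∀ w ∈ Ico 1 z, ∑ l ∈ (Ico 1 k).filter (fun l => l * w ≤ 2 * d), ∑ P ∈ irr K w,
      ∑ T ∈ ((PP K (w + 1)).powersetCard (k - 1 - l)).filter (fun T => d < 4 * (dg T + w)),
        q ^ d / w * xP P * ∏ Q ∈ T, xP Q ≤
      q ^ d * (Real.exp (C1 * A) * Real.exp t) * R * (k / L) * (2 / (d : ℝ) ^ 2) := by
    intro w hw
    rw [Finset.mem_Ico] at hw
    have hw0 : (0 : ℝ) < w := by exact_mod_cast hw.1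
    obtain ⟨u, hu⟩ : ∃ u : ℝ, u = (d : ℝ) / w := ⟨_, rfl⟩
    have hu0 : 0 < u := by rw [hu]; positivity
    have hlw : Real.log w ≤ L := by
      rw [hL]
      apply Real.log_le_log hw0
      have : w ≤ d := by omega
      exact_mod_cast this
    -- one `l`
    have hl : ∀ l ∈ (Ico 1 k).filter (fun l => l * w ≤ 2 * d), ∑ P ∈ irr K w,
        ∑ T ∈ ((PP K (w + 1)).powersetCard (k - 1 - l)).filter (fun T => d < 4 * (dg T + w)),
          q ^ d / w * xP P * ∏ Q ∈ T, xP Q ≤
        q ^ d / w * (2 / w) * (Real.exp (t - t * u / 4) *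
          (Real.exp (C1 * A) * R * (k / L) * Real.exp (2 * u * Real.log A))) := by
      intro l hl
      rw [Finset.mem_filter, Finset.mem_Ico] at hl
      obtain ⟨⟨hl1, hlk⟩, hlw2⟩ := hl
      have i1 := inner (K := K) t ht0 C1 L w d (k - 1 - l) hw.1 hlw (hm5 w hw.1)
        (fun x hx => (h2 K[X] (PP K (w + 1)) x (fun _ => 0) hx (fun _ => le_refl 0)).1 _)
      have i2 := fac A L C1 hA hL0 hC1 k l hl1 hlk hkA
      have i3 : A ^ (l - 1) ≤ Real.exp (2 * u * Real.log A) := by
        have hA0 : 0 < A := by linarith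
        rw [← Real.rpow_natCast, Real.rpow_def_of_pos hA0]
        apply Real.exp_le_exp.2
        rw [mul_comm]
        refine mul_le_mul_of_nonneg_right ?_ hlA
        have h3 : ((l - 1 : ℕ) : ℝ) ≤ l := by exact_mod_cast Nat.sub_le _ _
        refine h3.trans ?_
        rw [hu, ← mul_div_assoc, le_div_iff₀ hw0]
        exact_mod_cast hlw2
      have i4 : ∀ P ∈ irr K w,
          ∑ T ∈ ((PP K (w + 1)).powersetCard (k - 1 - l)).filter (fun T => d < 4 * (dg T + w)),
          q ^ d / w * xP P * ∏ Q ∈ T, xP Q ≤ q ^ d / w * (Real.exp (t - t * u / 4) *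
          (Real.exp (C1 * A) * R * (k / L) * Real.exp (2 * u * Real.log A))) * xP P := by
        intro P _
        rw [← Finset.mul_sum]
        have h3 : ∑ T ∈ ((PP K (w + 1)).powersetCard (k - 1 - l)).filter
            (fun T => d < 4 * (dg T + w)), ∏ Q ∈ T, xP Q ≤ Real.exp (t - t * u / 4) *
            (Real.exp (C1 * A) * R * (k / L) * Real.exp (2 * u * Real.log A)) := by
          refine i1.trans ?_
          rw [hu]
          refine mul_le_mul_of_nonneg_left ?_ (Real.exp_pos _).le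
          refine i2.trans ?_
          rw [← hR, ← hu]
          refine mul_le_mul_of_nonneg_left i3 (by positivity)
        have h4 : 0 ≤ q ^ d / w * xP P := mul_nonneg (by positivity) (xP_nonneg P)
        calc q ^ d / w * xP P * _ ≤ q ^ d / w * xP P * (Real.exp (t - t * u / 4) *
            (Real.exp (C1 * A) * R * (k / L) * Real.exp (2 * u * Real.log A))) :=
              mul_le_mul_of_nonneg_left h3 h4
          _ = _ := by ring
      refine (Finset.sum_le_sum i4).trans ?_
      rw [← Finset.mul_sum]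
      have h3 := sum_irr (K := K) w hw.1 (m1 w hw.1)
      calc q ^ d / w * (Real.exp (t - t * u / 4) *
          (Real.exp (C1 * A) * R * (k / L) * Real.exp (2 * u * Real.log A))) * ∑ P ∈ irr K w, xP P
          ≤ q ^ d / w * (Real.exp (t - t * u / 4) *
          (Real.exp (C1 * A) * R * (k / L) * Real.exp (2 * u * Real.log A))) * (2 / w) :=
            mul_le_mul_of_nonneg_left h3 (by positivity)
        _ = _ := by ring
    refine (Finset.sum_le_sum hl).trans ?_
    rw [Finset.sum_const, nsmul_eq_mul]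
    have hcard : ((((Ico 1 k).filter (fun l => l * w ≤ 2 * d)).card : ℕ) : ℝ) ≤ 2 * u := by
      have c1 : ((Ico 1 k).filter (fun l => l * w ≤ 2 * d)) ⊆ Ico 1 (2 * d / w + 1) := by
        intro l hl
        rw [Finset.mem_filter, Finset.mem_Ico] at hl
        rw [Finset.mem_Ico]
        refine ⟨hl.1.1, ?_⟩
        have := (Nat.le_div_iff_mul_le (by omega : 0 < w)).2 hl.2
        omega
      have c2 := Finset.card_le_card c1
      rw [Nat.card_Ico, Nat.add_sub_cancel] at c2
      have c3 : ((2 * d / w : ℕ) : ℝ) ≤ ((2 * d : ℕ) : ℝ) / w := Nat.cast_div_le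
      have c4 : ((((Ico 1 k).filter (fun l => l * w ≤ 2 * d)).card : ℕ) : ℝ) ≤
          ((2 * d / w : ℕ) : ℝ) := by exact_mod_cast c2
      refine c4.trans (c3.trans (le_of_eq ?_))
      rw [hu]
      push_cast
      ring
    have h3 := exp4 u hu0
    have e1 : Real.exp (t - t * u / 4) * Real.exp (2 * u * Real.log A) =
        Real.exp t * Real.exp (-(4 * u)) := by
      rw [← Real.exp_add, ← Real.exp_add]
      congr 1
      rw [ht]
      ring
    calc ((((Ico 1 k).filter (fun l => l * w ≤ 2 * d)).card : ℕ) : ℝ) *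
        (q ^ d / w * (2 / w) * (Real.exp (t - t * u / 4) *
          (Real.exp (C1 * A) * R * (k / L) * Real.exp (2 * u * Real.log A))))
        ≤ (2 * u) * (q ^ d / w * (2 / w) * (Real.exp (t - t * u / 4) *
          (Real.exp (C1 * A) * R * (k / L) * Real.exp (2 * u * Real.log A)))) :=
          mul_le_mul_of_nonneg_right hcard (by positivity)
      _ = q ^ d * (Real.exp (C1 * A)) * R * (k / L) * (2 / (w : ℝ) ^ 2) * (2 * u) *
          (Real.exp (t - t * u / 4) * Real.exp (2 * u * Real.log A)) := by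
          field_simp
      _ = q ^ d * (Real.exp (C1 * A) * Real.exp t) * R * (k / L) * (2 / (w : ℝ) ^ 2) *
          (2 * u * Real.exp (-(4 * u))) := by
          rw [e1]
          ring
      _ ≤ q ^ d * (Real.exp (C1 * A) * Real.exp t) * R * (k / L) * (2 / (w : ℝ) ^ 2) *
          (1 / u ^ 2) := mul_le_mul_of_nonneg_left h3 (by positivity)
      _ = _ := by
          rw [hu]
          field_simp
  refine (Finset.sum_le_sum key).trans ?_
  rw [Finset.sum_const, nsmul_eq_mul, Nat.card_Ico]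
  have h3 : ((z - 1 : ℕ) : ℝ) * 16 ≤ d := by
    have : (z - 1) * 16 ≤ d := by omega
    exact_mod_cast this
  have h4 : ((z - 1 : ℕ) : ℝ) * (2 / (d : ℝ) ^ 2) ≤ 1 / (2 * d) := by
    rw [← mul_div_assoc, div_le_div_iff₀ (by positivity) (by positivity)]
    nlinarith
  have h5 : EK K d k = q ^ d * R * (1 / (2 * d)) := by
    unfold EK
    rw [← hL, hR, ← hq]
    field_simp
  rw [h5]
  calc ((z - 1 : ℕ) : ℝ) * (q ^ d * (Real.exp (C1 * A) * Real.exp t) * R * (k / L) *
        (2 / (d : ℝ) ^ 2))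
      = (q ^ d * (Real.exp (C1 * A) * Real.exp t) * R * (k / L)) *
        (((z - 1 : ℕ) : ℝ) * (2 / (d : ℝ) ^ 2)) := by ring
    _ ≤ (q ^ d * (Real.exp (C1 * A) * Real.exp t) * R * (k / L)) * (1 / (2 * d)) :=
        mul_le_mul_of_nonneg_left h4 (by positivity)
    _ = _ := by ring

end Pool.Agent.H290.PK.PII2
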