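import Pool.Agent.H290.PK.Stm

/-! The lower bound for the main term (`SLow`). -/

namespace Pool.Agent.H290.PK.PLow

open Polynomial Finset
open scoped Classical
open Pool.Agent.H290.CT (V M)

theorem xP_nonneg {K : Type} [Field K] [Fintype K] (P : K[X]) : 0 ≤ xP P := by
  unfold xP
  have h1 : (1 : ℝ) ≤ (Fintype.card K : ℝ) := by exact_mod_cast Fintype.card_pos
  have h2 : (1 : ℝ) ≤ (Fintype.card K : ℝ) ^ P.natDegree := one_le_pow₀ h1
  exact div_nonneg zero_le_one (by linarith)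

theorem PP_mono (K : Type) [Field K] [Fintype K] {a b : ℕ} (h : a ≤ b) : PP K a ⊆ PP K b := by
  unfold PP
  exact Finset.biUnion_subset_biUnion_of_subset_left _ (Finset.range_mono h)

theorem es_zero {ι : Type} (I : Finset ι) (x : ι → ℝ) : es I x 0 = 1 := by
  simp [es]

theorem es_one {ι : Type} (I : Finset ι) (x : ι → ℝ) : es I x 1 = ∑ i ∈ I, x i := by
  simp [es, Finset.powersetCard_one]

/-- The combinatorial part: large `T` and small `∑ x ^ 2`. -/
theorem core (h2 : SEs) {ι : Type} (I : Finset ι) (x g : ι → ℝ) (hx : ∀ i, 0 ≤ x i)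
    (hg : ∀ i, 0 ≤ g i) (A Y D : ℝ) (hA : 1 ≤ A) (hD : 0 < D) (hY : 16 * A * Y ≤ D)
    (hsq : ∑ i ∈ I, x i ^ 2 ≤ 1 / (16 * A ^ 2)) (hdeg : ∑ i ∈ I, g i * x i ≤ Y)
    (j : ℕ) (hT : 0 < ∑ i ∈ I, x i) (hj : (j : ℝ) ≤ 2 * A * ∑ i ∈ I, x i) :
    1 / 2 * ((∑ i ∈ I, x i) ^ j / j.factorial) ≤
      ∑ S ∈ (I.powersetCard j).filter (fun S => ∑ i ∈ S, g i ≤ D), ∏ i ∈ S, x i := by
  set T : ℝ := ∑ i ∈ I, x i with hTd
  obtain ⟨e1, e2, e3⟩ := h2 ι I x g hx hg
  have hfac : (0 : ℝ) < (j.factorial : ℝ) := by exact_mod_cast j.factorial_pos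
  have hprod : ∀ S : Finset ι, 0 ≤ ∏ i ∈ S, x i := fun S => Finset.prod_nonneg fun i _ => hx i
  -- the full sum
  have hfull : 3 / 4 * (T ^ j / j.factorial) ≤ es I x j := by
    rcases j with _ | _ | j
    · rw [es_zero]; norm_num
    · rw [es_one]
      simp only [zero_add, pow_one, Nat.factorial_one, Nat.cast_one, div_one]
      linarith
    · have h := e2 j
      have h3 : ((j : ℝ) + 2) ^ 2 * (∑ i ∈ I, x i ^ 2) * T ^ j ≤ 1 / 4 * T ^ (j + 2) := by
        have h4 : ((j : ℝ) + 2) ≤ 2 * A * T := by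
          have : (((j + 1 + 1 : ℕ)) : ℝ) = (j : ℝ) + 2 := by push_cast; ring
          rw [← this]; exact hj
        have h5 : ((j : ℝ) + 2) ^ 2 ≤ (2 * A * T) ^ 2 :=
          pow_le_pow_left₀ (by positivity) h4 2
        have h6 : ((j : ℝ) + 2) ^ 2 * (∑ i ∈ I, x i ^ 2) ≤ (2 * A * T) ^ 2 * (1 / (16 * A ^ 2)) :=
          mul_le_mul h5 hsq (Finset.sum_nonneg fun i _ => by positivity) (by positivity)
        have h7 : (2 * A * T) ^ 2 * (1 / (16 * A ^ 2)) = 1 / 4 * T ^ 2 := by
          have : A ≠ 0 := by linarith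
          field_simp
          ring
        calc ((j : ℝ) + 2) ^ 2 * (∑ i ∈ I, x i ^ 2) * T ^ j ≤ (1 / 4 * T ^ 2) * T ^ j := by
              rw [← h7]
              exact mul_le_mul_of_nonneg_right h6 (by positivity)
          _ = 1 / 4 * T ^ (j + 2) := by ring
      have h8 : 3 / 4 * T ^ (j + 2) ≤ ((j + 2).factorial : ℝ) * es I x (j + 2) := by
        linarith
      rw [← mul_div_assoc, div_le_iff₀ hfac, mul_comm (es I x _)]
      exact h8
  -- the sets of large degree
  have hlarge : ∑ S ∈ (I.powersetCard j).filter (fun S => ¬ ∑ i ∈ S, g i ≤ D), ∏ i ∈ S, x i ≤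
      1 / 8 * (T ^ j / j.factorial) := by
    rcases j with _ | j
    · have h0 : (I.powersetCard 0).filter (fun S => ¬ ∑ i ∈ S, g i ≤ D) = ∅ := by
        rw [Finset.filter_eq_empty_iff]
        intro S hS
        rw [Finset.powersetCard_zero, Finset.mem_singleton] at hS
        subst hS
        simp [hD.le]
      rw [h0]
      simp
    · have h := e3 j
      have h4 : D * ∑ S ∈ (I.powersetCard (j + 1)).filter (fun S => ¬ ∑ i ∈ S, g i ≤ D),
          ∏ i ∈ S, x i ≤ (∑ i ∈ I, g i * x i) * es I x j := by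
        refine le_trans ?_ h
        rw [Finset.mul_sum]
        refine le_trans (Finset.sum_le_sum (g := fun S => (∑ i ∈ S, g i) * ∏ i ∈ S, x i) ?_) ?_
        · intro S hS
          rw [Finset.mem_filter, not_le] at hS
          exact mul_le_mul_of_nonneg_right hS.2.le (hprod S)
        · refine Finset.sum_le_sum_of_subset_of_nonneg (Finset.filter_subset _ _) ?_
          intro S _ _
          exact mul_nonneg (Finset.sum_nonneg fun i _ => hg i) (hprod S)
      have h5 := e1 j
      have hfac' : (0 : ℝ) < (j.factorial : ℝ) := by exact_mod_cast j.factorial_pos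
      have h6 : es I x j ≤ T ^ j / j.factorial := by
        rw [le_div_iff₀ hfac', mul_comm]
        exact h5
      have hes0 : 0 ≤ es I x j := Finset.sum_nonneg fun S _ => hprod S
      have hY0 : 0 ≤ Y := le_trans (Finset.sum_nonneg fun i _ => mul_nonneg (hg i) (hx i)) hdeg
      have h7 : D * ∑ S ∈ (I.powersetCard (j + 1)).filter (fun S => ¬ ∑ i ∈ S, g i ≤ D),
          ∏ i ∈ S, x i ≤ Y * (T ^ j / j.factorial) :=
        h4.trans (mul_le_mul hdeg h6 hes0 hY0)
      have h8 : Y * (T ^ j / j.factorial) ≤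
          D * (1 / 8 * (T ^ (j + 1) / ((j + 1).factorial : ℝ))) := by
        have h9 : T ^ (j + 1) / ((j + 1).factorial : ℝ) = (T / ((j : ℝ) + 1)) * (T ^ j / j.factorial) := by
          rw [Nat.factorial_succ]
          push_cast
          rw [pow_succ]
          field_simp
        rw [h9]
        have h10 : Y ≤ D * (1 / 8 * (T / ((j : ℝ) + 1))) := by
          have hj' : ((j : ℝ) + 1) ≤ 2 * A * T := by
            have : (((j + 1 : ℕ)) : ℝ) = (j : ℝ) + 1 := by push_cast; ring
            rw [← this]; exact hj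
          have h11 : 1 / (2 * A) ≤ T / ((j : ℝ) + 1) := by
            rw [div_le_div_iff₀ (by positivity) (by positivity)]
            linarith
          have h12 : Y ≤ D * (1 / (16 * A)) := by
            rw [mul_one_div, le_div_iff₀ (by positivity)]
            linarith
          have h13 : D * (1 / (16 * A)) = D * (1 / 8 * (1 / (2 * A))) := by
            field_simp
            norm_num
          rw [h13] at h12
          refine h12.trans ?_
          gcongr
        have h14 : 0 ≤ T ^ j / (j.factorial : ℝ) := by positivity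
        calc Y * (T ^ j / j.factorial) ≤ (D * (1 / 8 * (T / ((j : ℝ) + 1)))) * (T ^ j / j.factorial) :=
              mul_le_mul_of_nonneg_right h10 h14
          _ = _ := by ring
      exact le_of_mul_le_mul_left (h7.trans h8) hD
  have hsplit : es I x j =
      ∑ S ∈ (I.powersetCard j).filter (fun S => ∑ i ∈ S, g i ≤ D), ∏ i ∈ S, x i +
      ∑ S ∈ (I.powersetCard j).filter (fun S => ¬ ∑ i ∈ S, g i ≤ D), ∏ i ∈ S, x i := by
    unfold es
    rw [Finset.sum_filter_add_sum_filter_not]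
  have hq : 0 ≤ T ^ j / (j.factorial : ℝ) := by positivity
  linarith

theorem one_sub_pow (u : ℝ) (hu0 : 0 ≤ u) (hu : u ≤ 1 / 2) (j : ℕ) :
    Real.exp (-(2 * u * j)) ≤ (1 - u) ^ j := by
  have h1 : Real.exp (-(2 * u)) ≤ 1 - u := by
    have h2 : 1 + u + u ^ 2 / 2 ≤ Real.exp u := by
      have := Real.quadratic_le_exp_of_nonneg hu0
      linarith
    have h3 : Real.exp (-(2 * u)) = 1 / (Real.exp u) ^ 2 := by
      rw [Real.exp_neg, ← Real.exp_nat_mul]
      push_cast
      rw [one_div]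
    rw [h3, div_le_iff₀ (by positivity)]
    have h4 : (1 + u) ^ 2 ≤ (Real.exp u) ^ 2 := by
      apply pow_le_pow_left₀ (by linarith)
      nlinarith
    have h5 : 1 ≤ (1 - u) * (1 + u) ^ 2 := by nlinarith
    calc (1 : ℝ) ≤ (1 - u) * (1 + u) ^ 2 := h5
      _ ≤ (1 - u) * (Real.exp u) ^ 2 := by
        apply mul_le_mul_of_nonneg_left h4 (by linarith)
  calc Real.exp (-(2 * u * j)) = (Real.exp (-(2 * u))) ^ j := by
        rw [← Real.exp_nat_mul]; ring_nf
    _ ≤ (1 - u) ^ j := pow_le_pow_left₀ (Real.exp_pos _).le h1 j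

theorem main (h1 : SMer) (h2 : SEs) : SLow := by
  intro K _ _ A θ hA hθ
  obtain ⟨-, ⟨C, hC0, hC⟩, hκ, hdeg, -⟩ := h1 K
  obtain ⟨y₀, hy₀⟩ := hκ (1 / (16 * A ^ 2)) (by positivity)
  set C0 : ℝ := ∑ P ∈ PP K y₀, xP P with hC0d
  have hC00 : 0 ≤ C0 := Finset.sum_nonneg fun P _ => xP_nonneg P
  set c1 : ℝ := min (1 / 32) (θ / (64 * A)) with hc1
  have hc1pos : 0 < c1 := by
    rw [hc1]
    exact lt_min (by norm_num) (by positivity)
  have hc1le : c1 ≤ 1 / 32 := min_le_left _ _
  have hlogc1 : Real.log c1 ≤ 0 := Real.log_nonpos hc1pos.le (by linarith)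
  set C2 : ℝ := C + C0 - Real.log c1 with hC2
  have hC20 : 0 ≤ C2 := by linarith
  -- large `d`
  have hev : ∀ᶠ d : ℕ in Filter.atTop, (32 : ℝ) ≤ d ∧ 64 * A / θ ≤ d ∧ ((y₀ : ℝ) + 1) / c1 ≤ d ∧
      2 * C2 + 1 ≤ Real.log d := by
    have t1 : Filter.Tendsto (fun d : ℕ => (d : ℝ)) Filter.atTop Filter.atTop :=
      tendsto_natCast_atTop_atTop
    have t2 : Filter.Tendsto (fun d : ℕ => Real.log (d : ℝ)) Filter.atTop Filter.atTop :=
      Real.tendsto_log_atTop.comp t1
    filter_upwards [t1.eventually_ge_atTop 32, t1.eventually_ge_atTop (64 * A / θ),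
      t1.eventually_ge_atTop (((y₀ : ℝ) + 1) / c1), t2.eventually_ge_atTop (2 * C2 + 1)]
      with d a b c e using ⟨a, b, c, e⟩
  obtain ⟨d₀, hd₀⟩ := Filter.eventually_atTop.1 hev
  refine ⟨1 / 2 * Real.exp (-(2 * C2 * A)), by positivity, d₀, ?_⟩
  intro d z k hd hk hz1 hz2 hkA
  obtain ⟨d1, d2, d3, d4⟩ := hd₀ d hd
  set L : ℝ := Real.log d with hL
  have hL0 : 0 < L := by linarith
  have hd0 : (0 : ℝ) < d := by linarith
  obtain ⟨j, rfl⟩ : ∃ j, k = j + 1 := ⟨k - 1, by omega⟩
  simp only [Nat.add_sub_cancel]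
  -- the choice of `y`
  set y : ℕ := min z ⌊θ * d / (32 * A)⌋₊ with hy
  have hyz : y ≤ z := min_le_left _ _
  have hy2 : (y : ℝ) ≤ θ * d / (32 * A) := by
    refine le_trans ?_ (Nat.floor_le (by positivity : 0 ≤ θ * d / (32 * A)))
    exact_mod_cast min_le_right _ _
  have hyc : c1 * d ≤ y := by
    rw [hy]
    push_cast
    rw [le_min_iff]
    constructor
    · have h3 : (d : ℝ) < 16 * (z + 1) := by exact_mod_cast hz2
      have h4 : c1 * d ≤ 1 / 32 * d := mul_le_mul_of_nonneg_right hc1le hd0.le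
      linarith
    · have h3 : θ * d / (32 * A) - 1 ≤ ⌊θ * d / (32 * A)⌋₊ := (Nat.sub_one_lt_floor _).le
      have h4 : c1 * d ≤ θ / (64 * A) * d := mul_le_mul_of_nonneg_right (min_le_right _ _) hd0.le
      have h5 : 1 ≤ θ / (64 * A) * d := by
        rw [div_mul_eq_mul_div, le_div_iff₀ (by positivity)]
        rw [div_le_iff₀ hθ] at d2
        linarith
      have h6 : θ * d / (32 * A) = θ / (64 * A) * d + θ / (64 * A) * d := by
        field_simp
        norm_num
      linarith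
  have hyy₀ : y₀ + 1 ≤ y := by
    have h3 : ((y₀ : ℝ) + 1) ≤ c1 * d := by
      rw [div_le_iff₀ hc1pos] at d3
      linarith
    have h4 : ((y₀ : ℝ) + 1) ≤ y := h3.trans hyc
    exact_mod_cast h4
  have hy1 : 1 ≤ y := by omega
  -- the set `I`
  set I : Finset K[X] := PP K y \ PP K y₀ with hI
  have hsub : PP K y₀ ⊆ PP K y := PP_mono K (by omega)
  have hTeq : ∑ P ∈ I, xP P = ∑ P ∈ PP K y, xP P - C0 := by
    rw [hI, hC0d, eq_sub_iff_add_eq, Finset.sum_sdiff hsub]
  have hTlow : L - C2 ≤ ∑ P ∈ I, xP P := by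
    rw [hTeq]
    have h3 := (hC y hy1).1
    have h4 := (abs_le.1 h3).1
    have h5 : Real.log c1 + L ≤ Real.log y := by
      rw [hL, ← Real.log_mul hc1pos.ne' hd0.ne']
      exact Real.log_le_log (by positivity) hyc
    linarith
  have hThalf : L / 2 ≤ ∑ P ∈ I, xP P := by linarith
  have hTpos : 0 < ∑ P ∈ I, xP P := by linarith
  have hjA : (j : ℝ) ≤ A * L := by
    push_cast at hkA
    linarith
  have hjT : (j : ℝ) ≤ 2 * A * ∑ P ∈ I, xP P := by
    have h3 : A * L ≤ 2 * A * ∑ P ∈ I, xP P := by nlinarith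
    linarith
  have hYdeg : ∑ P ∈ I, (P.natDegree : ℝ) * xP P ≤ 2 * y := by
    refine le_trans (Finset.sum_le_sum_of_subset_of_nonneg Finset.sdiff_subset ?_) (hdeg y)
    intro P _ _
    exact mul_nonneg (Nat.cast_nonneg _) (xP_nonneg P)
  have hcore := core h2 I xP (fun P => (P.natDegree : ℝ)) xP_nonneg (fun P => Nat.cast_nonneg _)
    A (2 * y) (θ * d) hA (by positivity)
    (by
      rw [le_div_iff₀ (by positivity)] at hy2
      nlinarith)
    (hy₀ y) hYdeg j hTpos hjT
  refine le_trans ?_ (hcore.trans ?_)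
  · -- comparison of `T ^ j` and `L ^ j`
    have hfac : (0 : ℝ) < (j.factorial : ℝ) := by exact_mod_cast j.factorial_pos
    have hu : C2 / L ≤ 1 / 2 := by
      rw [div_le_iff₀ hL0]
      linarith
    have h3 := one_sub_pow (C2 / L) (by positivity) hu j
    have h4 : (1 - C2 / L) ^ j * L ^ j = (L - C2) ^ j := by
      rw [← mul_pow]
      congr 1
      field_simp
    have h5 : (L - C2) ^ j ≤ (∑ P ∈ I, xP P) ^ j := pow_le_pow_left₀ (by linarith) hTlow j
    have h6 : Real.exp (-(2 * C2 * A)) ≤ Real.exp (-(2 * (C2 / L) * j)) := by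
      apply Real.exp_le_exp.2
      have : 2 * (C2 / L) * j ≤ 2 * C2 * A := by
        have h7 : (C2 / L) * j ≤ (C2 / L) * (A * L) :=
          mul_le_mul_of_nonneg_left hjA (by positivity)
        have h8 : (C2 / L) * (A * L) = C2 * A := by field_simp
        linarith
      linarith
    have h9 : Real.exp (-(2 * C2 * A)) * L ^ j ≤ (∑ P ∈ I, xP P) ^ j := by
      calc Real.exp (-(2 * C2 * A)) * L ^ j ≤ (1 - C2 / L) ^ j * L ^ j :=
            mul_le_mul_of_nonneg_right (h6.trans h3) (by positivity)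
        _ = (L - C2) ^ j := h4
        _ ≤ _ := h5
    rw [mul_assoc, ← mul_div_assoc]
    gcongr
  · -- more sets
    have hdg : ∀ S : Finset K[X], (dg S : ℝ) = ∑ P ∈ S, (P.natDegree : ℝ) := by
      intro S
      unfold dg
      push_cast
      rfl
    refine Finset.sum_le_sum_of_subset_of_nonneg ?_ ?_
    · intro S hS
      rw [Finset.mem_filter, Finset.mem_powersetCard] at hS ⊢
      refine ⟨⟨hS.1.1.trans (Finset.sdiff_subset.trans (PP_mono K hyz)), hS.1.2⟩, ?_⟩
      rw [hdg]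
      exact hS.2
    · intro S _ _
      exact Finset.prod_nonneg fun P _ => xP_nonneg P

end Pool.Agent.H290.PK.PLow
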