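import Pool.Agent.H290.PK.Stm

/-!
# The main term

By helper588.
-/

namespace Pool.Agent.H290.PK.PMain

open Polynomial Finset
open scoped Classical
open Pool.Agent.H290.CT (V M)

theorem aux_pow {L c : ℝ} (hL : 0 < L) (hc : 0 ≤ c) (n : ℕ) :
    (L + c) ^ n ≤ L ^ n * Real.exp (n * (c / L)) := by
  have h1 : L + c = L * (1 + c / L) := by field_simp
  rw [h1, mul_pow]
  refine mul_le_mul_of_nonneg_left ?_ (by positivity)
  calc (1 + c / L) ^ n ≤ (Real.exp (c / L)) ^ n := by
        refine pow_le_pow_left₀ (by positivity) ?_ n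
        rw [add_comm]
        exact Real.add_one_le_exp _
    _ = Real.exp (n * (c / L)) := by rw [← Real.exp_nat_mul]

theorem aux_exp {L A c : ℝ} (hL : 0 < L) (hc : 0 ≤ c) {n : ℕ} (hn : (n : ℝ) ≤ A * L) :
    Real.exp (n * (c / L)) ≤ Real.exp (c * A) := by
  refine Real.exp_le_exp.2 ?_
  calc (n : ℝ) * (c / L) ≤ (A * L) * (c / L) :=
        mul_le_mul_of_nonneg_right hn (by positivity)
    _ = c * A := by field_simp

theorem aux_exp2 (x : ℝ) : Real.exp x ≤ 1 + x * Real.exp x := by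
  have h1 := Real.add_one_le_exp (-x)
  have h2 : Real.exp x * Real.exp (-x) = 1 := by rw [← Real.exp_add]; simp
  have h3 : Real.exp x * (-x + 1) ≤ Real.exp x * Real.exp (-x) :=
    mul_le_mul_of_nonneg_left h1 (Real.exp_pos x).le
  rw [h2] at h3
  linarith

/-- the bound for the powers -/
theorem pow_up {L A c : ℝ} (hL : 0 < L) (hc : 0 ≤ c) {n : ℕ} (hn : (n : ℝ) ≤ A * L) :
    (L + c) ^ n ≤ L ^ n * Real.exp (c * A) :=
  (aux_pow hL hc n).trans (mul_le_mul_of_nonneg_left (aux_exp hL hc hn) (by positivity))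

/-- the precise bound for the powers -/
theorem pow_up2 {L A c : ℝ} (hL : 0 < L) (hc : 0 ≤ c) {n : ℕ} (hn : (n : ℝ) ≤ A * L) :
    (L + c) ^ n ≤ L ^ n * (1 + c * Real.exp (c * A) * (n / L)) := by
  refine (aux_pow hL hc n).trans (mul_le_mul_of_nonneg_left ?_ (by positivity))
  refine (aux_exp2 _).trans ?_
  have h1 : (n : ℝ) * (c / L) * Real.exp (n * (c / L)) ≤
      (n : ℝ) * (c / L) * Real.exp (c * A) :=
    mul_le_mul_of_nonneg_left (aux_exp hL hc hn) (by positivity)
  have h2 : (n : ℝ) * (c / L) * Real.exp (c * A) = c * Real.exp (c * A) * (n / L) := by ring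
  linarith

/-- the lower bound for the powers -/
theorem pow_low {L T c : ℝ} (hL : 0 < L) (hcL : c ≤ L) (hT : L - c ≤ T) (n : ℕ) :
    L ^ n * (1 - c * (n / L)) ≤ T ^ n := by
  have h0 : c / L ≤ 1 := (div_le_one hL).2 hcL
  have h1 : L - c = L * (1 + -(c / L)) := by field_simp; ring
  have h2 : (1 : ℝ) + n * (-(c / L)) ≤ (1 + -(c / L)) ^ n :=
    one_add_mul_le_pow (by linarith) n
  have h3 : (L - c) ^ n ≤ T ^ n := pow_le_pow_left₀ (by linarith) hT n
  refine le_trans ?_ h3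
  rw [h1, mul_pow]
  refine mul_le_mul_of_nonneg_left ?_ (by positivity)
  have h4 : (1 : ℝ) - c * (n / L) = 1 + n * (-(c / L)) := by ring
  rw [h4]
  exact h2

/-- the analytic core -/
theorem core {L A c C₁ T : ℝ} (hL : 0 < L) (hc : 0 ≤ c) (hcL : c ≤ L) (hA : 0 ≤ A)
    (hC₁ : 0 ≤ C₁) (hT1 : L - c ≤ T) (hT2 : T ≤ L + c) {j : ℕ} {e : ℝ} (hj : (j : ℝ) ≤ A * L)
    (he : (j.factorial : ℝ) * e ≤ T ^ j) (he1 : j = 1 → e = T)
    (he2 : ∀ i, j = i + 2 → T ^ (i + 2) - ((i : ℝ) + 2) ^ 2 * C₁ * T ^ i ≤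
      ((i + 2).factorial : ℝ) * e) (hj1 : 1 ≤ j) :
    e ≤ L ^ j / j.factorial + c * Real.exp (c * A) * (j / L) * (L ^ j / j.factorial) ∧
    L ^ j / j.factorial - (c + C₁ * A * Real.exp (c * A)) * (j / L) * (L ^ j / j.factorial) ≤ e := by
  have hf : (0 : ℝ) < j.factorial := by exact_mod_cast j.factorial_pos
  have hT0 : 0 ≤ T := by linarith
  have hX : 0 < Real.exp (c * A) := Real.exp_pos _
  constructor
  · have h1 : (j.factorial : ℝ) * e ≤ L ^ j * (1 + c * Real.exp (c * A) * (j / L)) :=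
      he.trans ((pow_le_pow_left₀ hT0 hT2 j).trans (pow_up2 hL hc hj))
    have h2 : L ^ j / j.factorial + c * Real.exp (c * A) * (j / L) * (L ^ j / j.factorial) =
        (L ^ j * (1 + c * Real.exp (c * A) * (j / L))) / j.factorial := by ring
    rw [h2, le_div_iff₀ hf]
    linarith
  · have hlow := pow_low hL hcL hT1 j
    have h2 : L ^ j / j.factorial -
        (c + C₁ * A * Real.exp (c * A)) * (j / L) * (L ^ j / j.factorial) =
        (L ^ j * (1 - c * (j / L)) - C₁ * A * Real.exp (c * A) * (j / L) * L ^ j) /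
          j.factorial := by ring
    rw [h2, div_le_iff₀ hf]
    obtain rfl | ⟨i, rfl⟩ : j = 1 ∨ ∃ i, j = i + 2 := by
      rcases Nat.lt_or_ge j 2 with h | h
      · exact Or.inl (by omega)
      · exact Or.inr ⟨j - 2, by omega⟩
    · have h3 : 0 ≤ C₁ * A * Real.exp (c * A) * (((1 : ℕ) : ℝ) / L) * L ^ 1 := by positivity
      rw [he1 rfl]
      rw [pow_one T] at hlow
      simp only [Nat.factorial_one, Nat.cast_one, mul_one] at hlow h3 ⊢
      linarith
    · have h4 := he2 i rfl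
      have h5 : T ^ i ≤ L ^ i * Real.exp (c * A) := by
        refine (pow_le_pow_left₀ hT0 hT2 i).trans (pow_up hL hc ?_)
        push_cast at hj
        linarith
      have h6 : ((i : ℝ) + 2) ^ 2 * C₁ * T ^ i ≤
          C₁ * A * Real.exp (c * A) * (((i + 2 : ℕ) : ℝ) / L) * L ^ (i + 2) := by
        have hj' : ((i : ℝ) + 2) ≤ A * L := by
          push_cast at hj
          exact hj
        calc ((i : ℝ) + 2) ^ 2 * C₁ * T ^ i
            ≤ ((i : ℝ) + 2) ^ 2 * C₁ * (L ^ i * Real.exp (c * A)) :=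
              mul_le_mul_of_nonneg_left h5 (by positivity)
          _ = ((i : ℝ) + 2) * (C₁ * Real.exp (c * A) * ((i : ℝ) + 2) * L ^ i) := by ring
          _ ≤ (A * L) * (C₁ * Real.exp (c * A) * ((i : ℝ) + 2) * L ^ i) :=
              mul_le_mul_of_nonneg_right hj' (by positivity)
          _ = C₁ * A * Real.exp (c * A) * (((i + 2 : ℕ) : ℝ) / L) * L ^ (i + 2) := by
              push_cast
              field_simp
              ring
      push_cast at h4 h6 hlow ⊢
      linarith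

theorem xP_nonneg {K : Type} [Field K] [Fintype K] (P : K[X]) : 0 ≤ xP P := by
  unfold xP
  have h1 : (1 : ℝ) ≤ (Fintype.card K : ℝ) := by
    have : 1 ≤ Fintype.card K := Fintype.card_pos
    exact_mod_cast this
  have h2 : (1 : ℝ) ≤ (Fintype.card K : ℝ) ^ P.natDegree := one_le_pow₀ h1
  exact div_nonneg zero_le_one (by linarith)

/-- the tail -/
theorem tail (h2 : SEs) {K : Type} [Field K] [Fintype K] {θ : ℝ} (hθ : 0 < θ) {d z : ℕ}
    (hd : 0 < d) (I : Finset K[X]) (hI : ∑ P ∈ I, (P.natDegree : ℝ) * xP P ≤ 2 * z)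
    (hz : 2 * z ≤ d) (i : ℕ) :
    ∑ S ∈ (I.powersetCard (i + 1)).filter (fun S => θ * d < (dg S : ℝ)), ∏ P ∈ S, xP P ≤
      1 / θ * es I xP i := by
  have hd0 : (0 : ℝ) < d := by exact_mod_cast hd
  have hes : 0 ≤ es I xP i := by
    unfold es
    exact Finset.sum_nonneg fun S _ => Finset.prod_nonneg fun P _ => xP_nonneg P
  have h3 := (h2 K[X] I xP (fun P => (P.natDegree : ℝ)) xP_nonneg
    (fun P => Nat.cast_nonneg _)).2.2 i
  have h4 : θ * d * ∑ S ∈ (I.powersetCard (i + 1)).filter (fun S => θ * d < (dg S : ℝ)),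
      ∏ P ∈ S, xP P ≤ ∑ S ∈ I.powersetCard (i + 1), (∑ P ∈ S, (P.natDegree : ℝ)) *
        ∏ P ∈ S, xP P := by
    rw [Finset.mul_sum]
    refine le_trans ?_ (Finset.sum_le_sum_of_subset_of_nonneg (Finset.filter_subset
      (fun S => θ * d < (dg S : ℝ)) _) fun S _ _ => mul_nonneg (Finset.sum_nonneg fun P _ =>
        Nat.cast_nonneg _) (Finset.prod_nonneg fun P _ => xP_nonneg P))
    refine Finset.sum_le_sum fun S hS => ?_
    have h5 : θ * d < (dg S : ℝ) := (Finset.mem_filter.1 hS).2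
    have h6 : (dg S : ℝ) = ∑ P ∈ S, (P.natDegree : ℝ) := by
      unfold dg
      push_cast
      rfl
    rw [h6] at h5
    exact mul_le_mul_of_nonneg_right h5.le (Finset.prod_nonneg fun P _ => xP_nonneg P)
  have h7 : θ * d * ∑ S ∈ (I.powersetCard (i + 1)).filter (fun S => θ * d < (dg S : ℝ)),
      ∏ P ∈ S, xP P ≤ d * es I xP i := by
    refine h4.trans (h3.trans ?_)
    refine mul_le_mul_of_nonneg_right (hI.trans ?_) hes
    exact_mod_cast hz
  have h8 : θ * ∑ S ∈ (I.powersetCard (i + 1)).filter (fun S => θ * d < (dg S : ℝ)),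
      ∏ P ∈ S, xP P ≤ es I xP i := by
    have h9 : (d : ℝ) * (θ * ∑ S ∈ (I.powersetCard (i + 1)).filter
        (fun S => θ * d < (dg S : ℝ)), ∏ P ∈ S, xP P) ≤ d * es I xP i := by
      calc _ = θ * d * ∑ S ∈ (I.powersetCard (i + 1)).filter (fun S => θ * d < (dg S : ℝ)),
          ∏ P ∈ S, xP P := by ring
        _ ≤ _ := h7
    exact le_of_mul_le_mul_left h9 hd0
  rw [one_div, inv_mul_eq_div, le_div_iff₀ hθ]
  linarith

theorem main (h1 : SMer) (h2 : SEs) : SMain := by
  intro K _ _ A θ hA hθ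
  obtain ⟨-, ⟨C₁, hC₁, hmer⟩, -, hdeg, -⟩ := h1 K
  obtain ⟨c, hc⟩ : ∃ c : ℝ, c = C₁ + Real.log 32 := ⟨_, rfl⟩
  have hlog32 : 0 < Real.log 32 := Real.log_pos (by norm_num)
  have hc0 : 0 < c := by rw [hc]; linarith
  obtain ⟨X, hX⟩ : ∃ X : ℝ, X = Real.exp (c * A) := ⟨_, rfl⟩
  have hX0 : 0 < X := by rw [hX]; exact Real.exp_pos _
  refine ⟨c * X + (c + C₁ * A * X) + 1 / θ * X, by positivity, max 16 ⌈Real.exp (c + 1)⌉₊,
    fun d z k hd hk hz1 hz2 hkL => ?_⟩
  have hd16 : 16 ≤ d := le_trans (le_max_left _ _) hd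
  have hz : 1 ≤ z := by omega
  have hd0 : (0 : ℝ) < d := by
    have : 0 < d := by omega
    exact_mod_cast this
  have hz0 : (0 : ℝ) < z := by exact_mod_cast hz
  obtain ⟨L, hL⟩ : ∃ L : ℝ, L = Real.log d := ⟨_, rfl⟩
  rw [← hL] at hkL ⊢
  have hLc : c + 1 ≤ L := by
    rw [hL, Real.le_log_iff_exp_le hd0]
    exact (Nat.le_ceil _).trans (by exact_mod_cast le_trans (le_max_right _ _) hd)
  have hL0 : 0 < L := by linarith
  obtain ⟨T, hT⟩ : ∃ T : ℝ, T = ∑ P ∈ PP K z, xP P := ⟨_, rfl⟩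
  have hm := hmer z hz
  rw [← hT] at hm
  have hTz := abs_le.1 hm.1
  have hlz1 : Real.log z ≤ L := by
    rw [hL]
    refine Real.log_le_log hz0 ?_
    have : z ≤ d := by omega
    exact_mod_cast this
  have hlz2 : L ≤ Real.log 32 + Real.log z := by
    rw [hL, ← Real.log_mul (by norm_num) hz0.ne']
    refine Real.log_le_log hd0 ?_
    have : d ≤ 32 * z := by omega
    exact_mod_cast this
  have hT1 : L - c ≤ T := by
    rw [hc]
    linarith
  have hT2 : T ≤ L + c := by
    rw [hc]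
    linarith
  obtain ⟨j, rfl⟩ : ∃ j, k = j + 1 := ⟨k - 1, by omega⟩
  rw [Nat.add_sub_cancel]
  have hjL : (j : ℝ) ≤ A * L := by
    push_cast at hkL
    linarith
  obtain ⟨E, hE⟩ : ∃ E : ℝ, E = L ^ j / j.factorial := ⟨_, rfl⟩
  have hE0 : 0 < E := by
    rw [hE]
    have : (0 : ℝ) < j.factorial := by exact_mod_cast j.factorial_pos
    positivity
  rw [← hE]
  have hjk : (j : ℝ) / L ≤ ((j + 1 : ℕ) : ℝ) / L := by
    push_cast
    gcongr
    linarith
  have hkL0 : 0 ≤ ((j + 1 : ℕ) : ℝ) / L := by positivity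
  have hjL0 : 0 ≤ (j : ℝ) / L := by positivity
  rcases Nat.eq_zero_or_pos j with hj0 | hj0
  · subst hj0
    rw [Finset.powersetCard_zero, Finset.filter_singleton]
    have h0 : ((dg (∅ : Finset K[X]) : ℕ) : ℝ) ≤ θ * d := by
      unfold dg
      rw [Finset.sum_empty, Nat.cast_zero]
      positivity
    rw [if_pos h0, Finset.sum_singleton, Finset.prod_empty, hE]
    rw [pow_zero, Nat.factorial_zero, Nat.cast_one, div_one, sub_self, abs_zero]
    positivity
  · have hsE := h2 K[X] (PP K z) xP (fun P => (P.natDegree : ℝ)) xP_nonneg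
      (fun P => Nat.cast_nonneg _)
    rw [← hT] at hsE
    have hcore := core (A := A) (e := es (PP K z) xP j) hL0 hc0.le (by linarith) (by linarith)
      hC₁ hT1 hT2 hjL (hsE.1 j) (fun h => by
        subst h
        rw [hT]
        unfold es
        rw [Finset.powersetCard_one, Finset.sum_map]
        exact Finset.sum_congr rfl fun P _ => Finset.prod_singleton _ _) (fun i hi => by
        subst hi
        refine le_trans ?_ (hsE.2.1 i)
        have h3 : ((i : ℝ) + 2) ^ 2 * (∑ P ∈ PP K z, xP P ^ 2) * T ^ i ≤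
            ((i : ℝ) + 2) ^ 2 * C₁ * T ^ i := by
          have hT0 : 0 ≤ T := by linarith
          refine mul_le_mul_of_nonneg_right (mul_le_mul_of_nonneg_left hm.2 (by positivity))
            (by positivity)
        linarith) hj0
    rw [← hE, ← hX] at hcore
    obtain ⟨hup, hlow⟩ := hcore
    -- the tail
    obtain ⟨i, rfl⟩ : ∃ i, j = i + 1 := ⟨j - 1, by omega⟩
    have htail := tail h2 hθ (d := d) (z := z) (by omega) (PP K z) (hdeg z) (by omega) i
    have hsplit := Finset.sum_filter_add_sum_filter_not ((PP K z).powersetCard (i + 1))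
      (fun S => (dg S : ℝ) ≤ θ * d) (fun S => ∏ P ∈ S, xP P)
    have hnot : ((PP K z).powersetCard (i + 1)).filter (fun S => ¬ (dg S : ℝ) ≤ θ * d) =
        ((PP K z).powersetCard (i + 1)).filter (fun S => θ * d < (dg S : ℝ)) :=
      Finset.filter_congr fun S _ => not_le
    rw [hnot] at hsplit
    have hes : ∑ S ∈ (PP K z).powersetCard (i + 1), ∏ P ∈ S, xP P = es (PP K z) xP (i + 1) := rfl
    rw [hes] at hsplit
    have htail0 : 0 ≤ ∑ S ∈ ((PP K z).powersetCard (i + 1)).filter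
        (fun S => θ * d < (dg S : ℝ)), ∏ P ∈ S, xP P :=
      Finset.sum_nonneg fun S _ => Finset.prod_nonneg fun P _ => xP_nonneg P
    have hei : es (PP K z) xP i ≤ X * (((i + 1 : ℕ) : ℝ) / L) * E := by
      have hf : (0 : ℝ) < i.factorial := by exact_mod_cast i.factorial_pos
      have k1 := hsE.1 i
      have k2 : T ^ i ≤ L ^ i * X := by
        rw [hX]
        refine (pow_le_pow_left₀ (by linarith) hT2 i).trans (pow_up hL0 hc0.le ?_)
        push_cast at hjL
        linarith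
      have k3 : X * (((i + 1 : ℕ) : ℝ) / L) * E = L ^ i * X / i.factorial := by
        rw [hE, Nat.factorial_succ]
        push_cast
        have : (0 : ℝ) < (i : ℝ) + 1 := by positivity
        field_simp
        ring
      rw [k3, le_div_iff₀ hf]
      linarith
    have htail2 : ∑ S ∈ ((PP K z).powersetCard (i + 1)).filter
        (fun S => θ * d < (dg S : ℝ)), ∏ P ∈ S, xP P ≤
          1 / θ * X * (((i + 1 : ℕ) : ℝ) / L) * E := by
      refine htail.trans ?_
      have : 1 / θ * es (PP K z) xP i ≤ 1 / θ * (X * (((i + 1 : ℕ) : ℝ) / L) * E) :=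
        mul_le_mul_of_nonneg_left hei (by positivity)
      calc _ ≤ _ := this
        _ = _ := by ring
    have m1 : c * X * (((i + 1 : ℕ) : ℝ) / L) * E ≤
        c * X * (((i + 1 + 1 : ℕ) : ℝ) / L) * E := by gcongr
    have m2 : (c + C₁ * A * X) * (((i + 1 : ℕ) : ℝ) / L) * E ≤
        (c + C₁ * A * X) * (((i + 1 + 1 : ℕ) : ℝ) / L) * E := by gcongr
    have m3 : 1 / θ * X * (((i + 1 : ℕ) : ℝ) / L) * E ≤
        1 / θ * X * (((i + 1 + 1 : ℕ) : ℝ) / L) * E := by gcongr
    have m4 : 0 ≤ c * X * (((i + 1 + 1 : ℕ) : ℝ) / L) * E := by positivity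
    have m5 : 0 ≤ (c + C₁ * A * X) * (((i + 1 + 1 : ℕ) : ℝ) / L) * E := by positivity
    have m6 : 0 ≤ 1 / θ * X * (((i + 1 + 1 : ℕ) : ℝ) / L) * E := by positivity
    have m7 : (c * X + (c + C₁ * A * X) + 1 / θ * X) * (((i + 1 + 1 : ℕ) : ℝ) / L) * E =
        c * X * (((i + 1 + 1 : ℕ) : ℝ) / L) * E +
        (c + C₁ * A * X) * (((i + 1 + 1 : ℕ) : ℝ) / L) * E +
        1 / θ * X * (((i + 1 + 1 : ℕ) : ℝ) / L) * E := by ring
    rw [m7, abs_le]
    constructor
    · linarith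
    · linarith

end Pool.Agent.H290.PK.PMain
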