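import Pool.Agent.H290.PK.Stm

/-!
# Mertens estimates in `K[X]` (helper333)

The count of the irreducible polynomials is copied from `Pool/Agent/H525/FF/Count.lean` (helper525).
-/

set_option autoImplicit false

namespace Pool.Agent.H290.PK.PMer

open Polynomial Finset
open scoped Classical
open Pool.Agent.H290.CT (V M)

noncomputable section

variable {K : Type} [Field K] [Fintype K]

theorem mem_Ir {k : ℕ} {P : K[X]} : P ∈ irr K k ↔ P.Monic ∧ Irreducible P ∧ P.natDegree = k := by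
  unfold irr
  rw [mem_filter, Pool.Agent.H290.CT.mem_M]
  tauto

theorem pos_of_mem {k : ℕ} {P : K[X]} (h : P ∈ irr K k) : 1 ≤ k := by
  rw [mem_Ir] at h
  rw [← h.2.2]
  exact natDegree_pos_iff_degree_pos.2 (degree_pos_of_irreducible h.2.1)

variable (K) in
/-- the number of the monic irreducible polynomials of degree `k` -/
def NI (k : ℕ) : ℕ := (irr K k).card

theorem NI_zero : NI K 0 = 0 := by
  unfold NI
  rw [card_eq_zero, eq_empty_iff_forall_notMem]
  intro P hP
  have := pos_of_mem hP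
  omega

/-- the elements of the extension of degree `m` are the roots of the irreducible polynomials -/
theorem sum_NI (m : ℕ) (hm : 1 ≤ m) :
    ∑ k ∈ m.divisors, k * NI K k = Fintype.card K ^ m := by
  classical
  obtain ⟨p, hp⟩ := CharP.exists K
  have : Fact (Nat.Prime p) := ⟨CharP.char_is_prime K p⟩
  have : NeZero m := ⟨by omega⟩
  let E := FiniteField.Extension K p m
  let _ : Fintype E := Fintype.ofFinite E
  have hfr : Module.finrank K E = m := FiniteField.finrank_extension K p m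
  have hcard : Fintype.card E = Fintype.card K ^ m := by
    rw [Module.card_eq_pow_finrank (K := K) (V := E), hfr]
  have hdeg : ∀ x : E, (minpoly K x).natDegree ∣ m := by
    intro x
    have hx : IsIntegral K x := Algebra.IsIntegral.isIntegral x
    have h1 := Module.finrank_mul_finrank K (IntermediateField.adjoin K {x}) E
    rw [IntermediateField.adjoin.finrank hx] at h1
    have h2 : (minpoly K x).natDegree ∣ Module.finrank K E := ⟨_, h1.symm⟩
    have h3 : Module.finrank K E = m := hfr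
    rwa [h3] at h2
  have h1 : ∀ x ∈ (univ : Finset E), minpoly K x ∈ m.divisors.biUnion (fun k => irr K k) := by
    intro x _
    have hx : IsIntegral K x := Algebra.IsIntegral.isIntegral x
    rw [mem_biUnion]
    exact ⟨(minpoly K x).natDegree, Nat.mem_divisors.2 ⟨hdeg x, by omega⟩,
      mem_Ir.2 ⟨minpoly.monic hx, minpoly.irreducible hx, rfl⟩⟩
  have h2 : Fintype.card E = ∑ P ∈ m.divisors.biUnion (fun k => irr K k),
      (univ.filter (fun x : E => minpoly K x = P)).card := by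
    rw [← Finset.card_univ, Finset.card_eq_sum_card_fiberwise h1]
  rw [← hcard, h2, Finset.sum_biUnion]
  · apply sum_congr rfl
    intro k hk
    have h3 : ∀ P ∈ irr K k, (univ.filter (fun x : E => minpoly K x = P)).card = k := by
      intro P hP
      rw [mem_Ir] at hP
      obtain ⟨hmon, hirr, hk'⟩ := hP
      have h3 : univ.filter (fun x : E => minpoly K x = P) = (P.rootSet E).toFinset := by
        ext x
        rw [mem_filter, Set.mem_toFinset, mem_rootSet]
        constructor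
        · rintro ⟨_, rfl⟩
          exact ⟨hmon.ne_zero, minpoly.aeval K x⟩
        · rintro ⟨_, h⟩
          exact ⟨mem_univ _, (minpoly.eq_of_irreducible_of_monic hirr h hmon).symm⟩
      have hsplit : (P.map (algebraMap K E)).Splits := by
        have h4 : P ∣ X ^ (Nat.card K) ^ m - X :=
          (hirr.natDegree_dvd_iff_dvd_X_pow_card_pow_sub_X).1 (hk' ▸ Nat.dvd_of_mem_divisors hk)
        have h5 : (P.map (algebraMap K E)) ∣ (X ^ (Nat.card K) ^ m - X : E[X]) := by
          have := Polynomial.map_dvd (algebraMap K E) h4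
          simpa using this
        have hcard : (Nat.card K) ^ m = Fintype.card E := by
          rw [Nat.card_eq_fintype_card, hcard]
        rw [hcard] at h5
        have h6 : (X ^ Fintype.card E - X : E[X]).Splits := by
          rw [splits_iff_card_roots, FiniteField.roots_X_pow_card_sub_X,
            FiniteField.X_pow_card_sub_X_natDegree_eq _ Fintype.one_lt_card]
          rfl
        exact h6.of_dvd (FiniteField.X_pow_card_sub_X_ne_zero _ Fintype.one_lt_card) h5
      rw [h3, Set.toFinset_card, card_rootSet_eq_natDegree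
        (PerfectField.separable_of_irreducible hirr) hsplit, hk']
    rw [sum_congr rfl h3, sum_const, smul_eq_mul, mul_comm]
    rfl
  · intro k _ l _ hkl
    change Disjoint _ _
    rw [Finset.disjoint_left]
    intro P h1 h2
    rw [mem_Ir] at h1 h2
    exact hkl (h1.2.2.symm.trans h2.2.2)

theorem NI_le (k : ℕ) (hk : 1 ≤ k) : k * NI K k ≤ Fintype.card K ^ k := by
  rw [← sum_NI k hk]
  exact Finset.single_le_sum (f := fun j => j * NI K j) (fun _ _ => Nat.zero_le _)
    (Nat.mem_divisors.2 ⟨dvd_rfl, by omega⟩)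

theorem NI_ge (k : ℕ) (hk : 1 ≤ k) :
    Fintype.card K ^ k ≤ k * NI K k + 2 * Fintype.card K ^ (k / 2) := by
  have hq : 2 ≤ Fintype.card K := Fintype.one_lt_card
  have h0 := sum_NI (K := K) k hk
  have h1 : k.divisors = insert k k.properDivisors := by
    rw [Nat.insert_self_properDivisors (by omega)]
  rw [h1, sum_insert Nat.self_notMem_properDivisors] at h0
  have h2 : ∑ j ∈ k.properDivisors, j * NI K j ≤ ∑ j ∈ Finset.Icc 1 (k / 2), Fintype.card K ^ j := by
    refine le_trans (Finset.sum_le_sum_of_subset_of_nonneg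
      (t := Finset.Icc 1 (k / 2)) ?_ (fun _ _ _ => Nat.zero_le _)) ?_
    · intro j hj
      rw [Nat.mem_properDivisors] at hj
      obtain ⟨⟨c, hc⟩, hlt⟩ := hj
      have hj0 : 1 ≤ j := by
        rcases Nat.eq_zero_or_pos j with rfl | h
        · omega
        · exact h
      have hc2 : 2 ≤ c := by
        rcases c with _ | _ | c
        · omega
        · omega
        · omega
      rw [mem_Icc]
      refine ⟨hj0, ?_⟩
      rw [Nat.le_div_iff_mul_le (by norm_num)]
      rw [hc]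
      exact Nat.mul_le_mul_left j hc2
    · apply Finset.sum_le_sum
      intro j hj
      exact NI_le j (mem_Icc.1 hj).1
  have h3 : ∀ n : ℕ, ∑ j ∈ Finset.Icc 1 n, Fintype.card K ^ j ≤ 2 * Fintype.card K ^ n := by
    intro n
    induction n with
    | zero => simp
    | succ n ih =>
      rw [Finset.sum_Icc_succ_top (by omega), pow_succ]
      have : 2 * Fintype.card K ^ n ≤ Fintype.card K ^ n * Fintype.card K := by
        rw [mul_comm]
        exact Nat.mul_le_mul_left _ hq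
      omega
  have h4 := h3 (k / 2)
  omega


/-! ### Sums over irreducible polynomials -/

theorem sum_irr (n : ℕ) (g : ℕ → ℝ) : ∑ P ∈ irr K n, g P.natDegree = (NI K n : ℝ) * g n := by
  rw [sum_congr rfl fun P hP => by rw [(mem_Ir.1 hP).2.2], sum_const, nsmul_eq_mul]
  rfl

theorem pairwise_irr (s : Set ℕ) : s.PairwiseDisjoint (irr K) := by
  intro k _ l _ hkl
  change Disjoint _ _
  rw [Finset.disjoint_left]
  intro P h1 h2
  rw [mem_Ir] at h1 h2
  exact hkl (h1.2.2.symm.trans h2.2.2)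

theorem sum_PP (z : ℕ) (g : ℕ → ℝ) :
    ∑ P ∈ PP K z, g P.natDegree = ∑ n ∈ range z, (NI K n : ℝ) * g n := by
  classical
  have h1 : PP K z = (range z).biUnion (irr K) := by
    unfold PP
    ext P
    simp only [mem_biUnion]
  rw [h1, sum_biUnion (pairwise_irr _)]
  exact sum_congr rfl fun n _ => sum_irr n g

theorem range_eq (z : ℕ) (f : ℕ → ℝ) (h0 : f 0 = 0) : ∑ n ∈ range z, f n = ∑ n ∈ Ioo 0 z, f n := by
  symm
  refine sum_subset (fun n hn => mem_range.2 (mem_Ioo.1 hn).2) fun n hn hn' => ?_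
  have h1 : n = 0 := by
    by_contra h
    exact hn' (mem_Ioo.2 ⟨Nat.pos_of_ne_zero h, mem_range.1 hn⟩)
  rw [h1, h0]

theorem sum_PP' (z : ℕ) (g : ℕ → ℝ) :
    ∑ P ∈ PP K z, g P.natDegree = ∑ n ∈ Ioo 0 z, (NI K n : ℝ) * g n := by
  rw [sum_PP, range_eq]
  rw [NI_zero]
  simp

/-! ### The estimates for one degree -/

section one

variable (K)

/-- the number of elements of `K` -/
def q : ℝ := (Fintype.card K : ℝ)

theorem two_le_q : (2 : ℝ) ≤ q K := by
  unfold q
  exact_mod_cast Fintype.one_lt_card (α := K)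

theorem q_pow_ge (n : ℕ) : (n : ℝ) + 1 ≤ q K ^ n := by
  have h1 : ((n + 1 : ℕ) : ℝ) ≤ (2 : ℝ) ^ n := by
    exact_mod_cast Nat.lt_two_pow_self (n := n)
  have h2 : (2 : ℝ) ^ n ≤ q K ^ n := pow_le_pow_left₀ (by norm_num) (two_le_q K) n
  push_cast at h1
  linarith

theorem NI_le' (n : ℕ) : (n : ℝ) * NI K n ≤ q K ^ n := by
  rcases Nat.eq_zero_or_pos n with rfl | hn
  · simp
  · have := NI_le (K := K) n hn
    unfold q
    exact_mod_cast this

/-- the upper bound -/
theorem up (n : ℕ) (hn : 1 ≤ n) : (NI K n : ℝ) * (1 / (q K ^ n - 1)) ≤ 1 / n + 1 / (n : ℝ) ^ 2 := by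
  have h1 := NI_le' K n
  have h2 := q_pow_ge K n
  have hn' : (1 : ℝ) ≤ n := by exact_mod_cast hn
  have h3 : (0 : ℝ) < q K ^ n - 1 := by linarith
  rw [mul_one_div, div_le_iff₀ h3]
  have h4 : (NI K n : ℝ) ≤ q K ^ n / n := by
    rw [le_div_iff₀ (by positivity)]
    linarith
  refine h4.trans ?_
  have h5 : q K ^ n / n = (q K ^ n - 1) / n + 1 / n := by ring
  have h6 : (1 : ℝ) / n ≤ (q K ^ n - 1) / (n : ℝ) ^ 2 := by
    rw [div_le_div_iff₀ (by positivity) (by positivity)]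
    nlinarith
  have h7 : (1 / (n : ℝ) + 1 / (n : ℝ) ^ 2) * (q K ^ n - 1) =
      (q K ^ n - 1) / n + (q K ^ n - 1) / (n : ℝ) ^ 2 := by ring
  rw [h5, h7]
  linarith

/-- the lower bound -/
theorem lo (n : ℕ) (hn : 1 ≤ n) : 1 / (n : ℝ) - 4 / (n : ℝ) ^ 2 ≤ (NI K n : ℝ) * (1 / (q K ^ n - 1)) := by
  have h1 : q K ^ n ≤ n * (NI K n : ℝ) + 2 * q K ^ (n / 2) := by
    have := NI_ge (K := K) n hn
    unfold q
    exact_mod_cast this
  have h2 := q_pow_ge K n
  have hn' : (1 : ℝ) ≤ n := by exact_mod_cast hn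
  have hq0 : (0 : ℝ) < q K := by linarith [two_le_q K]
  have h3 : (0 : ℝ) < q K ^ n - 1 := by linarith
  have h4 : q K ^ (n / 2) * q K ^ (n - n / 2) = q K ^ n := by
    rw [← pow_add]
    congr 1
    omega
  have h5 := q_pow_ge K (n - n / 2)
  have h6 : (n : ℝ) / 2 ≤ ((n - n / 2 : ℕ) : ℝ) := by
    have : n ≤ 2 * (n - n / 2) := by omega
    have h : (n : ℝ) ≤ 2 * ((n - n / 2 : ℕ) : ℝ) := by exact_mod_cast this
    linarith
  have h7 : (n : ℝ) * q K ^ (n / 2) ≤ 2 * q K ^ n := by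
    rw [← h4]
    have h8 : (0 : ℝ) < q K ^ (n / 2) := by positivity
    nlinarith
  have h8 : (NI K n : ℝ) * (1 / q K ^ n) ≤ (NI K n : ℝ) * (1 / (q K ^ n - 1)) := by
    refine mul_le_mul_of_nonneg_left ?_ (Nat.cast_nonneg _)
    exact one_div_le_one_div_of_le h3 (by linarith)
  refine le_trans ?_ h8
  have h9 : (0 : ℝ) < q K ^ n := by positivity
  rw [mul_one_div, le_div_iff₀ h9]
  have h10 : (1 / (n : ℝ) - 4 / (n : ℝ) ^ 2) * q K ^ n =
      (n * q K ^ n - 4 * q K ^ n) / (n : ℝ) ^ 2 := by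
    field_simp
  rw [h10, div_le_iff₀ (by positivity)]
  nlinarith

/-- the sum of the squares -/
theorem sq (n : ℕ) (hn : 1 ≤ n) : (NI K n : ℝ) * (1 / (q K ^ n - 1)) ^ 2 ≤ 2 * ((n : ℝ) ^ 2)⁻¹ := by
  have h1 := up K n hn
  have h2 := q_pow_ge K n
  have hn' : (1 : ℝ) ≤ n := by exact_mod_cast hn
  have h3 : (0 : ℝ) < q K ^ n - 1 := by linarith
  have h4 : 1 / (q K ^ n - 1) ≤ 1 / n := one_div_le_one_div_of_le (by linarith) (by linarith)
  have h5 : 1 / (n : ℝ) + 1 / (n : ℝ) ^ 2 ≤ 2 / n := by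
    rw [div_add_div _ _ (by positivity) (by positivity), div_le_div_iff₀ (by positivity)
      (by positivity)]
    nlinarith [mul_pos (show (0 : ℝ) < n by linarith) (show (0 : ℝ) < n by linarith)]
  calc (NI K n : ℝ) * (1 / (q K ^ n - 1)) ^ 2
      = (NI K n : ℝ) * (1 / (q K ^ n - 1)) * (1 / (q K ^ n - 1)) := by ring
    _ ≤ (2 / n) * (1 / n) := by
        refine mul_le_mul (h1.trans h5) h4 (by positivity) (by positivity)
    _ = 2 * ((n : ℝ) ^ 2)⁻¹ := by
        field_simp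

end one

/-! ### The harmonic sum -/

theorem harm_eq (m : ℕ) : ((harmonic m : ℚ) : ℝ) = ∑ n ∈ Ioo 0 (m + 1), 1 / (n : ℝ) := by
  unfold harmonic
  push_cast
  have h1 : Ioo 0 (m + 1) = (range m).image (fun i => i + 1) := by
    ext n
    rw [mem_Ioo, mem_image]
    constructor
    · rintro ⟨h1, h2⟩
      exact ⟨n - 1, mem_range.2 (by omega), by omega⟩
    · rintro ⟨i, hi, rfl⟩
      rw [mem_range] at hi
      omega
  rw [h1, sum_image (fun a _ b _ h => by omega)]
  refine sum_congr rfl fun i _ => ?_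
  push_cast
  rw [one_div]

theorem harm (z : ℕ) (hz : 1 ≤ z) : Real.log z ≤ ∑ n ∈ Ioo 0 z, 1 / (n : ℝ) ∧
    ∑ n ∈ Ioo 0 z, 1 / (n : ℝ) ≤ 1 + Real.log z := by
  obtain ⟨m, rfl⟩ : ∃ m, z = m + 1 := ⟨z - 1, by omega⟩
  rw [← harm_eq]
  refine ⟨log_add_one_le_harmonic m, (harmonic_le_one_add_log m).trans ?_⟩
  rcases Nat.eq_zero_or_pos m with rfl | hm
  · simp
  · have : Real.log m ≤ Real.log ((m + 1 : ℕ) : ℝ) := by
      apply Real.log_le_log (by exact_mod_cast hm)
      push_cast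
      linarith
    linarith

theorem inv_sq (z : ℕ) : ∑ n ∈ Ioo 0 z, ((n : ℝ) ^ 2)⁻¹ ≤ 2 := by
  have h := sum_Ioo_inv_sq_le (α := ℝ) 0 z
  simpa using h

theorem exp_le {t s : ℝ} (hs0 : 0 ≤ s) (hs1 : s ≤ 1) :
    Real.exp (t * s) ≤ 1 + s * (Real.exp t - 1) := by
  have h := convexOn_exp.2 (Set.mem_univ (0 : ℝ)) (Set.mem_univ t) (sub_nonneg.2 hs1) hs0
    (by ring)
  simp only [smul_eq_mul, mul_zero, zero_add, Real.exp_zero, mul_one] at h
  rw [mul_comm t s]
  linarith

theorem main : Pool.Agent.H290.PK.SMer := by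
  intro K _ _
  have hx : ∀ P : K[X], xP P = (fun n : ℕ => 1 / (q K ^ n - 1)) P.natDegree := fun P => rfl
  have hup : ∀ z : ℕ, 1 ≤ z → ∑ P ∈ PP K z, xP P ≤ Real.log z + 3 := by
    intro z hz
    rw [sum_congr rfl fun P _ => hx P, sum_PP' z (fun n : ℕ => 1 / (q K ^ n - 1))]
    have h1 : ∑ n ∈ Ioo 0 z, (NI K n : ℝ) * (1 / (q K ^ n - 1)) ≤
        ∑ n ∈ Ioo 0 z, (1 / (n : ℝ) + ((n : ℝ) ^ 2)⁻¹) := by
      refine sum_le_sum fun n hn => ?_
      have := up K n (mem_Ioo.1 hn).1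
      rwa [one_div ((n : ℝ) ^ 2)] at this
    rw [sum_add_distrib] at h1
    have h2 := (harm z hz).2
    have h3 := inv_sq z
    linarith
  have hlo : ∀ z : ℕ, 1 ≤ z → Real.log z - 8 ≤ ∑ P ∈ PP K z, xP P := by
    intro z hz
    rw [sum_congr rfl fun P _ => hx P, sum_PP' z (fun n : ℕ => 1 / (q K ^ n - 1))]
    have h1 : ∑ n ∈ Ioo 0 z, (1 / (n : ℝ) - 4 * ((n : ℝ) ^ 2)⁻¹) ≤
        ∑ n ∈ Ioo 0 z, (NI K n : ℝ) * (1 / (q K ^ n - 1)) := by
      refine sum_le_sum fun n hn => ?_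
      have := lo K n (mem_Ioo.1 hn).1
      rwa [div_eq_mul_inv 4 ((n : ℝ) ^ 2)] at this
    rw [sum_sub_distrib, ← mul_sum] at h1
    have h2 := (harm z hz).1
    have h3 := inv_sq z
    linarith
  have hsq : ∀ (a z : ℕ), ∑ n ∈ Ioo a z, (NI K n : ℝ) * (1 / (q K ^ n - 1)) ^ 2 ≤
      4 / ((a : ℝ) + 1) := by
    intro a z
    have h1 : ∑ n ∈ Ioo a z, (NI K n : ℝ) * (1 / (q K ^ n - 1)) ^ 2 ≤
        ∑ n ∈ Ioo a z, 2 * ((n : ℝ) ^ 2)⁻¹ := by
      refine sum_le_sum fun n hn => ?_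
      have := (mem_Ioo.1 hn).1
      exact sq K n (by omega)
    rw [← mul_sum] at h1
    have h2 := sum_Ioo_inv_sq_le (α := ℝ) a z
    calc _ ≤ 2 * ∑ n ∈ Ioo a z, ((n : ℝ) ^ 2)⁻¹ := h1
      _ ≤ 2 * (2 / ((a : ℝ) + 1)) := by gcongr
      _ = 4 / ((a : ℝ) + 1) := by ring
  refine ⟨fun n _ => NI_le' K n, ⟨8, by norm_num, fun z hz => ⟨?_, ?_⟩⟩, ?_, ?_, ?_⟩
  · rw [abs_le]
    have h1 := hup z hz
    have h2 := hlo z hz
    constructor <;> linarith
  · rw [sum_congr rfl fun P _ => by rw [hx P], sum_PP' z (fun n : ℕ => (1 / (q K ^ n - 1)) ^ 2)]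
    refine (hsq 0 z).trans ?_
    norm_num
  · intro κ hκ
    obtain ⟨m, hm⟩ := exists_nat_gt (4 / κ)
    refine ⟨m + 1, fun z => ?_⟩
    have h1 : PP K z \ PP K (m + 1) ⊆ (Ioo m z).biUnion (irr K) := by
      intro P hP
      rw [mem_sdiff] at hP
      obtain ⟨h1, h2⟩ := hP
      unfold PP at h1 h2
      rw [mem_biUnion] at h1 h2
      obtain ⟨n, hn, hPn⟩ := h1
      rw [mem_biUnion]
      refine ⟨n, mem_Ioo.2 ⟨?_, mem_range.1 hn⟩, hPn⟩
      by_contra h
      exact h2 ⟨n, mem_range.2 (by omega), hPn⟩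
    have h2 : ∑ P ∈ PP K z \ PP K (m + 1), xP P ^ 2 ≤ ∑ P ∈ (Ioo m z).biUnion (irr K), xP P ^ 2 :=
      sum_le_sum_of_subset_of_nonneg h1 fun P _ _ => sq_nonneg _
    refine h2.trans ?_
    rw [sum_biUnion (pairwise_irr _)]
    have h3 : ∀ n ∈ Ioo m z, ∑ P ∈ irr K n, xP P ^ 2 = (NI K n : ℝ) * (1 / (q K ^ n - 1)) ^ 2 := by
      intro n _
      rw [sum_congr rfl fun P _ => by rw [hx P]]
      exact sum_irr n (fun n : ℕ => (1 / (q K ^ n - 1)) ^ 2)
    rw [sum_congr rfl h3]
    refine (hsq m z).trans ?_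
    rw [div_le_iff₀ (by positivity)]
    rw [div_lt_iff₀ hκ] at hm
    nlinarith
  · intro z
    have h0 : ∑ P ∈ PP K z, (P.natDegree : ℝ) * xP P =
        ∑ P ∈ PP K z, (fun n : ℕ => (n : ℝ) * (1 / (q K ^ n - 1))) P.natDegree := rfl
    rw [h0, sum_PP z (fun n : ℕ => (n : ℝ) * (1 / (q K ^ n - 1)))]
    have h1 : ∀ n ∈ range z, (NI K n : ℝ) * ((n : ℝ) * (1 / (q K ^ n - 1))) ≤ 2 := by
      intro n _
      rcases Nat.eq_zero_or_pos n with rfl | hn
      · simp
      · have h2 := up K n hn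
        have hn' : (1 : ℝ) ≤ n := by exact_mod_cast hn
        have h3 : (n : ℝ) * ((NI K n : ℝ) * (1 / (q K ^ n - 1))) ≤
            n * (1 / n + 1 / (n : ℝ) ^ 2) := by gcongr
        have h4 : (n : ℝ) * (1 / n + 1 / (n : ℝ) ^ 2) = 1 + 1 / n := by
          field_simp
        have h5 : (1 : ℝ) / n ≤ 1 := by
          rw [div_le_one (by linarith)]
          exact hn'
        rw [h4] at h3
        linarith
    have h6 := sum_le_sum h1
    rw [sum_const, card_range, nsmul_eq_mul] at h6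
    linarith
  · intro t ht
    refine ⟨3 + 2 * (Real.exp t - 1), ?_, fun w hw => ?_⟩
    · have := Real.add_one_le_exp t
      linarith
    have h0 : ∑ P ∈ PP K (w + 1), Real.exp (t * P.natDegree / w) * xP P =
        ∑ P ∈ PP K (w + 1), (fun n : ℕ => Real.exp (t * n / w) * (1 / (q K ^ n - 1)))
          P.natDegree := rfl
    rw [h0, sum_PP' (w + 1) (fun n : ℕ => Real.exp (t * n / w) * (1 / (q K ^ n - 1)))]
    have hw' : (1 : ℝ) ≤ w := by exact_mod_cast hw
    have hE : 0 ≤ Real.exp t - 1 := by linarith [Real.add_one_le_exp t]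
    have h1 : ∀ n ∈ Ioo 0 (w + 1), (NI K n : ℝ) * (Real.exp (t * n / w) * (1 / (q K ^ n - 1))) ≤
        1 / (n : ℝ) + ((n : ℝ) ^ 2)⁻¹ + 2 * (Real.exp t - 1) / w := by
      intro n hn
      rw [mem_Ioo] at hn
      have hn1 : 1 ≤ n := hn.1
      have hn' : (1 : ℝ) ≤ n := by exact_mod_cast hn1
      have hnw : (n : ℝ) ≤ w := by exact_mod_cast (by omega : n ≤ w)
      have h2 := up K n hn1
      have h3 : Real.exp (t * n / w) ≤ 1 + n / w * (Real.exp t - 1) := by
        have := exp_le (t := t) (s := (n : ℝ) / w) (by positivity)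
          (by rw [div_le_one (by linarith)]; exact hnw)
        rwa [← mul_div_assoc] at this
      have h4 : (0 : ℝ) ≤ (NI K n : ℝ) * (1 / (q K ^ n - 1)) := by
        have := q_pow_ge K n
        have h5 : (0 : ℝ) < q K ^ n - 1 := by linarith
        positivity
      have h5 : (0 : ℝ) ≤ 1 / (n : ℝ) + 1 / (n : ℝ) ^ 2 := by positivity
      calc (NI K n : ℝ) * (Real.exp (t * n / w) * (1 / (q K ^ n - 1)))
          = (NI K n : ℝ) * (1 / (q K ^ n - 1)) * Real.exp (t * n / w) := by ring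
        _ ≤ (1 / (n : ℝ) + 1 / (n : ℝ) ^ 2) * (1 + n / w * (Real.exp t - 1)) :=
            mul_le_mul h2 h3 (Real.exp_pos _).le h5
        _ = 1 / (n : ℝ) + ((n : ℝ) ^ 2)⁻¹ + (1 + 1 / n) * ((Real.exp t - 1) / w) := by
            field_simp
        _ ≤ 1 / (n : ℝ) + ((n : ℝ) ^ 2)⁻¹ + 2 * ((Real.exp t - 1) / w) := by
            have h6 : (1 : ℝ) / n ≤ 1 := by
              rw [div_le_one (by linarith)]
              exact hn'
            have h7 : 0 ≤ (Real.exp t - 1) / w := by positivity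
            nlinarith
        _ = 1 / (n : ℝ) + ((n : ℝ) ^ 2)⁻¹ + 2 * (Real.exp t - 1) / w := by ring
    refine (sum_le_sum h1).trans ?_
    rw [sum_add_distrib, sum_add_distrib, sum_const, Nat.card_Ioo, nsmul_eq_mul]
    have h2 := inv_sq (w + 1)
    have h3 : ∑ n ∈ Ioo 0 (w + 1), 1 / (n : ℝ) ≤ 1 + Real.log w := by
      rw [← harm_eq]
      exact harmonic_le_one_add_log w
    have h4 : (((w + 1 - 0 - 1 : ℕ)) : ℝ) * (2 * (Real.exp t - 1) / w) = 2 * (Real.exp t - 1) := by
      have : w + 1 - 0 - 1 = w := by omega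
      rw [this]
      field_simp
    rw [h4]
    linarith

end

end Pool.Agent.H290.PK.PMer
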