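import Pool.Agent.H290.PK.Stm

/-!
# Selberg's sieve in `K[X]` (helper721, for helper290)
-/

set_option autoImplicit false

namespace Pool.Agent.H290.PK.PSel

open Polynomial Finset
open scoped Classical
open Pool.Agent.H290.CT (V M mem_V card_V mem_M)

/-! ### the quadratic form -/

section abstract_form

variable {ι : Type} [DecidableEq ι]

theorem sum_neg_one (x : Finset ι) :
    ∑ t ∈ x.powerset, (-1 : ℝ) ^ t.card = if x = ∅ then 1 else 0 := by
  have h := Finset.prod_one_add (f := fun _ : ι => (-1 : ℝ)) x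
  simp only [Finset.prod_const] at h
  rw [← h]
  by_cases hx : x = ∅
  · rw [hx]
    simp
  · rw [if_neg hx, add_neg_cancel, zero_pow]
    exact (Finset.card_pos.2 (Finset.nonempty_iff_ne_empty.2 hx)).ne'

theorem sum_between (U W : Finset ι) :
    ∑ T ∈ W.powerset, (if U ⊆ T then (-1 : ℝ) ^ T.card else 0) =
      if U = W then (-1 : ℝ) ^ U.card else 0 := by
  by_cases hUW : U ⊆ W
  · have h1 : ∑ T ∈ W.powerset, (if U ⊆ T then (-1 : ℝ) ^ T.card else 0) =
        ∑ t ∈ (W \ U).powerset, (-1 : ℝ) ^ U.card * (-1 : ℝ) ^ t.card := by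
      rw [← Finset.sum_filter]
      refine Finset.sum_nbij' (fun T => T \ U) (fun t => U ∪ t) ?_ ?_ ?_ ?_ ?_
      · intro T hT
        rw [Finset.mem_filter, Finset.mem_powerset] at hT
        rw [Finset.mem_powerset]
        exact Finset.sdiff_subset_sdiff hT.1 (Finset.Subset.refl U)
      · intro t ht
        rw [Finset.mem_powerset] at ht
        rw [Finset.mem_filter, Finset.mem_powerset]
        exact ⟨Finset.union_subset hUW (ht.trans Finset.sdiff_subset),
          Finset.subset_union_left⟩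
      · intro T hT
        rw [Finset.mem_filter] at hT
        exact Finset.union_sdiff_of_subset hT.2
      · intro t ht
        rw [Finset.mem_powerset] at ht
        have hd : Disjoint t U := Finset.disjoint_of_subset_left ht Finset.sdiff_disjoint
        show (U ∪ t) \ U = t
        rw [Finset.union_sdiff_left, Finset.sdiff_eq_self_of_disjoint hd]
      · intro T hT
        rw [Finset.mem_filter] at hT
        rw [← pow_add]
        congr 1
        have := Finset.card_sdiff_add_card_eq_card hT.2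
        omega
    rw [h1, ← Finset.mul_sum, sum_neg_one]
    by_cases hE : U = W
    · rw [if_pos hE, if_pos (by rw [hE, Finset.sdiff_self]), mul_one]
    · rw [if_neg hE, if_neg, mul_zero]
      intro hc
      rw [Finset.sdiff_eq_empty_iff_subset] at hc
      exact hE (Finset.Subset.antisymm hUW hc)
  · rw [if_neg (fun h => hUW (by rw [h]))]
    refine Finset.sum_eq_zero fun T hT => ?_
    rw [if_neg fun h => hUW (h.trans (Finset.mem_powerset.1 hT))]

theorem form (F : Finset (Finset ι)) (hF : ∀ T ∈ F, ∀ U ⊆ T, U ∈ F) (h : ι → ℝ)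
    (hh : ∀ T ∈ F, ∀ i ∈ T, h i ≠ 0) (g : Finset ι → ℝ) (hg : ∀ T, g T = ∏ i ∈ T, (h i)⁻¹)
    (L : ℝ) (hL : L = ∑ T ∈ F, g T) (hL0 : L ≠ 0) (m : Finset ι → ℝ)
    (hm : ∀ T, m T = (-1) ^ T.card * (∑ W ∈ F, if T ⊆ W then g W else 0) / L) :
    ∑ T ∈ F, ∑ T' ∈ F, m T * m T' * ∏ i ∈ T ∩ T', (1 + h i) = 1 / L := by
  -- the sums `y`
  have hy : ∀ U ∈ F, ∑ T ∈ F, (if U ⊆ T then m T else 0) = (-1) ^ U.card * g U / L := by
    intro U hU
    have h1 : ∀ T ∈ F, (if U ⊆ T then m T else 0) =
        ∑ W ∈ F, (g W / L) * (if T ⊆ W then (if U ⊆ T then (-1 : ℝ) ^ T.card else 0) else 0) := by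
      intro T _
      by_cases hUT : U ⊆ T
      · rw [if_pos hUT, hm, Finset.mul_sum, Finset.sum_div]
        refine Finset.sum_congr rfl fun W _ => ?_
        by_cases hTW : T ⊆ W
        · rw [if_pos hTW, if_pos hTW, if_pos hUT]
          ring
        · rw [if_neg hTW, if_neg hTW]
          ring
      · rw [if_neg hUT]
        symm
        refine Finset.sum_eq_zero fun W _ => ?_
        rw [if_neg hUT]
        simp
    rw [Finset.sum_congr rfl h1, Finset.sum_comm]
    have h2 : ∀ W ∈ F, ∑ T ∈ F,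
        (g W / L) * (if T ⊆ W then (if U ⊆ T then (-1 : ℝ) ^ T.card else 0) else 0) =
        (g W / L) * (if U = W then (-1 : ℝ) ^ U.card else 0) := by
      intro W hW
      rw [← Finset.mul_sum, ← sum_between, ← Finset.sum_filter]
      congr 1
      refine Finset.sum_congr ?_ fun _ _ => rfl
      ext T
      rw [Finset.mem_filter, Finset.mem_powerset]
      exact ⟨fun h => h.2, fun h => ⟨hF W hW T h, h⟩⟩
    rw [Finset.sum_congr rfl h2, Finset.sum_eq_single U]
    · rw [if_pos rfl]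
      ring
    · intro W _ hWU
      rw [if_neg (fun h => hWU h.symm), mul_zero]
    · intro hc
      exact absurd hU hc
  -- diagonalisation
  have h3 : ∀ T ∈ F, ∀ T' ∈ F, m T * m T' * ∏ i ∈ T ∩ T', (1 + h i) =
      ∑ U ∈ F, (∏ i ∈ U, h i) * ((if U ⊆ T then m T else 0) * (if U ⊆ T' then m T' else 0)) := by
    intro T hT T' hT'
    have h4 : (T ∩ T').powerset = F.filter (fun U => U ⊆ T ∧ U ⊆ T') := by
      ext U
      rw [Finset.mem_filter, Finset.mem_powerset, Finset.subset_inter_iff]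
      exact ⟨fun h => ⟨hF T hT U h.1, h⟩, fun h => h.2⟩
    rw [Finset.prod_one_add, h4, Finset.sum_filter, Finset.mul_sum]
    refine Finset.sum_congr rfl fun U _ => ?_
    by_cases h5 : U ⊆ T
    · by_cases h6 : U ⊆ T'
      · rw [if_pos ⟨h5, h6⟩, if_pos h5, if_pos h6]
        ring
      · rw [if_neg (fun h => h6 h.2), if_neg h6]
        ring
    · rw [if_neg (fun h => h5 h.1), if_neg h5]
      ring
  have h4 : ∑ T ∈ F, ∑ T' ∈ F, m T * m T' * ∏ i ∈ T ∩ T', (1 + h i) =
      ∑ U ∈ F, (∏ i ∈ U, h i) * ((∑ T ∈ F, (if U ⊆ T then m T else 0)) *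
        ∑ T' ∈ F, (if U ⊆ T' then m T' else 0)) := by
    rw [Finset.sum_congr rfl fun T hT => Finset.sum_congr rfl fun T' hT' => h3 T hT T' hT']
    have h5 : ∀ T ∈ F, ∑ T' ∈ F, ∑ U ∈ F, (∏ i ∈ U, h i) *
        ((if U ⊆ T then m T else 0) * (if U ⊆ T' then m T' else 0)) =
        ∑ U ∈ F, (∏ i ∈ U, h i) * ((if U ⊆ T then m T else 0) *
          ∑ T' ∈ F, (if U ⊆ T' then m T' else 0)) := by
      intro T _
      rw [Finset.sum_comm]
      refine Finset.sum_congr rfl fun U _ => ?_
      rw [Finset.mul_sum, Finset.mul_sum]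
    rw [Finset.sum_congr rfl h5, Finset.sum_comm]
    refine Finset.sum_congr rfl fun U _ => ?_
    rw [← Finset.mul_sum, ← Finset.sum_mul]
  rw [h4]
  have h5 : ∀ U ∈ F, (∏ i ∈ U, h i) * ((∑ T ∈ F, (if U ⊆ T then m T else 0)) *
        ∑ T' ∈ F, (if U ⊆ T' then m T' else 0)) = g U / L ^ 2 := by
    intro U hU
    rw [hy U hU]
    have h6 : (∏ i ∈ U, h i) * g U = 1 := by
      rw [hg, ← Finset.prod_mul_distrib]
      exact Finset.prod_eq_one fun i hi => mul_inv_cancel₀ (hh U hU i hi)
    have h7 : ((-1 : ℝ) ^ U.card) * (-1) ^ U.card = 1 := by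
      rw [← mul_pow]
      norm_num
    calc (∏ i ∈ U, h i) * ((-1) ^ U.card * g U / L * ((-1) ^ U.card * g U / L))
        = ((∏ i ∈ U, h i) * g U) * (((-1 : ℝ) ^ U.card) * (-1) ^ U.card) * (g U / L ^ 2) := by
          field_simp
      _ = g U / L ^ 2 := by rw [h6, h7, one_mul, one_mul]
  rw [Finset.sum_congr rfl h5, ← Finset.sum_div, ← hL]
  field_simp

end abstract_form

/-! ### residue classes -/

section classes

variable {K : Type} [Field K] [Fintype K]

omit [Fintype K] in
theorem coprime_of_ne {P P' : K[X]} (hP : P.Monic ∧ Irreducible P) (hP' : P'.Monic ∧ Irreducible P')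
    (hne : P ≠ P') : IsCoprime P P' := by
  rw [hP.2.coprime_iff_not_dvd]
  intro hd
  exact hne (eq_of_monic_of_associated hP.1 hP'.1 ((hP.2.dvd_irreducible_iff_associated hP'.2).mp hd))

omit [Fintype K] in
theorem prod_dvd_iff {R : Finset K[X]} (hR : MI R) (f : K[X]) :
    ∏ P ∈ R, P ∣ f ↔ ∀ P ∈ R, P ∣ f := by
  constructor
  · intro h P hP
    exact (Finset.dvd_prod_of_mem (fun P => P) hP).trans h
  · intro h
    refine Finset.prod_dvd_of_coprime ?_ h
    intro P hP P' hP' hne
    exact coprime_of_ne (hR P hP) (hR P' hP') hne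

omit [Fintype K] in
theorem crt {R : Finset K[X]} (hR : MI R) (c : K[X] → K[X]) :
    ∃ s : K[X], ∀ P ∈ R, P ∣ s - c P := by
  induction R using Finset.induction_on with
  | empty => exact ⟨0, fun P hP => absurd hP (Finset.notMem_empty P)⟩
  | insert Q R hQR ih =>
    obtain ⟨s, hs⟩ := ih fun P hP => hR P (Finset.mem_insert_of_mem hP)
    have hcop : IsCoprime Q (∏ P ∈ R, P) := by
      refine IsCoprime.prod_right fun P hP => ?_
      refine coprime_of_ne (hR Q (Finset.mem_insert_self Q R)) (hR P (Finset.mem_insert_of_mem hP)) ?_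
      rintro rfl
      exact hQR hP
    obtain ⟨a, b, hab⟩ := hcop
    refine ⟨a * Q * s + b * (∏ P ∈ R, P) * c Q, fun P hP => ?_⟩
    rw [Finset.mem_insert] at hP
    rcases hP with rfl | hP
    · have e : a * P * s + b * (∏ P ∈ R, P) * c P - c P =
          P * (a * s - a * c P) + (a * P + b * ∏ P ∈ R, P - 1) * c P := by ring
      rw [e, hab, sub_self, zero_mul, add_zero]
      exact dvd_mul_right _ _
    · have e : a * Q * s + b * (∏ P ∈ R, P) * c Q - c P =
          (s - c P) + (∏ P ∈ R, P) * (b * c Q - b * s) + (a * Q + b * ∏ P ∈ R, P - 1) * s := by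
        ring
      rw [e, hab, sub_self, zero_mul, add_zero]
      exact dvd_add (hs P hP) (dvd_mul_of_dvd_left (Finset.dvd_prod_of_mem (fun P => P) hP) _)

theorem count {R : Finset K[X]} (hR : MI R) (c : K[X] → K[X]) {N : ℕ} (hN : dg R ≤ N) :
    ((V K N).filter (fun s => ∀ P ∈ R, P ∣ s - c P)).card = Fintype.card K ^ (N - dg R) := by
  obtain ⟨s₀, hs₀⟩ := crt hR c
  obtain ⟨D, hD⟩ : ∃ D : K[X], D = ∏ P ∈ R, P := ⟨_, rfl⟩
  have hDm : D.Monic := by
    rw [hD]
    exact monic_prod_of_monic _ _ fun P hP => (hR P hP).1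
  have hDd : D.natDegree = dg R := by
    rw [hD, natDegree_prod_of_monic _ _ fun P hP => (hR P hP).1]
    rfl
  have hcond : ∀ s : K[X], (∀ P ∈ R, P ∣ s - c P) ↔ D ∣ s - s₀ := by
    intro s
    rw [hD, prod_dvd_iff hR]
    refine forall₂_congr fun P hP => ?_
    have h1 := hs₀ P hP
    constructor
    · intro h
      have := dvd_sub h h1
      rwa [sub_sub_sub_cancel_right] at this
    · intro h
      have := dvd_add h h1
      rwa [sub_add_sub_cancel] at this
  obtain ⟨r, hr⟩ : ∃ r : K[X], r = s₀ %ₘ D := ⟨_, rfl⟩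
  have hrd : r.degree < D.degree := by
    rw [hr]
    exact degree_modByMonic_lt _ hDm
  have hDdeg : D.degree = (dg R : ℕ) := by rw [degree_eq_natDegree hDm.ne_zero, hDd]
  have hrs : D ∣ r - s₀ := by
    have h1 := modByMonic_add_div s₀ D
    rw [← hr] at h1
    refine ⟨-(s₀ /ₘ D), ?_⟩
    calc r - s₀ = r - (r + D * (s₀ /ₘ D)) := by rw [h1]
      _ = _ := by ring
  rw [← card_V (K := K) (N - dg R)]
  symm
  refine Finset.card_bij (fun u _ => r + D * u) ?_ ?_ ?_
  · intro u hu
    rw [mem_V] at hu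
    rw [Finset.mem_filter, mem_V, hcond]
    constructor
    · refine lt_of_le_of_lt (degree_add_le _ _) (max_lt ?_ ?_)
      · rw [hDdeg] at hrd
        exact lt_of_lt_of_le hrd (by exact_mod_cast hN)
      · by_cases h0 : u = 0
        · rw [h0, mul_zero, degree_zero]
          exact WithBot.bot_lt_coe N
        · rw [degree_mul, hDdeg, degree_eq_natDegree h0]
          rw [degree_eq_natDegree h0] at hu
          have h1 : u.natDegree < N - dg R := by exact_mod_cast hu
          exact_mod_cast (by omega : dg R + u.natDegree < N)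
    · have e : r + D * u - s₀ = (r - s₀) + D * u := by ring
      rw [e]
      exact dvd_add hrs (dvd_mul_right _ _)
  · intro u _ u' _ h
    exact mul_left_cancel₀ hDm.ne_zero (add_left_cancel h)
  · intro s hs
    rw [Finset.mem_filter, mem_V, hcond] at hs
    obtain ⟨hs1, hs2⟩ := hs
    obtain ⟨u, hu⟩ : D ∣ s - r := by
      have := dvd_sub hs2 hrs
      rwa [sub_sub_sub_cancel_right] at this
    refine ⟨u, ?_, ?_⟩
    · rw [mem_V]
      by_cases h0 : u = 0
      · rw [h0, degree_zero]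
        exact WithBot.bot_lt_coe _
      · have h1 : (s - r).degree < (N : WithBot ℕ) := by
          refine lt_of_le_of_lt (degree_sub_le _ _) (max_lt hs1 ?_)
          rw [hDdeg] at hrd
          exact lt_of_lt_of_le hrd (by exact_mod_cast hN)
        rw [hu, degree_mul, hDdeg, degree_eq_natDegree h0] at h1
        have h2 : dg R + u.natDegree < N := by exact_mod_cast h1
        rw [degree_eq_natDegree h0]
        exact_mod_cast (by omega : u.natDegree < N - dg R)
    · rw [← hu]
      ring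

end classes

/-! ### the sieve -/

theorem main : Pool.Agent.H290.PK.SSel := by
  intro K _ _ N z S c hz hN
  obtain ⟨Pr, hPr⟩ : ∃ Pr : Finset K[X], Pr = PP K z \ S := ⟨_, rfl⟩
  rw [← hPr]
  have hMI : MI Pr := by
    intro P hP
    rw [hPr, Finset.mem_sdiff] at hP
    unfold PP irr at hP
    rw [Finset.mem_biUnion] at hP
    obtain ⟨⟨n, -, hn⟩, -⟩ := hP
    rw [Finset.mem_filter, mem_M] at hn
    exact ⟨hn.1.1, hn.2⟩
  obtain ⟨F, hF⟩ : ∃ F : Finset (Finset K[X]), F = (Pr.powerset).filter (fun T => dg T < z) :=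
    ⟨_, rfl⟩
  rw [← hF]
  have memF : ∀ T, T ∈ F ↔ T ⊆ Pr ∧ dg T < z := by
    intro T
    rw [hF, Finset.mem_filter, Finset.mem_powerset]
  have dgmono : ∀ T U : Finset K[X], U ⊆ T → dg U ≤ dg T := fun T U h =>
    Finset.sum_le_sum_of_subset h
  have hdown : ∀ T ∈ F, ∀ U ⊆ T, U ∈ F := by
    intro T hT U hU
    rw [memF] at hT ⊢
    exact ⟨hU.trans hT.1, lt_of_le_of_lt (dgmono T U hU) hT.2⟩
  obtain ⟨q, hq⟩ : ∃ q : ℝ, q = Fintype.card K := ⟨_, rfl⟩
  have hq2 : 2 ≤ q := by
    rw [hq]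
    exact_mod_cast Fintype.one_lt_card (α := K)
  rw [← hq]
  obtain ⟨h, hh⟩ : ∃ h : K[X] → ℝ, h = fun P => q ^ P.natDegree - 1 := ⟨_, rfl⟩
  have hhP : ∀ P, h P = q ^ P.natDegree - 1 := fun P => by rw [hh]
  have hpos : ∀ P ∈ Pr, 0 < h P := by
    intro P hP
    have h1 := (hMI P hP).2.natDegree_pos
    rw [hhP, sub_pos]
    exact one_lt_pow₀ (by linarith) h1.ne'
  obtain ⟨g, hg⟩ : ∃ g : Finset K[X] → ℝ, g = fun T => ∏ P ∈ T, (h P)⁻¹ := ⟨_, rfl⟩
  have hgT : ∀ T, g T = ∏ P ∈ T, (h P)⁻¹ := fun T => by rw [hg]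
  have hgx : ∀ T : Finset K[X], ∏ P ∈ T, xP P = g T := by
    intro T
    rw [hgT]
    refine Finset.prod_congr rfl fun P _ => ?_
    unfold xP
    rw [hhP, hq, one_div]
  have hg0 : ∀ T ∈ F, 0 < g T := by
    intro T hT
    rw [hgT]
    exact Finset.prod_pos fun P hP => inv_pos.2 (hpos P (((memF T).1 hT).1 hP))
  rw [Finset.sum_congr rfl fun T _ => hgx T]
  obtain ⟨L, hL⟩ : ∃ L : ℝ, L = ∑ T ∈ F, g T := ⟨_, rfl⟩
  rw [← hL]
  have hempty : (∅ : Finset K[X]) ∈ F := by
    rw [memF]
    refine ⟨Finset.empty_subset _, ?_⟩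
    unfold dg
    rw [Finset.sum_empty]
    omega
  have hL0 : 0 < L := by
    rw [hL]
    exact Finset.sum_pos hg0 ⟨∅, hempty⟩
  obtain ⟨m, hm⟩ : ∃ m : Finset K[X] → ℝ,
      m = fun T => (-1) ^ T.card * (∑ W ∈ F, if T ⊆ W then g W else 0) / L := ⟨_, rfl⟩
  have hmT : ∀ T, m T = (-1) ^ T.card * (∑ W ∈ F, if T ⊆ W then g W else 0) / L :=
    fun T => by rw [hm]
  have hform := form F hdown h (fun T hT P hP => (hpos P (((memF T).1 hT).1 hP)).ne') g hgT L hL
    hL0.ne' m hmT
  have hm1 : m ∅ = 1 := by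
    rw [hmT, Finset.card_empty, pow_zero, one_mul]
    have : ∑ W ∈ F, (if (∅ : Finset K[X]) ⊆ W then g W else 0) = L := by
      rw [hL]
      exact Finset.sum_congr rfl fun W _ => if_pos (Finset.empty_subset W)
    rw [this, div_self hL0.ne']
  -- the upper bound
  have hsq : (((V K N).filter (fun s => ∀ P ∈ Pr, ¬ P ∣ s - c P)).card : ℝ) ≤
      ∑ s ∈ V K N, (∑ T ∈ F, if ∀ P ∈ T, P ∣ s - c P then m T * q ^ dg T else 0) ^ 2 := by
    rw [← nsmul_one, ← Finset.sum_const, Finset.sum_filter]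
    refine Finset.sum_le_sum fun s _ => ?_
    split_ifs with h1
    · have h2 : ∑ T ∈ F, (if ∀ P ∈ T, P ∣ s - c P then m T * q ^ dg T else 0) = 1 := by
        rw [Finset.sum_eq_single ∅]
        · rw [if_pos (fun P hP => absurd hP (Finset.notMem_empty P)), hm1]
          unfold dg
          simp
        · intro T hT hT0
          rw [if_neg]
          intro h3
          obtain ⟨P, hP⟩ := Finset.nonempty_iff_ne_empty.2 hT0
          exact h1 P (((memF T).1 hT).1 hP) (h3 P hP)
        · intro h3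
          exact absurd hempty h3
      rw [h2]
      norm_num
    · positivity
  -- the quadratic form
  have hquad : ∑ s ∈ V K N, (∑ T ∈ F, if ∀ P ∈ T, P ∣ s - c P then m T * q ^ dg T else 0) ^ 2 =
      q ^ N * (1 / L) := by
    rw [← hform, Finset.mul_sum]
    have h1 : ∀ s ∈ V K N, (∑ T ∈ F, if ∀ P ∈ T, P ∣ s - c P then m T * q ^ dg T else 0) ^ 2 =
        ∑ T ∈ F, ∑ T' ∈ F, (m T * q ^ dg T) * (m T' * q ^ dg T') *
          (if ∀ P ∈ T ∪ T', P ∣ s - c P then 1 else 0) := by
      intro s _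
      rw [sq, Finset.sum_mul_sum]
      refine Finset.sum_congr rfl fun T _ => Finset.sum_congr rfl fun T' _ => ?_
      by_cases h2 : ∀ P ∈ T, P ∣ s - c P
      · by_cases h3 : ∀ P ∈ T', P ∣ s - c P
        · rw [if_pos h2, if_pos h3, if_pos, mul_one]
          intro P hP
          rcases Finset.mem_union.1 hP with h4 | h4
          · exact h2 P h4
          · exact h3 P h4
        · have h5 : ¬ ∀ P ∈ T ∪ T', P ∣ s - c P :=
            fun h4 => h3 fun P hP => h4 P (Finset.mem_union_right _ hP)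
          rw [if_neg h3, if_neg h5]
          ring
      · have h5 : ¬ ∀ P ∈ T ∪ T', P ∣ s - c P :=
          fun h4 => h2 fun P hP => h4 P (Finset.mem_union_left _ hP)
        rw [if_neg h2, if_neg h5]
        ring
    rw [Finset.sum_congr rfl h1, Finset.sum_comm]
    refine Finset.sum_congr rfl fun T hT => ?_
    rw [Finset.sum_comm, Finset.mul_sum]
    refine Finset.sum_congr rfl fun T' hT' => ?_
    rw [memF] at hT hT'
    rw [← Finset.mul_sum, Finset.sum_boole]
    have hMU : MI (T ∪ T') := fun P hP => hMI P (by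
      rcases Finset.mem_union.1 hP with h4 | h4
      · exact hT.1 h4
      · exact hT'.1 h4)
    have hdgU : dg (T ∪ T') + dg (T ∩ T') = dg T + dg T' := Finset.sum_union_inter
    have hle : dg (T ∪ T') ≤ N := by omega
    rw [count hMU c hle]
    have h5 : ∏ P ∈ T ∩ T', (1 + h P) = q ^ dg (T ∩ T') := by
      unfold dg
      rw [← Finset.prod_pow_eq_pow_sum]
      refine Finset.prod_congr rfl fun P _ => ?_
      rw [hhP]
      ring
    rw [h5]
    push_cast
    rw [← hq]
    have h6 : q ^ dg T * q ^ dg T' * q ^ (N - dg (T ∪ T')) = q ^ N * q ^ dg (T ∩ T') := by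
      rw [← pow_add, ← pow_add, ← pow_add]
      congr 1
      omega
    calc m T * q ^ dg T * (m T' * q ^ dg T') * q ^ (N - dg (T ∪ T'))
        = m T * m T' * (q ^ dg T * q ^ dg T' * q ^ (N - dg (T ∪ T'))) := by ring
      _ = q ^ N * (m T * m T' * q ^ dg (T ∩ T')) := by rw [h6]; ring
  rw [hquad] at hsq
  calc (((V K N).filter (fun s => ∀ P ∈ Pr, ¬ P ∣ s - c P)).card : ℝ) * L
      ≤ q ^ N * (1 / L) * L := mul_le_mul_of_nonneg_right hsq hL0.le
    _ = q ^ N := by field_simp

end Pool.Agent.H290.PK.PSel
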