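import Pool.Agent.H290.PK.Stm

/-!
# Lower bound for the denominator of Selberg's sieve in `K[X]` (by helper962)
-/

namespace Pool.Agent.H290.PK.PSel2

open Polynomial Finset
open scoped Classical

set_option linter.unusedSectionVars false

open Pool.Agent.H290.CT (V M mem_M card_M)
open Pool.Agent.H290.PK
open UniqueFactorizationMonoid (normalizedFactors)

variable {K : Type} [Field K] [Fintype K]

lemma one_lt_q : (1 : ℝ) < (Fintype.card K : ℝ) := by
  exact_mod_cast Fintype.one_lt_card

lemma q_pos : (0 : ℝ) < (Fintype.card K : ℝ) := lt_trans one_pos one_lt_q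

lemma one_lt_qP {P : K[X]} (hP : Irreducible P) : (1 : ℝ) < (Fintype.card K : ℝ) ^ P.natDegree :=
  one_lt_pow₀ one_lt_q hP.natDegree_pos.ne'

lemma xP_pos {P : K[X]} (hP : Irreducible P) : 0 < xP P := by
  unfold xP
  exact one_div_pos.mpr (sub_pos.mpr (one_lt_qP hP))

lemma mem_PP {z : ℕ} {P : K[X]} :
    P ∈ PP K z ↔ P.Monic ∧ Irreducible P ∧ P.natDegree < z := by
  unfold PP irr
  rw [mem_biUnion]
  constructor
  · rintro ⟨n, hn, h⟩
    rw [mem_filter, mem_M] at h
    refine ⟨h.1.1, h.2, ?_⟩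
    rw [h.1.2]
    exact mem_range.mp hn
  · rintro ⟨h1, h2, h3⟩
    exact ⟨P.natDegree, mem_range.mpr h3, mem_filter.mpr ⟨mem_M.mpr ⟨h1, rfl⟩, h2⟩⟩

lemma mem_pf {n : K[X]} (hn : n.Monic) {P : K[X]} :
    P ∈ pf n ↔ Irreducible P ∧ P.Monic ∧ P ∣ n := by
  unfold pf
  rw [Multiset.mem_toFinset, Polynomial.mem_normalizedFactors_iff hn.ne_zero]

/-- the factorization of a monic polynomial -/
lemma prod_count {n : K[X]} (hn : n.Monic) :
    ∏ P ∈ pf n, P ^ (normalizedFactors n).count P = n := by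
  have h0 := Finset.prod_multiset_count (normalizedFactors n)
  have h1 := UniqueFactorizationMonoid.prod_normalizedFactors hn.ne_zero
  have h2 : (∏ P ∈ pf n, P ^ (normalizedFactors n).count P).Monic := by
    apply monic_prod_of_monic
    intro P hP
    exact ((mem_pf hn).1 hP).2.1.pow _
  have h3 : (normalizedFactors n).prod = ∏ P ∈ pf n, P ^ (normalizedFactors n).count P := h0
  rw [h3] at h1
  exact eq_of_monic_of_associated h2 hn h1

lemma count_pos {n P : K[X]} (hP : P ∈ pf n) : 1 ≤ (normalizedFactors n).count P := by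
  unfold pf at hP
  rw [Multiset.mem_toFinset] at hP
  exact Multiset.one_le_count_iff_mem.2 hP

lemma natDegree_eq {n : K[X]} (hn : n.Monic) :
    n.natDegree = ∑ P ∈ pf n, (normalizedFactors n).count P * P.natDegree := by
  have h1 := congrArg natDegree (prod_count hn)
  rw [natDegree_prod_of_monic] at h1
  · rw [← h1]
    refine Finset.sum_congr rfl fun P hP => ?_
    rw [natDegree_pow]
  · intro P hP
    exact ((mem_pf hn).1 hP).2.1.pow _

/-- the monic polynomials with a given set of irreducible factors -/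
lemma fiber (z : ℕ) (T : Finset K[X]) (hT : MI T) (A : Finset K[X])
    (hA : ∀ n ∈ A, n.Monic ∧ n.natDegree < z ∧ pf n = T) :
    ∑ n ∈ A, (1 / (Fintype.card K : ℝ)) ^ n.natDegree ≤ ∏ P ∈ T, xP P := by
  have hq := q_pos (K := K)
  have h1 : ∏ P ∈ T, (∑ j ∈ Ico 1 z, ((1 / (Fintype.card K : ℝ)) ^ P.natDegree) ^ j) ≤
      ∏ P ∈ T, xP P := by
    apply Finset.prod_le_prod
    · intro P _
      exact Finset.sum_nonneg fun j _ => by positivity
    · intro P hP
      have h2 := one_lt_qP (hT P hP).2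
      have h3 : (1 / (Fintype.card K : ℝ)) ^ P.natDegree = 1 / (Fintype.card K : ℝ) ^ P.natDegree := by
        rw [one_div_pow]
      rw [h3]
      set Q : ℝ := (Fintype.card K : ℝ) ^ P.natDegree with hQ
      have h4 : ∀ w : ℕ, ∑ j ∈ Ico 1 (w + 1), (1 / Q) ^ j = (1 - (1 / Q) ^ w) / (Q - 1) := by
        intro w
        induction w with
        | zero => simp
        | succ w ih =>
          rw [Finset.sum_Ico_succ_top (by omega), ih, pow_succ]
          have e1 : Q - 1 ≠ 0 := by linarith
          have e2 : Q ≠ 0 := by linarith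
          generalize (1 / Q) ^ w = u
          field_simp
          ring
      unfold xP
      rw [← hQ]
      have h5 : 0 < Q - 1 := by linarith
      rcases z with _ | w
      · rw [Finset.Ico_eq_empty (by omega), Finset.sum_empty]
        positivity
      · rw [h4 w]
        apply div_le_div_of_nonneg_right _ h5.le
        have : 0 ≤ (1 / Q) ^ w := by positivity
        linarith
  refine le_trans ?_ h1
  rw [← Finset.prod_coe_sort, Finset.prod_univ_sum]
  have h2 : ∀ n ∈ A, (1 / (Fintype.card K : ℝ)) ^ n.natDegree =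
      ∏ P : T, ((1 / (Fintype.card K : ℝ)) ^ P.1.natDegree) ^ (normalizedFactors n).count P.1 := by
    intro n hn
    obtain ⟨hn1, hn2, hn3⟩ := hA n hn
    rw [Finset.prod_coe_sort T (fun P =>
      ((1 / (Fintype.card K : ℝ)) ^ P.natDegree) ^ (normalizedFactors n).count P)]
    rw [natDegree_eq hn1, hn3, ← Finset.prod_pow_eq_pow_sum]
    refine Finset.prod_congr rfl fun P _ => ?_
    rw [← pow_mul, mul_comm]
  rw [Finset.sum_congr rfl h2]
  have hinj : Set.InjOn (fun (n : K[X]) (P : T) => (normalizedFactors n).count P.1) (A : Set K[X]) := by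
    intro n hn n' hn' h
    obtain ⟨hn1, hn2, hn3⟩ := hA n hn
    obtain ⟨hn1', hn2', hn3'⟩ := hA n' hn'
    rw [← prod_count hn1, ← prod_count hn1', hn3, hn3']
    refine Finset.prod_congr rfl fun P hP => ?_
    have := congrFun h ⟨P, hP⟩
    simp only at this
    rw [this]
  rw [← Finset.sum_image (f := fun e : T → ℕ =>
    ∏ P : T, ((1 / (Fintype.card K : ℝ)) ^ P.1.natDegree) ^ e P) hinj]
  apply Finset.sum_le_sum_of_subset_of_nonneg
  · intro e he
    obtain ⟨n, hn, rfl⟩ := mem_image.1 he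
    obtain ⟨hn1, hn2, hn3⟩ := hA n hn
    rw [Fintype.mem_piFinset]
    rintro ⟨P, hP⟩
    have hP' : P ∈ pf n := by rw [hn3]; exact hP
    rw [mem_Ico]
    refine ⟨count_pos hP', ?_⟩
    have h3 := natDegree_eq hn1
    have h4 : (normalizedFactors n).count P * P.natDegree ≤ n.natDegree := by
      rw [h3]
      exact Finset.single_le_sum (f := fun P => (normalizedFactors n).count P * P.natDegree)
        (fun _ _ => Nat.zero_le _) hP'
    have h5 : 1 ≤ P.natDegree := (hT P hP).2.natDegree_pos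
    exact lt_of_le_of_lt (le_trans (Nat.le_mul_of_pos_right _ h5) h4) hn2
  · intro e _ _
    positivity

/-- the case `S = ∅` -/
lemma base (z : ℕ) : (z : ℝ) ≤
    ∑ T ∈ ((PP K z).powerset).filter (fun T => dg T < z), ∏ P ∈ T, xP P := by
  have hq := q_pos (K := K)
  obtain ⟨Mz, hMz⟩ : ∃ Mz : Finset K[X], Mz = (range z).biUnion (M K) := ⟨_, rfl⟩
  have hmem : ∀ n ∈ Mz, n.Monic ∧ n.natDegree < z := by
    intro n hn
    rw [hMz, mem_biUnion] at hn
    obtain ⟨d, hd, hn⟩ := hn
    rw [mem_M] at hn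
    exact ⟨hn.1, by rw [hn.2]; exact mem_range.mp hd⟩
  have h1 : (z : ℝ) = ∑ n ∈ Mz, (1 / (Fintype.card K : ℝ)) ^ n.natDegree := by
    rw [hMz, Finset.sum_biUnion]
    · have h2 : ∀ d ∈ range z, ∑ n ∈ M K d, (1 / (Fintype.card K : ℝ)) ^ n.natDegree = 1 := by
        intro d _
        have h3 : ∀ n ∈ M K d, (1 / (Fintype.card K : ℝ)) ^ n.natDegree =
            (1 / (Fintype.card K : ℝ)) ^ d := by
          intro n hn
          rw [(mem_M.1 hn).2]
        rw [Finset.sum_congr rfl h3, Finset.sum_const, card_M, nsmul_eq_mul, Nat.cast_pow,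
          ← mul_pow, mul_one_div_cancel hq.ne', one_pow]
      rw [Finset.sum_congr rfl h2, Finset.sum_const, card_range, nsmul_eq_mul, mul_one]
    · intro d _ d' _ hdd
      refine Finset.disjoint_left.2 fun n hn hn' => hdd ?_
      rw [← (mem_M.1 hn).2, ← (mem_M.1 hn').2]
  rw [h1]
  have hmaps : ∀ n ∈ Mz, pf n ∈ ((PP K z).powerset).filter (fun T => dg T < z) := by
    intro n hn
    obtain ⟨hn1, hn2⟩ := hmem n hn
    have hsum : dg (pf n) ≤ n.natDegree := by
      rw [natDegree_eq hn1]
      unfold dg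
      exact Finset.sum_le_sum fun P hP => Nat.le_mul_of_pos_left _ (count_pos hP)
    rw [mem_filter, mem_powerset]
    refine ⟨fun P hP => ?_, lt_of_le_of_lt hsum hn2⟩
    obtain ⟨h1, h2, h3⟩ := (mem_pf hn1).1 hP
    rw [mem_PP]
    exact ⟨h2, h1, lt_of_le_of_lt (natDegree_le_of_dvd h3 hn1.ne_zero) hn2⟩
  rw [← Finset.sum_fiberwise_of_maps_to hmaps]
  apply Finset.sum_le_sum
  intro T hT
  rw [mem_filter, mem_powerset] at hT
  apply fiber z T
  · intro P hP
    have := mem_PP.1 (hT.1 hP)
    exact ⟨this.1, this.2.1⟩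
  · intro n hn
    rw [mem_filter] at hn
    obtain ⟨hn1, hn2⟩ := hmem n hn.1
    exact ⟨hn1, hn2, hn.2⟩

/-- removing one irreducible polynomial -/
lemma step (z : ℕ) (S : Finset K[X]) (P : K[X]) (hP : Irreducible P) :
    ∑ T ∈ ((PP K z \ S).powerset).filter (fun T => dg T < z), ∏ Q ∈ T, xP Q ≤
    (1 + xP P) * ∑ T ∈ ((PP K z \ insert P S).powerset).filter (fun T => dg T < z),
      ∏ Q ∈ T, xP Q := by
  have hnn : ∀ T ∈ ((PP K z \ insert P S).powerset).filter (fun T => dg T < z),
      0 ≤ ∏ Q ∈ T, xP Q := by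
    intro T hT
    rw [mem_filter, mem_powerset] at hT
    refine Finset.prod_nonneg fun Q hQ => ?_
    exact (xP_pos (mem_PP.1 (mem_sdiff.1 (hT.1 hQ)).1).2.1).le
  rw [← Finset.sum_filter_add_sum_filter_not _ (fun T => P ∈ T), add_mul, one_mul, add_comm]
  apply add_le_add
  · apply Finset.sum_le_sum_of_subset_of_nonneg
    · intro T hT
      rw [mem_filter, mem_filter, mem_powerset] at hT
      rw [mem_filter, mem_powerset]
      refine ⟨fun Q hQ => ?_, hT.1.2⟩
      have h1 := mem_sdiff.1 (hT.1.1 hQ)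
      rw [mem_sdiff, mem_insert, not_or]
      refine ⟨h1.1, ?_, h1.2⟩
      rintro rfl
      exact hT.2 hQ
    · intro T hT _
      exact hnn T hT
  · have h1 : ∀ T ∈ (((PP K z \ S).powerset).filter (fun T => dg T < z)).filter (fun T => P ∈ T),
        ∏ Q ∈ T, xP Q = xP P * ∏ Q ∈ T.erase P, xP Q := by
      intro T hT
      rw [mem_filter] at hT
      rw [Finset.mul_prod_erase _ _ hT.2]
    rw [Finset.sum_congr rfl h1, ← Finset.mul_sum]
    apply mul_le_mul_of_nonneg_left _ (xP_pos hP).le
    have hinj : Set.InjOn (fun T : Finset K[X] => T.erase P)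
        ((((PP K z \ S).powerset).filter (fun T => dg T < z)).filter (fun T => P ∈ T) :
          Finset (Finset K[X])) := by
      intro T hT T' hT' h
      have h2 : P ∈ T := (mem_filter.1 (mem_coe.1 hT)).2
      have h3 : P ∈ T' := (mem_filter.1 (mem_coe.1 hT')).2
      simp only at h
      rw [← Finset.insert_erase h2, ← Finset.insert_erase h3, h]
    rw [← Finset.sum_image (f := fun T : Finset K[X] => ∏ Q ∈ T, xP Q) hinj]
    apply Finset.sum_le_sum_of_subset_of_nonneg
    · intro T' hT'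
      obtain ⟨T, hT, rfl⟩ := mem_image.1 hT'
      rw [mem_filter, mem_filter, mem_powerset] at hT
      rw [mem_filter, mem_powerset]
      refine ⟨fun Q hQ => ?_, ?_⟩
      · rw [mem_erase] at hQ
        have h1 := mem_sdiff.1 (hT.1.1 hQ.2)
        rw [mem_sdiff, mem_insert, not_or]
        exact ⟨h1.1, hQ.1, h1.2⟩
      · refine lt_of_le_of_lt ?_ hT.1.2
        unfold dg
        exact Finset.sum_le_sum_of_subset (erase_subset _ _)
    · intro T hT _
      exact hnn T hT

/-- **S_sel2.** -/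
theorem main : Pool.Agent.H290.PK.SSel2 := by
  intro K _ _ z S hS _
  induction S using Finset.induction_on with
  | empty =>
    rw [Finset.prod_empty, mul_one, sdiff_empty]
    exact base z
  | insert P S hPS ih =>
    have hP : Irreducible P := (hS P (mem_insert_self _ _)).2
    have ih := ih (fun Q hQ => hS Q (mem_insert_of_mem hQ))
    rw [Finset.prod_insert hPS]
    have h1 := one_lt_qP hP
    set Q : ℝ := (Fintype.card K : ℝ) ^ P.natDegree with hQ
    have h2 := step z S P hP
    have h3 : (1 - 1 / Q) * (1 + xP P) = 1 := by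
      unfold xP
      rw [← hQ]
      have : Q - 1 ≠ 0 := by linarith
      have : Q ≠ 0 := by linarith
      field_simp
      ring
    have h4 : 0 ≤ 1 - 1 / Q := by
      rw [sub_nonneg, div_le_one (by linarith)]
      exact h1.le
    calc (z : ℝ) * ((1 - 1 / Q) * ∏ P ∈ S, (1 - 1 / (Fintype.card K : ℝ) ^ P.natDegree)) =
        (1 - 1 / Q) * (z * ∏ P ∈ S, (1 - 1 / (Fintype.card K : ℝ) ^ P.natDegree)) := by ring
      _ ≤ (1 - 1 / Q) * ((1 + xP P) *
          ∑ T ∈ ((PP K z \ insert P S).powerset).filter (fun T => dg T < z), ∏ Q ∈ T, xP Q) :=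
        mul_le_mul_of_nonneg_left (ih.trans h2) h4
      _ = _ := by rw [← mul_assoc, h3, one_mul]

end Pool.Agent.H290.PK.PSel2
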