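import Pool.Agent.H290.PK.Fin
import Pool.Agent.H290.PK.PBas
import Pool.Agent.H290.PK.PSel
import Pool.Agent.H290.PK.PSel2
import Pool.Agent.H290.PK.PUp
import Pool.Agent.H290.PK.PMer
import Pool.Agent.H290.PK.PEs
import Pool.Agent.H290.PK.PII1
import Pool.Agent.H290.PK.PII2
import Pool.Agent.H290.PK.PDec
import Pool.Agent.H290.PK.PErr
import Pool.Agent.H290.PK.PMain
import Pool.Agent.H290.PK.PLow

/-! Assembly. -/

namespace Pool.Agent.H290.PK.Asm

open Pool.Agent.H290.PK

theorem main (hSP : SP) : SFinal := by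
  have hU : SUp := PUp.main PBas.main PSel.main PSel2.main
  exact Fin.main hSP (PDec.main PBas.main hU) (PII1.main PBas.main hU)
    (PII2.main PMer.main PEs.main) (PErr.main PMer.main PEs.main) (PMain.main PMer.main PEs.main)
    (PLow.main PMer.main PEs.main)

end Pool.Agent.H290.PK.Asm
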