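import Pool.Agent.H290.PK.Stm

/-!
# Assembly of the theorem on `a ^ 2 + X` with exactly `k` irreducible factors
-/

namespace Pool.Agent.H290.PK.Fin

open Polynomial Finset
open scoped Classical
open Pool.Agent.H290.CT (V M mem_M)
open Pool.Agent.H290.PK

lemma MI_of_subset {K : Type} [Field K] [Fintype K] {z : ℕ} {S : Finset K[X]} (h : S ⊆ PP K z) :
    MI S := by
  intro P hP
  have h1 := h hP
  unfold PP at h1
  rw [mem_biUnion] at h1
  obtain ⟨n, -, hn⟩ := h1
  unfold irr at hn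
  rw [mem_filter, mem_M] at hn
  exact ⟨hn.1.1, hn.2⟩

lemma one_lt_card (K : Type) [Field K] [Fintype K] : (1 : ℝ) < Fintype.card K := by
  exact_mod_cast Fintype.one_lt_card

lemma xP_nonneg {K : Type} [Field K] [Fintype K] (P : K[X]) : 0 ≤ xP P := by
  unfold xP
  apply div_nonneg zero_le_one
  rw [sub_nonneg]
  exact one_le_pow₀ (one_lt_card K).le

lemma prod_xP_nonneg {K : Type} [Field K] [Fintype K] (S : Finset K[X]) : 0 ≤ ∏ P ∈ S, xP P :=
  prod_nonneg (fun P _ => xP_nonneg P)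

/-- The sum over the sets `S` of the numbers `NS K d S`. -/
lemma sum_NS {K : Type} [Field K] [Fintype K] {ε θ : ℝ} {d k z : ℕ} (_ : 0 ≤ ε) (hθ : 0 < θ)
    (hθ1 : θ ≤ 1) (hd : 1 ≤ d)
    (h : ∀ S : Finset K[X], MI S → (dg S : ℝ) ≤ θ * d →
      |(2 * (d : ℝ) - dg S) * (NS K d S : ℝ) - (Fintype.card K : ℝ) ^ d * ∏ P ∈ S, xP P| ≤
        ε * ((Fintype.card K : ℝ) ^ d * ∏ P ∈ S, xP P)) :
    (1 - ε) * ((Fintype.card K : ℝ) ^ d / (2 * d) *
      ∑ S ∈ ((PP K z).powersetCard k).filter (fun S => (dg S : ℝ) ≤ θ * d), ∏ P ∈ S, xP P) ≤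
      ∑ S ∈ ((PP K z).powersetCard k).filter (fun S => (dg S : ℝ) ≤ θ * d), (NS K d S : ℝ) ∧
    ∑ S ∈ ((PP K z).powersetCard k).filter (fun S => (dg S : ℝ) ≤ θ * d), (NS K d S : ℝ) ≤
      (1 + ε) * (1 + θ) * ((Fintype.card K : ℝ) ^ d / (2 * d) *
      ∑ S ∈ ((PP K z).powersetCard k).filter (fun S => (dg S : ℝ) ≤ θ * d), ∏ P ∈ S, xP P) := by
  have hd0 : (0 : ℝ) < d := by exact_mod_cast hd
  have hq : (0 : ℝ) < (Fintype.card K : ℝ) ^ d := pow_pos (by linarith [one_lt_card K]) d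
  rw [mul_sum, mul_sum, mul_sum]
  constructor
  · apply sum_le_sum
    intro S hS
    rw [mem_filter, mem_powersetCard] at hS
    have h1 := (abs_le.mp (h S (MI_of_subset hS.1.1) hS.2)).1
    have h2 : (0 : ℝ) ≤ NS K d S := Nat.cast_nonneg _
    have h3 : (0 : ℝ) ≤ dg S := Nat.cast_nonneg _
    have h4 : (1 - ε) * ((Fintype.card K : ℝ) ^ d * ∏ P ∈ S, xP P) ≤ 2 * d * (NS K d S : ℝ) := by
      nlinarith [mul_nonneg h3 h2]
    have h5 : (1 - ε) * ((Fintype.card K : ℝ) ^ d / (2 * d) * ∏ P ∈ S, xP P) =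
        ((1 - ε) * ((Fintype.card K : ℝ) ^ d * ∏ P ∈ S, xP P)) / (2 * d) := by ring
    rw [h5, div_le_iff₀ (by positivity)]
    linarith
  · apply sum_le_sum
    intro S hS
    rw [mem_filter, mem_powersetCard] at hS
    have h1 := (abs_le.mp (h S (MI_of_subset hS.1.1) hS.2)).2
    have h2 : (0 : ℝ) ≤ NS K d S := Nat.cast_nonneg _
    have h3 : (0 : ℝ) ≤ dg S := Nat.cast_nonneg _
    have h6 := prod_xP_nonneg S
    have h7 : 0 ≤ (Fintype.card K : ℝ) ^ d * ∏ P ∈ S, xP P := mul_nonneg hq.le h6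
    have h4 : (2 - θ) * d * (NS K d S : ℝ) ≤
        (1 + ε) * ((Fintype.card K : ℝ) ^ d * ∏ P ∈ S, xP P) := by
      have h8 : (2 - θ) * d * (NS K d S : ℝ) ≤ (2 * (d : ℝ) - dg S) * (NS K d S : ℝ) := by
        apply mul_le_mul_of_nonneg_right _ h2
        linarith [hS.2]
      linarith
    have h9 : (2 : ℝ) ≤ (2 - θ) * (1 + θ) := by nlinarith
    have h10 : 2 * (d : ℝ) * NS K d S ≤ (1 + θ) * ((2 - θ) * d * (NS K d S : ℝ)) := by
      have : 2 * ((d : ℝ) * NS K d S) ≤ (2 - θ) * (1 + θ) * ((d : ℝ) * NS K d S) :=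
        mul_le_mul_of_nonneg_right h9 (by positivity)
      linarith
    have h11 : 2 * (d : ℝ) * NS K d S ≤
        (1 + θ) * ((1 + ε) * ((Fintype.card K : ℝ) ^ d * ∏ P ∈ S, xP P)) :=
      h10.trans (mul_le_mul_of_nonneg_left h4 (by linarith))
    have h5 : (1 + ε) * (1 + θ) * ((Fintype.card K : ℝ) ^ d / (2 * d) * ∏ P ∈ S, xP P) =
        ((1 + θ) * ((1 + ε) * ((Fintype.card K : ℝ) ^ d * ∏ P ∈ S, xP P))) / (2 * d) := by ring
    rw [h5, le_div_iff₀ (by positivity)]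
    linarith

/-- The general two-sided bound. -/
lemma bound (hSP : SP) (hDec : SDec) (hII1 : SII1) (hII2 : SII2) (hErr : SErr) (K : Type)
    [Field K] [Fintype K] [CharP K 2] (A ε : ℝ) (hA : 1 ≤ A) (hε : 0 < ε) (hε1 : ε ≤ 1 / 2) :
    ∃ θ C : ℝ, 0 < θ ∧ 0 ≤ C ∧ ∃ d₀ : ℕ, ∀ d k : ℕ, d₀ ≤ d → 1 ≤ k →
      (k : ℝ) ≤ A * Real.log d →
      (1 - ε) * ((Fintype.card K : ℝ) ^ d / (2 * d) *
        ∑ S ∈ ((PP K (d / 16)).powersetCard (k - 1)).filter (fun S => (dg S : ℝ) ≤ θ * d),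
          ∏ P ∈ S, xP P) ≤ NK K d k ∧
      (NK K d k : ℝ) ≤ (1 + ε) * (1 + ε) * ((Fintype.card K : ℝ) ^ d / (2 * d) *
        ∑ S ∈ ((PP K (d / 16)).powersetCard (k - 1)).filter (fun S => (dg S : ℝ) ≤ θ * d),
          ∏ P ∈ S, xP P) + C * (k / Real.log d) * EK K d k := by
  obtain ⟨θ₁, hθ₁, d₁, h1⟩ := hSP K ε hε
  set θ := min θ₁ ε with hθdef
  have hθ : 0 < θ := lt_min hθ₁ hε
  have hθε : θ ≤ ε := min_le_right _ _
  have hθθ₁ : θ ≤ θ₁ := min_le_left _ _
  obtain ⟨C₂, hC₂, d₂, h2⟩ := hErr K A θ hA hθ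
  obtain ⟨C₃, hC₃, d₃, h3⟩ := hII2 K A hA
  refine ⟨θ, C₂ + C₃, hθ, by linarith, max (max d₁ d₂) (max d₃ 16), ?_⟩
  intro d k hd hk hkA
  have hd1 : d₁ ≤ d := le_trans (le_trans (le_max_left _ _) (le_max_left _ _)) hd
  have hd2 : d₂ ≤ d := le_trans (le_trans (le_max_right _ _) (le_max_left _ _)) hd
  have hd3 : d₃ ≤ d := le_trans (le_trans (le_max_left _ _) (le_max_right _ _)) hd
  have hd16 : 16 ≤ d := le_trans (le_trans (le_max_right _ _) (le_max_right _ _)) hd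
  have hz1 : 1 ≤ d / 16 := by omega
  have hz2 : 16 * (d / 16) ≤ d := by omega
  have hz3 : d < 16 * (d / 16 + 1) := by omega
  have hN := sum_NS (K := K) (z := d / 16) (k := k - 1) hε.le hθ (by linarith)
    (by omega : 1 ≤ d) (fun S hS hdS => h1 d hd1 S hS (hdS.trans
      (mul_le_mul_of_nonneg_right hθθ₁ (Nat.cast_nonneg _))))
  obtain ⟨e1, e2⟩ := hDec K d (d / 16) k θ hk hz1 hz2 hz3 hθ (by linarith)
  have e3 := h2 d (d / 16) k hd2 hk hz2 hz3 hkA
  have e4 := (hII1 K d (d / 16) k hk hz1 hz2).trans (h3 d (d / 16) k hd3 hk hz1 hz2 hkA)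
  refine ⟨hN.1.trans e1, ?_⟩
  have e5 : (1 + ε) * (1 + θ) * ((Fintype.card K : ℝ) ^ d / (2 * d) *
        ∑ S ∈ ((PP K (d / 16)).powersetCard (k - 1)).filter (fun S => (dg S : ℝ) ≤ θ * d),
          ∏ P ∈ S, xP P) ≤ (1 + ε) * (1 + ε) * ((Fintype.card K : ℝ) ^ d / (2 * d) *
        ∑ S ∈ ((PP K (d / 16)).powersetCard (k - 1)).filter (fun S => (dg S : ℝ) ≤ θ * d),
          ∏ P ∈ S, xP P) := by
    apply mul_le_mul_of_nonneg_right
    · apply mul_le_mul_of_nonneg_left (by linarith) (by linarith)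
    · apply mul_nonneg
      · positivity
      · exact sum_nonneg (fun S _ => prod_xP_nonneg S)
  have e6 : (C₂ + C₃) * (k / Real.log d) * EK K d k =
      C₂ * (k / Real.log d) * EK K d k + C₃ * (k / Real.log d) * EK K d k := by ring
  rw [e6]
  linarith [hN.2]

theorem main (hSP : SP) (hDec : SDec) (hII1 : SII1) (hII2 : SII2) (hErr : SErr) (hMain : SMain)
    (hLow : SLow) : SFinal := by
  intro K _ _ _
  have hlog : ∀ d : ℕ, 3 ≤ d → 1 ≤ Real.log d := by
    intro d hd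
    rw [Real.le_log_iff_exp_le (by exact_mod_cast (by omega : 0 < d))]
    have := Real.exp_one_lt_d9
    have h3 : (3 : ℝ) ≤ d := by exact_mod_cast hd
    linarith
  have hEK : ∀ d k : ℕ, 3 ≤ d → 0 ≤ EK K d k := by
    intro d k hd
    unfold EK
    have := hlog d hd
    positivity
  have hEK' : ∀ d k : ℕ, EK K d k = (Fintype.card K : ℝ) ^ d / (2 * d) *
      (Real.log d ^ (k - 1) / (k - 1).factorial) := by
    intro d k
    unfold EK
    rw [div_mul_div_comm]
  constructor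
  · intro ε hε
    set ε₁ := min (ε / 16) (1 / 2) with hε₁
    have hε₁0 : 0 < ε₁ := lt_min (by linarith) (by norm_num)
    have hε₁1 : ε₁ ≤ ε / 16 := min_le_left _ _
    have hε₁2 : ε₁ ≤ 1 / 2 := min_le_right _ _
    obtain ⟨θ, C, hθ, hC, d₁, h1⟩ := bound hSP hDec hII1 hII2 hErr K 1 ε₁ le_rfl hε₁0 hε₁2
    obtain ⟨C', hC', d₂, h2⟩ := hMain K 1 θ le_rfl hθ
    set δ := min 1 (ε / (8 * (C + C' + 1))) with hδ
    have hpos : 0 < C + C' + 1 := by linarith
    have hδ0 : 0 < δ := lt_min one_pos (by positivity)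
    have hδ1 : δ ≤ 1 := min_le_left _ _
    have hδ2 : δ * (C + C' + 1) ≤ ε / 8 := by
      calc δ * (C + C' + 1) ≤ ε / (8 * (C + C' + 1)) * (C + C' + 1) :=
            mul_le_mul_of_nonneg_right (min_le_right _ _) hpos.le
        _ = ε / 8 := by field_simp
    refine ⟨δ, hδ0, max (max d₁ d₂) 16, ?_⟩
    intro d k hd hk hkd
    have hd1 : d₁ ≤ d := le_trans (le_trans (le_max_left _ _) (le_max_left _ _)) hd
    have hd2 : d₂ ≤ d := le_trans (le_trans (le_max_right _ _) (le_max_left _ _)) hd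
    have hd16 : 16 ≤ d := le_trans (le_max_right _ _) hd
    have hL := hlog d (by omega)
    have hL0 : 0 < Real.log d := by linarith
    have hkL : (k : ℝ) ≤ 1 * Real.log d :=
      hkd.trans (mul_le_mul_of_nonneg_right hδ1 hL0.le)
    obtain ⟨e1, e2⟩ := h1 d k hd1 hk hkL
    have e3 := h2 d (d / 16) k hd2 hk (by omega) (by omega) hkL
    set Sg := ∑ S ∈ ((PP K (d / 16)).powersetCard (k - 1)).filter
      (fun S => (dg S : ℝ) ≤ θ * d), ∏ P ∈ S, xP P with hSg
    set F := Real.log d ^ (k - 1) / ((k - 1).factorial : ℝ) with hF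
    set Q := (Fintype.card K : ℝ) ^ d / (2 * d) with hQ
    have hQ0 : 0 ≤ Q := by positivity
    have hF0 : 0 ≤ F := by positivity
    have hE : EK K d k = Q * F := hEK' d k
    rw [hE] at e2 ⊢
    set t := (k : ℝ) / Real.log d with ht
    have ht0 : 0 ≤ t := by positivity
    have htδ : t ≤ δ := by rw [ht, div_le_iff₀ hL0]; exact hkd
    have hQF : 0 ≤ Q * F := mul_nonneg hQ0 hF0
    have e4 : Q * Sg ≤ (1 + C' * t) * (Q * F) := by
      have := (abs_le.mp e3).2
      have : Sg ≤ (1 + C' * t) * F := by linarith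
      calc Q * Sg ≤ Q * ((1 + C' * t) * F) := mul_le_mul_of_nonneg_left this hQ0
        _ = (1 + C' * t) * (Q * F) := by ring
    have e5 : (1 - C' * t) * (Q * F) ≤ Q * Sg := by
      have := (abs_le.mp e3).1
      have : (1 - C' * t) * F ≤ Sg := by linarith
      calc (1 - C' * t) * (Q * F) = Q * ((1 - C' * t) * F) := by ring
        _ ≤ Q * Sg := mul_le_mul_of_nonneg_left this hQ0
    have hC't : C' * t ≤ ε / 8 := by
      calc C' * t ≤ (C + C' + 1) * δ := mul_le_mul (by linarith) htδ ht0 hpos.le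
        _ ≤ ε / 8 := by linarith
    have hCt : C * t ≤ ε / 8 := by
      calc C * t ≤ (C + C' + 1) * δ := mul_le_mul (by linarith) htδ ht0 hpos.le
        _ ≤ ε / 8 := by linarith
    have hC't0 : 0 ≤ C' * t := mul_nonneg hC' ht0
    have hCt0 : 0 ≤ C * t := mul_nonneg hC ht0
    rw [abs_le]
    constructor
    · -- lower bound
      have e6 : (1 - ε₁) * ((1 - C' * t) * (Q * F)) ≤ NK K d k :=
        (mul_le_mul_of_nonneg_left e5 (by linarith)).trans e1
      have e7 : (1 - ε) * (Q * F) ≤ (1 - ε₁) * ((1 - C' * t) * (Q * F)) := by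
        rw [show (1 - ε₁) * ((1 - C' * t) * (Q * F)) = ((1 - ε₁) * (1 - C' * t)) * (Q * F) by ring]
        apply mul_le_mul_of_nonneg_right _ hQF
        nlinarith [mul_nonneg hε₁0.le hC't0]
      linarith
    · -- upper bound: needs the case of large `ε`
      have e6 : (NK K d k : ℝ) ≤ (1 + ε₁) * (1 + ε₁) * ((1 + C' * t) * (Q * F)) +
          C * t * (Q * F) :=
        e2.trans (by
          have := mul_le_mul_of_nonneg_left e4 (by positivity : 0 ≤ (1 + ε₁) * (1 + ε₁))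
          linarith)
      have e7 : (1 + ε₁) * (1 + ε₁) * (1 + C' * t) + C * t ≤ 1 + ε := by
        have hC't1 : C' * t ≤ 1 * C' := by
          rw [mul_comm]
          exact mul_le_mul_of_nonneg_right (htδ.trans hδ1) hC'
        have a1 : (1 + ε₁) * (1 + ε₁) ≤ 1 + 3 * ε₁ := by nlinarith
        have a2 : 1 + 3 * ε₁ ≤ 5 / 2 := by linarith
        have a3 : (1 + ε₁) * (1 + ε₁) * (1 + C' * t) ≤ 1 + 3 * ε₁ + 5 / 2 * (C' * t) := by
          nlinarith [mul_le_mul_of_nonneg_right (a1.trans a2) hC't0]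
        linarith
      have e8 := mul_le_mul_of_nonneg_right e7 hQF
      linarith
  · intro A
    set A' := max A 1 with hA'
    have hA'1 : 1 ≤ A' := le_max_right _ _
    obtain ⟨θ, C, hθ, hC, d₁, h1⟩ := bound hSP hDec hII1 hII2 hErr K A' (1 / 2) hA'1
      (by norm_num) (by norm_num)
    obtain ⟨C', hC', d₂, h2⟩ := hMain K A' θ hA'1 hθ
    obtain ⟨c, hc, d₃, h3⟩ := hLow K A' θ hA'1 hθ
    refine ⟨c / 2, 9 / 4 * (1 + C' * A') + C * A', by linarith, by positivity,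
      max (max d₁ d₂) (max d₃ 16), ?_⟩
    intro d k hd hk hkd
    have hd1 : d₁ ≤ d := le_trans (le_trans (le_max_left _ _) (le_max_left _ _)) hd
    have hd2 : d₂ ≤ d := le_trans (le_trans (le_max_right _ _) (le_max_left _ _)) hd
    have hd3 : d₃ ≤ d := le_trans (le_trans (le_max_left _ _) (le_max_right _ _)) hd
    have hd16 : 16 ≤ d := le_trans (le_trans (le_max_right _ _) (le_max_right _ _)) hd
    have hL := hlog d (by omega)
    have hL0 : 0 < Real.log d := by linarith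
    have hkL : (k : ℝ) ≤ A' * Real.log d :=
      hkd.trans (mul_le_mul_of_nonneg_right (le_max_left _ _) hL0.le)
    obtain ⟨e1, e2⟩ := h1 d k hd1 hk hkL
    have e3 := h2 d (d / 16) k hd2 hk (by omega) (by omega) hkL
    have e3' := h3 d (d / 16) k hd3 hk (by omega) (by omega) hkL
    set Sg := ∑ S ∈ ((PP K (d / 16)).powersetCard (k - 1)).filter
      (fun S => (dg S : ℝ) ≤ θ * d), ∏ P ∈ S, xP P with hSg
    set F := Real.log d ^ (k - 1) / ((k - 1).factorial : ℝ) with hF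
    set Q := (Fintype.card K : ℝ) ^ d / (2 * d) with hQ
    have hQ0 : 0 ≤ Q := by positivity
    have hF0 : 0 ≤ F := by positivity
    have hE : EK K d k = Q * F := hEK' d k
    rw [hE] at e2 ⊢
    set t := (k : ℝ) / Real.log d with ht
    have ht0 : 0 ≤ t := by positivity
    have htA : t ≤ A' := by rw [ht, div_le_iff₀ hL0]; exact hkL
    have hQF : 0 ≤ Q * F := mul_nonneg hQ0 hF0
    have e4 : Q * Sg ≤ (1 + C' * t) * (Q * F) := by
      have := (abs_le.mp e3).2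
      have : Sg ≤ (1 + C' * t) * F := by linarith
      calc Q * Sg ≤ Q * ((1 + C' * t) * F) := mul_le_mul_of_nonneg_left this hQ0
        _ = (1 + C' * t) * (Q * F) := by ring
    have e4' : (1 + C' * t) * (Q * F) ≤ (1 + C' * A') * (Q * F) := by
      apply mul_le_mul_of_nonneg_right _ hQF
      linarith [mul_le_mul_of_nonneg_left htA hC']
    have e5 : c * (Q * F) ≤ Q * Sg := by
      calc c * (Q * F) = Q * (c * F) := by ring
        _ ≤ Q * Sg := mul_le_mul_of_nonneg_left e3' hQ0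
    constructor
    · linarith
    · have e6 : C * t * (Q * F) ≤ C * A' * (Q * F) := by
        apply mul_le_mul_of_nonneg_right _ hQF
        exact mul_le_mul_of_nonneg_left htA hC
      linarith

end Pool.Agent.H290.PK.Fin
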