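import Pool.Agent.H290.PK.StmSP
import Pool.Agent.H290.PK.PUp

/-!
# The input from the uniform prime theorem
-/

set_option linter.unusedSectionVars false

namespace Pool.Agent.H290.PK.PSPof

open Polynomial Finset
open scoped Classical
open Pool.Agent.H290.CT (V M mem_V mem_M)
open Pool.Agent.H290.PK.PUp
open Pool.Agent.H604.LD
open Pool.Agent.H694.Typ (Mn)

noncomputable section

variable {K : Type} [Field K] [Fintype K]

/-- The Chinese remainder theorem. -/
lemma crt (r : K[X] → K[X]) (S : Finset K[X]) (hS : MI S) :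
    ∃ a₀ : K[X], ∀ P ∈ S, P ∣ a₀ - r P := by
  induction S using Finset.induction_on with
  | empty => exact ⟨0, fun P hP => absurd hP (Finset.notMem_empty P)⟩
  | insert Q S hQ ih =>
    have hS' : MI S := fun P hP => hS P (Finset.mem_insert_of_mem hP)
    obtain ⟨a, ha⟩ := ih hS'
    obtain ⟨v, u, huv⟩ := coprime_prod hS' (hS Q (Finset.mem_insert_self Q S)) hQ
    refine ⟨a * (v * Q) + r Q * (u * ∏ P ∈ S, P), fun P hP => ?_⟩
    rcases Finset.mem_insert.1 hP with rfl | hP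
    · refine ⟨v * (a - r P), ?_⟩
      linear_combination (r P) * huv
    · have e1 : P ∣ ∏ P ∈ S, P := Finset.dvd_prod_of_mem _ hP
      have e2 : a * (v * Q) + r Q * (u * ∏ P ∈ S, P) - r P =
          (a - r P) + (∏ P ∈ S, P) * (u * (r Q - a)) := by
        linear_combination a * huv
      rw [e2]
      exact dvd_add (ha P hP) (e1.mul_right _)

lemma fa_one (a : K[X]) : fa (1 : K) 1 a = a ^ 2 + X := by
  unfold fa
  simp

lemma sqf [CharP K 2] (a : K[X]) : (a ^ 2 + X).Separable := by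
  have hder : derivative (a ^ 2 + X) = 1 := by
    rw [derivative_add, derivative_X, derivative_sq]
    have h3 : C (2 : K) = 0 := by
      rw [show (2 : K) = 0 from CharP.cast_eq_zero K 2, C_0]
    simp only [h3, zero_mul, zero_add]
  rw [Separable, hder]
  exact isCoprime_one_right

lemma dvd_prod_iff {S : Finset K[X]} (hS : MI S) {f : K[X]} :
    ∏ P ∈ S, P ∣ f ↔ ∀ P ∈ S, P ∣ f :=
  ⟨fun h P hP => (Finset.dvd_prod_of_mem (fun P => P) hP).trans h, prod_dvd hS⟩

lemma irr_prod_iff {T : Finset K[X]} (hT : MI T) : Irreducible (∏ P ∈ T, P) ↔ T.card = 1 := by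
  constructor
  · intro h
    have h0 : T.Nonempty := by
      rw [Finset.nonempty_iff_ne_empty]
      rintro rfl
      rw [Finset.prod_empty] at h
      exact not_irreducible_one h
    obtain ⟨P, hP⟩ := h0
    have e1 : ∏ Q ∈ T, Q = P * ∏ Q ∈ T.erase P, Q := (Finset.mul_prod_erase T (fun Q => Q) hP).symm
    rcases h.isUnit_or_isUnit e1 with h1 | h1
    · exact absurd h1 (hT P hP).2.not_isUnit
    · have h2 : T.erase P = ∅ := by
        rw [Finset.eq_empty_iff_forall_notMem]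
        intro Q hQ
        have h3 : Q ∣ ∏ Q ∈ T.erase P, Q := Finset.dvd_prod_of_mem (fun Q => Q) hQ
        exact (hT Q (Finset.mem_of_mem_erase hQ)).2.not_isUnit (isUnit_of_dvd_unit h3 h1)
      have h3 := Finset.card_erase_of_mem hP
      rw [h2, Finset.card_empty] at h3
      have h4 : 0 < T.card := Finset.card_pos.2 ⟨P, hP⟩
      omega
  · intro h
    obtain ⟨P, rfl⟩ := Finset.card_eq_one.1 h
    rw [Finset.prod_singleton]
    exact (hT P (Finset.mem_singleton_self P)).2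

lemma mem_AsU0 {d : ℕ} {E a₀ a : K[X]} :
    a ∈ AsU K d E a₀ (X ^ d) 0 ↔ a ∈ M K d ∧ E ∣ a - a₀ := by
  unfold AsU As
  rw [Finset.mem_filter, Finset.mem_filter, Pool.Agent.H694.Typ.mem_Mn, mem_M]
  constructor
  · rintro ⟨⟨h1, h2⟩, -⟩
    exact ⟨h1, h2⟩
  · rintro ⟨h1, h2⟩
    refine ⟨⟨h1, h2⟩, ?_⟩
    have e1 : a.degree = (d : WithBot ℕ) := by rw [degree_eq_natDegree h1.1.ne_zero, h1.2]
    rw [Nat.sub_zero, ← e1]
    refine degree_sub_lt_left ?_ h1.1.ne_zero ?_
    · rw [e1, degree_X_pow]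
    · rw [h1.1.leadingCoeff, leadingCoeff_X_pow]

lemma PA_prod {S : Finset K[X]} (hS : MI S) :
    Pool.Agent.H985.KP.PA (∏ P ∈ S, P) = (S : Set K[X]) := by
  ext P
  unfold Pool.Agent.H985.KP.PA
  rw [Set.mem_ofPred_eq, Finset.mem_coe]
  constructor
  · rintro ⟨h1, h2, h3⟩
    by_contra h
    exact h2.not_isUnit ((coprime_prod hS ⟨h1, h2⟩ h).isUnit_of_dvd' dvd_rfl h3)
  · intro h
    exact ⟨(hS P h).1, (hS P h).2, Finset.dvd_prod_of_mem (fun P => P) h⟩

lemma PiM_prod {S : Finset K[X]} (hS : MI S) :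
    PiM (∏ P ∈ S, P) = ∏ P ∈ S, (1 - 1 / (Fintype.card K : ℝ) ^ P.natDegree) := by
  unfold PiM
  rw [PA_prod hS]
  exact finprod_mem_coe_finset _ _

lemma xP_ge {P : K[X]} (h : Irreducible P) :
    1 / (Fintype.card K : ℝ) ^ P.natDegree ≤ xP P := by
  have h1 : (1 : ℝ) < (Fintype.card K : ℝ) ^ P.natDegree :=
    one_lt_pow₀ one_lt_q (deg_pos h).ne'
  unfold xP
  exact one_div_le_one_div_of_le (by linarith) (by linarith)

lemma prod_xP_ge {S : Finset K[X]} (hS : MI S) :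
    1 / (Fintype.card K : ℝ) ^ dg S ≤ ∏ P ∈ S, xP P := by
  have h1 : ∏ P ∈ S, 1 / (Fintype.card K : ℝ) ^ P.natDegree =
      1 / (Fintype.card K : ℝ) ^ dg S := by
    rw [Finset.prod_div_distrib, Finset.prod_const_one, Finset.prod_pow_eq_pow_sum]
    rfl
  rw [← h1]
  exact Finset.prod_le_prod (fun P _ => by positivity) (fun P hP => xP_ge (hS P hP).2)

/-- The data and the count for the class of the roots. -/
lemma data [CharP K 2] (h1 : SBas) (S : Finset K[X]) (hS : MI S) :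
    ∃ a₀ : K[X], Dat (1 : K) 1 (∏ P ∈ S, P) a₀ (∏ P ∈ S, P) ∧
      ∀ d : ℕ, 1 ≤ d → NS K d S = ((AsU K d (∏ P ∈ S, P) a₀ (X ^ d) 0).filter
        (fun a => Irreducible (ga 1 1 (∏ P ∈ S, P) a))).card := by
  obtain ⟨hbas, hroot⟩ := h1 K
  have hroot' : ∀ P : K[X], ∃ r : K[X], P.Monic → Irreducible P →
      ∀ a : K[X], P ∣ a ^ 2 + X ↔ P ∣ a - r := by
    intro P
    by_cases hP : P.Monic ∧ Irreducible P
    · obtain ⟨r, hr⟩ := hroot P hP.1 hP.2
      exact ⟨r, fun _ _ => hr⟩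
    · exact ⟨0, fun q1 q2 => absurd ⟨q1, q2⟩ hP⟩
  choose r hr using hroot'
  obtain ⟨a₀, ha₀⟩ := crt r S hS
  obtain ⟨E, hE⟩ : ∃ E : K[X], E = ∏ P ∈ S, P := ⟨_, rfl⟩
  have hEm : E.Monic := by rw [hE]; exact monic_prod hS
  -- divisibility
  have hdiv : ∀ a : K[X], E ∣ a ^ 2 + X ↔ E ∣ a - a₀ := by
    intro a
    rw [hE, dvd_prod_iff hS, dvd_prod_iff hS]
    refine forall₂_congr fun P hP => ?_
    rw [hr P (hS P hP).1 (hS P hP).2]
    have e1 : a - r P = (a - a₀) + (a₀ - r P) := by ring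
    rw [e1]
    exact dvd_add_left (ha₀ P hP)
  have hE0 : E ∣ a₀ ^ 2 + X := by
    rw [hdiv a₀, sub_self]
    exact dvd_zero _
  refine ⟨a₀, ?_, ?_⟩
  · rw [← hE]
    obtain ⟨G, hG⟩ := hE0
    have hga : ga (1 : K) 1 E a₀ = G := by
      unfold ga
      rw [fa_one, hG, mul_div_cancel_left₀ G hEm.ne_zero]
    have hsep := sqf (K := K) a₀
    refine ⟨one_ne_zero, monic_one, hEm, ?_, hEm, ?_, dvd_rfl, ?_, ?_⟩
    · rw [one_pow]; exact one_dvd _
    · exact hsep.squarefree.squarefree_of_dvd (hG ▸ dvd_mul_right E G)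
    · rw [fa_one, hG]; exact dvd_mul_right E G
    · rw [hga]
      rw [hG] at hsep
      exact hsep.isCoprime.symm
  · intro d hd
    rw [← hE]
    unfold NS
    congr 1
    ext a
    rw [Finset.mem_filter, Finset.mem_filter, mem_AsU0]
    constructor
    · rintro ⟨ha, h2, h3⟩
      obtain ⟨-, hmon, -, hprod, -, hMI, -, hmem⟩ := hbas d a ha hd
      have e1 : a ^ 2 + X = E * ∏ P ∈ pf (a ^ 2 + X) \ S, P := by
        rw [hE, mul_comm, Finset.prod_sdiff h2, hprod]
      have e2 : ga (1 : K) 1 E a = ∏ P ∈ pf (a ^ 2 + X) \ S, P := by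
        unfold ga
        rw [fa_one]
        conv_lhs => rw [e1]
        rw [mul_div_cancel_left₀ _ hEm.ne_zero]
      refine ⟨⟨ha, ?_⟩, ?_⟩
      · rw [← hdiv a, e1]
        exact dvd_mul_right _ _
      · rw [e2, irr_prod_iff (fun P hP => hMI P (Finset.mem_sdiff.1 hP).1),
          Finset.card_sdiff_of_subset h2, h3]
        omega
    · rintro ⟨⟨ha, h2⟩, h3⟩
      obtain ⟨-, hmon, -, hprod, -, hMI, -, hmem⟩ := hbas d a ha hd
      rw [← hdiv a] at h2
      have h4 : S ⊆ pf (a ^ 2 + X) := by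
        intro P hP
        rw [hmem P (hS P hP).1 (hS P hP).2]
        refine dvd_trans ?_ h2
        rw [hE]
        exact Finset.dvd_prod_of_mem (fun P => P) hP
      have e1 : a ^ 2 + X = E * ∏ P ∈ pf (a ^ 2 + X) \ S, P := by
        rw [hE, mul_comm, Finset.prod_sdiff h4, hprod]
      have e2 : ga (1 : K) 1 E a = ∏ P ∈ pf (a ^ 2 + X) \ S, P := by
        unfold ga
        rw [fa_one]
        conv_lhs => rw [e1]
        rw [mul_div_cancel_left₀ _ hEm.ne_zero]
      rw [e2, irr_prod_iff (fun P hP => hMI P (Finset.mem_sdiff.1 hP).1),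
        Finset.card_sdiff_of_subset h4] at h3
      refine ⟨ha, h4, ?_⟩
      have h5 := Finset.card_le_card h4
      omega

theorem main : Pool.Agent.H290.PK.SPof := by
  intro h1 hL K _ _ _ ε hε
  obtain ⟨c, θ, hc, hθ, d₀, hmain⟩ := hL K
  have hq1 : (1 : ℝ) < (Fintype.card K : ℝ) := one_lt_q
  have hq0 : (0 : ℝ) < (Fintype.card K : ℝ) := by linarith
  -- the error term
  obtain ⟨d₁, hd₁⟩ : ∃ d₁ : ℕ, ∀ d : ℕ, d₁ ≤ d →
      (Fintype.card K : ℝ) ^ (-(c / 2) * (d : ℝ)) ≤ ε := by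
    have h2 : Filter.Tendsto (fun d : ℕ => (Fintype.card K : ℝ) ^ (-(c / 2) * (d : ℝ)))
        Filter.atTop (nhds 0) := by
      have h3 : (fun d : ℕ => (Fintype.card K : ℝ) ^ (-(c / 2) * (d : ℝ))) =
          fun d : ℕ => ((Fintype.card K : ℝ) ^ (-(c / 2))) ^ d := by
        funext d
        rw [Real.rpow_mul hq0.le, Real.rpow_natCast]
      rw [h3]
      refine tendsto_pow_atTop_nhds_zero_of_lt_one (by positivity) ?_
      exact Real.rpow_lt_one_of_one_lt_of_neg hq1 (by linarith)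
    have h3 := h2.eventually (eventually_le_nhds hε)
    rw [Filter.eventually_atTop] at h3
    exact h3
  refine ⟨min θ (min (c / 2) 1), by positivity, max d₀ (max d₁ 1), fun d hd S hS hdS => ?_⟩
  have hd0 : d₀ ≤ d := le_trans (le_max_left _ _) hd
  have hd1 : d₁ ≤ d := le_trans ((le_max_left _ _).trans (le_max_right _ _)) hd
  have hd2 : 1 ≤ d := le_trans ((le_max_right _ _).trans (le_max_right _ _)) hd
  have hdR : (0 : ℝ) ≤ (d : ℝ) := Nat.cast_nonneg d
  have g1 : (dg S : ℝ) ≤ θ * d :=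
    hdS.trans (mul_le_mul_of_nonneg_right (min_le_left _ _) hdR)
  have g2 : (dg S : ℝ) ≤ (c / 2) * d :=
    hdS.trans (mul_le_mul_of_nonneg_right ((min_le_right _ _).trans (min_le_left _ _)) hdR)
  have g3 : (dg S : ℝ) ≤ 1 * d :=
    hdS.trans (mul_le_mul_of_nonneg_right ((min_le_right _ _).trans (min_le_right _ _)) hdR)
  have g4 : dg S ≤ d := by
    rw [one_mul] at g3
    exact_mod_cast g3
  obtain ⟨a₀, hdat, hcount⟩ := data h1 S hS
  have h2 := hmain 1 1 (∏ P ∈ S, P) a₀ (∏ P ∈ S, P) (X ^ d) 0 d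
    ⟨hdat, monic_X_pow d, natDegree_X_pow d⟩ hd0 (by
      rw [natDegree_prod hS, Nat.add_zero]
      exact g1)
  rw [natDegree_prod hS, ← hcount d hd2, PiM_prod hS, Nat.sub_zero, ← prod_id hS g4,
    mul_div_assoc, div_self (Finset.prod_pos fun P hP => w_pos (hS P hP).2).ne', mul_one] at h2
  refine h2.trans ?_
  have h3 : (Fintype.card K : ℝ) ^ ((1 - c) * (d : ℝ)) =
      (Fintype.card K : ℝ) ^ (-(c / 2) * (d : ℝ)) *
        ((Fintype.card K : ℝ) ^ d * (Fintype.card K : ℝ) ^ (-(c / 2) * (d : ℝ))) := by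
    rw [← Real.rpow_natCast, ← Real.rpow_add hq0, ← Real.rpow_add hq0]
    congr 1
    ring
  rw [h3]
  refine mul_le_mul (hd₁ d hd1) ?_ (by positivity) hε.le
  refine mul_le_mul_of_nonneg_left ?_ (by positivity)
  refine le_trans ?_ (prod_xP_ge hS)
  rw [one_div, ← Real.rpow_natCast, ← Real.rpow_neg hq0.le]
  exact Real.rpow_le_rpow_of_exponent_le hq1.le (by linarith)

end

end Pool.Agent.H290.PK.PSPof
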