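import Mathlib
import Pool.Agent.H290.PK.Stm
import Pool.Agent.H604.LD.StmP

/-!
# Exactly `k` irreducible factors (helper290): the input from the uniform prime theorem
-/

namespace Pool.Agent.H290.PK

open Polynomial

/-- **Task SPOF.**  `SP` from `S_landaup` (`H604/LD/StmP.lean`).

Apply `S_landaup` with `γ = 1`, `b = 1`, `M = α = E := ∏ P ∈ S, P`, `g = X ^ d`, `l = 0` and `a₀` a
polynomial with `E ∣ a₀ ^ 2 + X` (`SBas`, second part, and the Chinese remainder theorem).  `fa 1 1 a =
a ^ 2 + X` is squarefree (its derivative is `1`), so `fa / E` is prime to `E`: `Dat` holds.  For `a ∈ Mn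
K d` (= `M K d`, the monic polynomials of degree `d`) one has `E ∣ a - a₀` iff `E ∣ a ^ 2 + X`
(uniqueness of the root modulo the members of `S`) iff `S ⊆ pf (a ^ 2 + X)`, and then
`(pf (a ^ 2 + X)).card = S.card + 1` iff `(a ^ 2 + X) / E` is irreducible.  (`AsU K d M a₀ g 0` is the
set of the `a ∈ Mn K d` with `M ∣ a - a₀`, as `deg (a - X ^ d) < d`.)  Moreover
`q ^ (d - deg E) / PiM E = q ^ d * ∏ P ∈ S, xP P`, `∏ P ∈ S, xP P ≥ q ^ (- deg E)`, and
`deg E = dg S ≤ θ d` with `θ < c` smaller than the constants of `S_landaup`, so the error term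
`q ^ ((1 - c) d)` is at most `ε q ^ d ∏ xP` for large `d`. -/
def SPof : Prop := SBas → Pool.Agent.H604.LD.S_landaup → SP

end Pool.Agent.H290.PK
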